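import Pool.Agent.K6.H28.GR.RegT
import Pool.Agent.K6.H28.SF.Nilp

set_option autoImplicit false

/-! # Finite groups of invertible order (Maschke), and towers of extensions by the integers -/

namespace Pool.Agent.K6.H28.GR

open Multiplicative Matrix
open Pool.Agent.K6.H28.SF (PZ)

section retract

variable {L : Type} [Ring L]

/-- a retract of a free module is the row module of an idempotent matrix -/
theorem rowM_of_retract {P : Type} [AddCommGroup P] [Module L P] {n : ℕ} (f : (Fin n → L) →ₗ[L] P)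
    (s : P →ₗ[L] (Fin n → L)) (hs : ∀ p, f (s p) = p) :
    ∃ A : Matrix (Fin n) (Fin n) L, A * A = A ∧ Nonempty (P ≃ₗ[L] rowM A) := by
  let E : Matrix (Fin n) (Fin n) L := fun i => s (f (Pi.single i 1))
  have hEv : ∀ w, w ᵥ* E = s (f w) := by
    intro w
    have h1 : E.vecMulLinear = s ∘ₗ f := by
      apply (Pi.basisFun L (Fin n)).ext
      intro j
      rw [Matrix.vecMulLinear_apply, Pi.basisFun_apply, Matrix.single_one_vecMul]
      rfl
    exact LinearMap.congr_fun h1 w
  have hE : E * E = E := by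
    ext1 i
    have h1 : (E * E) i = E i ᵥ* E := rfl
    rw [h1, hEv]
    intro j
    change s (f (s (f (Pi.single i 1)))) j = _
    rw [hs]
  refine ⟨E, hE, equiv_of_ker f E.vecMulLinear.rangeRestrict (fun p => ⟨s p, hs p⟩)
    (LinearMap.surjective_rangeRestrict _) ?_⟩
  ext w
  rw [LinearMap.ker_rangeRestrict, LinearMap.mem_ker, LinearMap.mem_ker,
    Matrix.vecMulLinear_apply, hEv]
  constructor
  · intro h
    rw [h, map_zero]
  · intro h
    rw [← hs (f w), h, map_zero]

end retract

section maschke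

variable {Λ : Type} [DivisionRing Λ] {G : Type} [Group G] [Finite G]

theorem noeth_finite : IsNoetherianRing (MonoidAlgebra Λ G) := by
  have h1 : Module.Finite Λ (MonoidAlgebra Λ G) := by
    let e : (G →₀ Λ) →ₗ[Λ] MonoidAlgebra Λ G :=
      { toFun := fun x => .ofCoeff x
        map_add' := fun x y => by ext g; rfl
        map_smul' := fun c x => by ext g; rfl }
    exact Module.Finite.of_surjective e fun x => ⟨x.coeff, rfl⟩
  have h2 : IsNoetherian Λ (MonoidAlgebra Λ G) := inferInstance
  exact isNoetherian_of_tower Λ h2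

theorem maschke (hG : (Nat.card G : Λ) ≠ 0) {M : Type} [AddCommGroup M]
    [Module (MonoidAlgebra Λ G) M] {n : ℕ} (f : (Fin n → MonoidAlgebra Λ G) →ₗ[MonoidAlgebra Λ G] M)
    (hf : Function.Surjective f) :
    ∃ s : M →ₗ[MonoidAlgebra Λ G] (Fin n → MonoidAlgebra Λ G), ∀ m, f (s m) = m := by
  classical
  have := Fintype.ofFinite G
  letI : Module Λ M := Module.compHom M (MonoidAlgebra.singleOneRingHom : Λ →+* MonoidAlgebra Λ G)
  have hM : ∀ (z : Λ) (m : M), z • m = (MonoidAlgebra.single 1 z : MonoidAlgebra Λ G) • m :=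
    fun _ _ => rfl
  have hV : ∀ (z : Λ) (v : Fin n → MonoidAlgebra Λ G),
      z • v = (MonoidAlgebra.single 1 z : MonoidAlgebra Λ G) • v := by
    intro z v
    funext i
    rw [Pi.smul_apply, Pi.smul_apply, smul_eq_mul]
    ext g
    simp
  let fΛ : (Fin n → MonoidAlgebra Λ G) →ₗ[Λ] M :=
    { toFun := f
      map_add' := map_add f
      map_smul' := fun z v => by rw [RingHom.id_apply, hM, hV, map_smul] }
  obtain ⟨s0, hs0⟩ := fΛ.exists_rightInverse_of_surjective (LinearMap.range_eq_top.2 hf)
  have hs0' : ∀ m, f (s0 m) = m := fun m => LinearMap.congr_fun hs0 m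
  set c : Λ := (Nat.card G : Λ)⁻¹ with hc
  have hcc : ∀ z : Λ, c * z = z * c := fun z => by
    rw [hc]
    exact ((Nat.cast_commute (Nat.card G) z).inv_left₀).eq
  let sA : M →+ (Fin n → MonoidAlgebra Λ G) :=
    { toFun := fun m => (MonoidAlgebra.single 1 c : MonoidAlgebra Λ G) • ∑ g : G,
        (MonoidAlgebra.single g 1 : MonoidAlgebra Λ G) •
          s0 ((MonoidAlgebra.single g⁻¹ 1 : MonoidAlgebra Λ G) • m)
      map_zero' := by simp
      map_add' := fun x y => by
        simp only [smul_add, map_add, Finset.sum_add_distrib] }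
  have hsA : ∀ m, sA m = (MonoidAlgebra.single 1 c : MonoidAlgebra Λ G) • ∑ g : G,
        (MonoidAlgebra.single g 1 : MonoidAlgebra Λ G) •
          s0 ((MonoidAlgebra.single g⁻¹ 1 : MonoidAlgebra Λ G) • m) := fun _ => rfl
  refine ⟨mkLin sA ?_, ?_⟩
  · intro h z m
    rw [hsA, hsA]
    have h1 : ∀ k : G, (MonoidAlgebra.single (h * k) 1 : MonoidAlgebra Λ G) •
          s0 ((MonoidAlgebra.single (h * k)⁻¹ 1 : MonoidAlgebra Λ G) •
            ((MonoidAlgebra.single h z : MonoidAlgebra Λ G) • m))
        = (MonoidAlgebra.single h z : MonoidAlgebra Λ G) •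
          ((MonoidAlgebra.single k 1 : MonoidAlgebra Λ G) •
          s0 ((MonoidAlgebra.single k⁻¹ 1 : MonoidAlgebra Λ G) • m)) := by
      intro k
      have h2 : (MonoidAlgebra.single (h * k)⁻¹ 1 : MonoidAlgebra Λ G) •
            ((MonoidAlgebra.single h z : MonoidAlgebra Λ G) • m)
          = z • ((MonoidAlgebra.single k⁻¹ 1 : MonoidAlgebra Λ G) • m) := by
        rw [hM, ← mul_smul, ← mul_smul, MonoidAlgebra.single_mul_single,
          MonoidAlgebra.single_mul_single]
        congr 2
        · group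
        · rw [one_mul, mul_one]
      rw [h2, map_smul, hV, ← mul_smul, ← mul_smul, MonoidAlgebra.single_mul_single,
        MonoidAlgebra.single_mul_single, mul_one, one_mul, mul_one]
    rw [← Equiv.sum_comp (Equiv.mulLeft h)]
    simp only [Equiv.coe_mulLeft]
    rw [Finset.sum_congr rfl fun k _ => h1 k, ← Finset.smul_sum, ← mul_smul, ← mul_smul,
      MonoidAlgebra.single_mul_single, MonoidAlgebra.single_mul_single, hcc, mul_one, one_mul]
  · intro m
    change f (sA m) = m
    rw [hsA, map_smul, map_sum]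
    have h1 : ∀ g : G, f ((MonoidAlgebra.single g 1 : MonoidAlgebra Λ G) •
          s0 ((MonoidAlgebra.single g⁻¹ 1 : MonoidAlgebra Λ G) • m)) = m := by
      intro g
      rw [map_smul, hs0', ← mul_smul, MonoidAlgebra.single_mul_single, mul_inv_cancel, mul_one]
      exact one_smul _ _
    rw [Finset.sum_congr rfl fun g _ => h1 g, Finset.sum_const, Finset.card_univ,
      ← Nat.card_eq_fintype_card, ← Nat.cast_smul_eq_nsmul (MonoidAlgebra Λ G), ← mul_smul]
    have h2 : (MonoidAlgebra.single 1 c : MonoidAlgebra Λ G) * ((Nat.card G : ℕ) : MonoidAlgebra Λ G)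
        = 1 := by
      have h3 : ((Nat.card G : ℕ) : MonoidAlgebra Λ G)
          = MonoidAlgebra.single 1 ((Nat.card G : ℕ) : Λ) := by
        rw [← map_natCast (MonoidAlgebra.singleOneRingHom : Λ →+* MonoidAlgebra Λ G)]
        rfl
      rw [h3, MonoidAlgebra.single_mul_single, one_mul, hc, inv_mul_cancel₀ hG]
      rfl
    rw [h2, one_smul]

theorem RegT_finite {T : Type} [Group T] (j : T →* G) (hj : Function.Bijective j)
    (hG : (Nat.card G : Λ) ≠ 0) : RegT Λ j := by
  refine ⟨noeth_finite, fun M _ _ hM => ⟨0, ?_⟩⟩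
  obtain ⟨n, f, hf⟩ := Module.Finite.exists_fin' (MonoidAlgebra Λ G) M
  obtain ⟨s, hs⟩ := maschke hG f hf
  obtain ⟨A, hA, ⟨e⟩⟩ := rowM_of_retract f s hs
  have hinj : Function.Injective (gr Λ j) := MonoidAlgebra.mapDomain_injective hj.1
  have hsur : ∀ y : MonoidAlgebra Λ G, ∃ x : MonoidAlgebra Λ T, gr Λ j x = y := by
    intro y
    induction y using MonoidAlgebra.induction_linear with
    | zero => exact ⟨0, map_zero _⟩
    | add x y h1 h2 =>
      obtain ⟨a, rfl⟩ := h1
      obtain ⟨b, rfl⟩ := h2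
      exact ⟨a + b, map_add _ _ _⟩
    | single g z =>
      obtain ⟨t, rfl⟩ := hj.2 g
      exact ⟨MonoidAlgebra.single t z, MonoidAlgebra.mapDomain_single⟩
  choose B hB using fun p q => hsur (A p q)
  have hBA : (Matrix.of B).map (gr Λ j) = A := by
    ext1 p q
    exact hB p q
  refine ⟨Fin n, inferInstance, Matrix.of B, ?_, ?_⟩
  · have h1 : ∀ X Y : Matrix (Fin n) (Fin n) (MonoidAlgebra Λ T),
        X.map (gr Λ j) = Y.map (gr Λ j) → X = Y := by
      intro X Y h
      ext1 p q
      exact hinj (congrFun (congrFun h p) q)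
    apply h1
    rw [Matrix.map_mul, hBA, hA]
  · rw [hBA]
    exact ⟨e⟩

end maschke

/-- towers of extensions by the integers of a finite group of invertible order -/
theorem RegT_tower (Λ : Type) [DivisionRing Λ] {T : Type} [Group T] [Finite T]
    (hT : (Nat.card T : Λ) ≠ 0) : ∀ (n : ℕ) (Q : Type) [Group Q], PZ n Q →
    ∀ (G : Type) [Group G] (π : G →* Q) (j : T →* G), Function.Surjective π →
      Function.Injective j → (∀ g, π g = 1 ↔ ∃ t, j t = g) → RegT Λ j := by
  intro n
  induction n with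
  | zero =>
    intro Q _ hQ G _ π j hπ hj hker
    have hQ' : Subsingleton Q := hQ
    have hjs : Function.Surjective j := fun g => (hker g).1 (Subsingleton.elim _ _)
    have hG : Finite G := Finite.of_surjective j hjs
    refine RegT_finite j ⟨hj, hjs⟩ ?_
    rwa [← Nat.card_congr (Equiv.ofBijective j ⟨hj, hjs⟩)]
  | succ n ih =>
    intro Q _ hQ G _ π j hπ hj hker
    obtain ⟨d, hd, hQ'⟩ := hQ
    have hmem : ∀ g : (d.comp π).ker, π g.1 ∈ d.ker := fun g => g.2
    let π' : (d.comp π).ker →* d.ker :=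
      (π.comp (d.comp π).ker.subtype).codRestrict d.ker hmem
    have hjm : ∀ t, j t ∈ (d.comp π).ker := by
      intro t
      change d (π (j t)) = 1
      rw [(hker (j t)).2 ⟨t, rfl⟩, map_one]
    let j' : T →* (d.comp π).ker := j.codRestrict (d.comp π).ker hjm
    have h1 : RegT Λ j' := by
      refine ih d.ker hQ' (d.comp π).ker π' j' ?_ ?_ ?_
      · rintro ⟨q, hq⟩
        obtain ⟨g, rfl⟩ := hπ q
        exact ⟨⟨g, hq⟩, rfl⟩
      · intro a b hab
        exact hj (congrArg Subtype.val hab)
      · intro g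
        constructor
        · intro h
          have h2 : π g.1 = 1 := congrArg Subtype.val h
          obtain ⟨t, ht⟩ := (hker g.1).1 h2
          exact ⟨t, Subtype.ext ht⟩
        · rintro ⟨t, rfl⟩
          apply Subtype.ext
          exact (hker (j t)).2 ⟨t, rfl⟩
    obtain ⟨q, hq⟩ := hd (ofAdd 1)
    obtain ⟨t, rfl⟩ := hπ q
    have ht : dg (d.comp π) t = 1 := by
      rw [dg, MonoidHom.comp_apply, hq]
      rfl
    exact RegT_step j' ht h1

end Pool.Agent.K6.H28.GR
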