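import Mathlib

set_option autoImplicit false

/-! # Modules over group rings of division rings which are stably induced from finite subgroups -/

namespace Pool.Agent.K6.H28.GR

open Matrix

/-- the size of the support of a matrix over a group ring: the number of pairs
(entry, group element in the support of this entry) -/
def msupp {D G ι κ : Type} [DivisionRing D] [Fintype ι] [Fintype κ]
    (A : Matrix ι κ (MonoidAlgebra D G)) : ℕ :=
  ∑ i, ∑ j, (A i j).coeff.support.card

/-- `A` is idempotent and, up to a permutation of the indices, block-diagonal with each block a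
matrix over the group ring of a finite subgroup of order at most `N` -/
def FiniteBlocks {D G : Type} [DivisionRing D] [Group G] (N : ℕ) {a : ℕ}
    (A : Matrix (Fin a) (Fin a) (MonoidAlgebra D G)) : Prop :=
  A * A = A ∧ ∃ H : Fin a → Subgroup G, (∀ i, Finite (H i) ∧ Nat.card (H i) ≤ N) ∧
    ∀ i j, A i j ≠ 0 → H i = H j ∧ ∀ g ∈ (A i j).coeff.support, g ∈ H i

/-- `E` is stably induced from finite subgroups, within `N`: all sizes, all supports and the orders
of the finite subgroups are at most `N` -/
def InducedWithin {D G : Type} [DivisionRing D] [Group G] (N : ℕ) {n : ℕ}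
    (E : Matrix (Fin n) (Fin n) (MonoidAlgebra D G)) : Prop :=
  ∃ a ≤ N, ∃ b ≤ N, ∃ (A : Matrix (Fin a) (Fin a) (MonoidAlgebra D G))
    (B : Matrix (Fin b) (Fin b) (MonoidAlgebra D G))
    (U : Matrix (Fin n ⊕ Fin a) (Fin b) (MonoidAlgebra D G))
    (V : Matrix (Fin b) (Fin n ⊕ Fin a) (MonoidAlgebra D G)),
    FiniteBlocks N A ∧ FiniteBlocks N B ∧ msupp U ≤ N ∧ msupp V ≤ N ∧
    U * V = fromBlocks E 0 0 A ∧ V * U = B

/-- `P ⊕ Q ≅ Q'` for two finite direct sums `Q`, `Q'` of modules induced from finitely generated
projective modules over the group rings of finite subgroups (the row modules of `FiniteBlocks`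
matrices) -/
def StablyInduced (D G : Type) [DivisionRing D] [Group G] (P : Type) [AddCommGroup P]
    [Module (MonoidAlgebra D G) P] : Prop :=
  ∃ (N a b : ℕ) (A : Matrix (Fin a) (Fin a) (MonoidAlgebra D G))
    (B : Matrix (Fin b) (Fin b) (MonoidAlgebra D G)), FiniteBlocks N A ∧ FiniteBlocks N B ∧
    Nonempty ((P × LinearMap.range A.vecMulLinear) ≃ₗ[MonoidAlgebra D G]
      LinearMap.range B.vecMulLinear)

/-- if a prime `p ≤ N` vanishes in `D` then `G` has no elements of order `p` -/
def GoodUpTo (N : ℕ) (D G : Type) [DivisionRing D] [Group G] : Prop :=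
  ∀ p : ℕ, p ≤ N → p.Prime → (p : D) = 0 → ∀ g : G, g ^ p = 1 → g = 1

/-- if a prime `p` vanishes in `D` then `G` has no elements of order `p` -/
def GoodPair (D G : Type) [DivisionRing D] [Group G] : Prop :=
  ∀ p : ℕ, p.Prime → (p : D) = 0 → ∀ g : G, g ^ p = 1 → g = 1

end Pool.Agent.K6.H28.GR
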