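import Mathlib

set_option autoImplicit false

/-! # Finite resolutions by modules of a class of projective modules, over arbitrary rings -/

namespace Pool.Agent.K6.H28.GR

section FRp

variable {L : Type} [Ring L]

/-- a class of finitely generated projective modules -/
structure Good (Cl : ∀ (M : Type) [AddCommGroup M] [Module L M], Prop) : Prop where
  equiv : ∀ (M N : Type) [AddCommGroup M] [Module L M] [AddCommGroup N] [Module L N],
    (M ≃ₗ[L] N) → Cl M → Cl N
  prod : ∀ (M N : Type) [AddCommGroup M] [Module L M] [AddCommGroup N] [Module L N],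
    Cl M → Cl N → Cl (M × N)
  free : ∀ (ι : Type) [Fintype ι], Cl (ι → L)
  compl : ∀ (M : Type) [AddCommGroup M] [Module L M], Cl M →
    ∃ (ι : Type) (_ : Fintype ι) (Q : Type) (_ : AddCommGroup Q) (_ : Module L Q),
      Cl Q ∧ Nonempty ((M × Q) ≃ₗ[L] (ι → L))

variable (Cl : ∀ (M : Type) [AddCommGroup M] [Module L M], Prop)

/-- `M` has a resolution of length at most `n` by finitely generated free modules, except for the
last module, which is in the class `Cl` -/
def FRp : ℕ → ∀ (M : Type) [AddCommGroup M] [Module L M], Prop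
  | 0, M, _, _ => Cl M
  | n + 1, M, _, _ => ∃ (ι : Type) (_ : Fintype ι) (f : (ι → L) →ₗ[L] M),
      Function.Surjective f ∧ FRp n (LinearMap.ker f)

variable {Cl}

theorem Good.subs (hC : Good Cl) (M : Type) [AddCommGroup M] [Module L M] [Subsingleton M] :
    Cl M := by
  refine hC.equiv (Empty → L) M ?_ (hC.free Empty)
  exact
    { toFun := fun _ => 0
      map_add' := fun _ _ => Subsingleton.elim _ _
      map_smul' := fun _ _ => Subsingleton.elim _ _
      invFun := fun _ => 0
      left_inv := fun _ => Subsingleton.elim _ _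
      right_inv := fun _ => Subsingleton.elim _ _ }

theorem Good.projective (hC : Good Cl) (M : Type) [AddCommGroup M] [Module L M] (h : Cl M) :
    Module.Projective L M := by
  obtain ⟨ι, i1, Q, i2, i3, _, ⟨e⟩⟩ := hC.compl M h
  refine Module.Projective.of_split (e.toLinearMap ∘ₗ LinearMap.inl L M Q)
    (LinearMap.fst L M Q ∘ₗ e.symm.toLinearMap) ?_
  ext1 x
  change (e.symm (e (x, 0))).1 = x
  rw [e.symm_apply_apply]

/-- a free cover with kernel in the class -/
theorem Good.cover (hC : Good Cl) (M : Type) [AddCommGroup M] [Module L M] (h : Cl M) :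
    ∃ (ι : Type) (_ : Fintype ι) (f : (ι → L) →ₗ[L] M), Function.Surjective f ∧
      Cl (LinearMap.ker f) := by
  obtain ⟨ι, i1, Q, i2, i3, hQ, ⟨e⟩⟩ := hC.compl M h
  refine ⟨ι, i1, LinearMap.fst L M Q ∘ₗ e.symm.toLinearMap, ?_, ?_⟩
  · intro m
    refine ⟨e (m, 0), ?_⟩
    change (e.symm (e (m, 0))).1 = m
    rw [e.symm_apply_apply]
  · refine hC.equiv Q _ ?_ hQ
    exact
      { toFun := fun q => ⟨e (0, q), by
          rw [LinearMap.mem_ker]
          change (e.symm (e (0, q))).1 = 0
          rw [e.symm_apply_apply]⟩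
        map_add' := fun x y => by
          apply Subtype.ext
          change e (0, x + y) = e (0, x) + e (0, y)
          rw [← map_add]
          congr 1
          exact Prod.ext (add_zero _).symm rfl
        map_smul' := fun c x => by
          apply Subtype.ext
          change e (0, c • x) = c • e (0, x)
          rw [← map_smul]
          congr 1
          exact Prod.ext (smul_zero _).symm rfl
        invFun := fun y => (e.symm y.1).2
        left_inv := fun q => by
          change (e.symm (e (0, q))).2 = q
          rw [e.symm_apply_apply]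
        right_inv := fun y => by
          apply Subtype.ext
          have h1 : (e.symm y.1).1 = 0 := LinearMap.mem_ker.1 y.2
          change e (0, (e.symm y.1).2) = y.1
          rw [← h1]
          change e (e.symm y.1) = y.1
          rw [e.apply_symm_apply] }

theorem FRp_equiv (hC : Good Cl) {n : ℕ} {M N : Type} [AddCommGroup M] [Module L M]
    [AddCommGroup N] [Module L N] (e : M ≃ₗ[L] N) (h : FRp Cl n M) : FRp Cl n N := by
  cases n with
  | zero => exact hC.equiv M N e h
  | succ n =>
    obtain ⟨ι, i1, f, hf, hk⟩ := h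
    refine ⟨ι, i1, e.toLinearMap ∘ₗ f, e.surjective.comp hf, ?_⟩
    have : LinearMap.ker (e.toLinearMap ∘ₗ f) = LinearMap.ker f := LinearEquiv.ker_comp e f
    rw [this]
    exact hk

theorem FRp_succ (hC : Good Cl) : ∀ {n : ℕ} {M : Type} [AddCommGroup M] [Module L M],
    FRp Cl n M → FRp Cl (n + 1) M := by
  intro n
  induction n with
  | zero =>
    intro M _ _ h
    exact hC.cover M h
  | succ n ih =>
    intro M _ _ h
    obtain ⟨ι, i1, f, hf, hk⟩ := h
    exact ⟨ι, i1, f, hf, ih hk⟩

theorem FRp_prod (hC : Good Cl) : ∀ {n : ℕ} {M Z : Type} [AddCommGroup M] [Module L M]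
    [AddCommGroup Z] [Module L Z], FRp Cl n M → Cl Z → FRp Cl n (M × Z) := by
  intro n
  induction n with
  | zero =>
    intro M Z _ _ _ _ h hZ
    exact hC.prod M Z h hZ
  | succ n ih =>
    intro M Z _ _ _ _ h hZ
    obtain ⟨ι, i1, f, hf, hk⟩ := h
    obtain ⟨κ, i2, h, hh, hQ⟩ := hC.cover Z hZ
    let g : (ι ⊕ κ → L) →ₗ[L] M × Z := (f.prodMap h) ∘ₗ
      (LinearEquiv.sumArrowLequivProdArrow ι κ L L).toLinearMap
    have hg : ∀ w, g w = (f (w ∘ Sum.inl), h (w ∘ Sum.inr)) := fun w => rfl
    refine ⟨ι ⊕ κ, inferInstance, g, ?_, ?_⟩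
    · rintro ⟨m, z⟩
      obtain ⟨w, hw⟩ := hf m
      obtain ⟨w', hw'⟩ := hh z
      refine ⟨Sum.elim w w', ?_⟩
      rw [hg, Sum.elim_comp_inl, Sum.elim_comp_inr, hw, hw']
    · refine FRp_equiv hC (M := LinearMap.ker f × LinearMap.ker h) ?_ (ih hk hQ)
      exact
        { toFun := fun x => ⟨Sum.elim x.1.1 x.2.1, by
            rw [LinearMap.mem_ker, hg, Sum.elim_comp_inl, Sum.elim_comp_inr,
              LinearMap.mem_ker.1 x.1.2, LinearMap.mem_ker.1 x.2.2]
            rfl⟩
          map_add' := fun x y => by
            apply Subtype.ext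
            funext i
            rcases i with i | i <;> simp
          map_smul' := fun c x => by
            apply Subtype.ext
            funext i
            rcases i with i | i <;> simp
          invFun := fun y => (⟨y.1 ∘ Sum.inl, by
            have := LinearMap.mem_ker.1 y.2
            rw [hg] at this
            exact congrArg Prod.fst this⟩, ⟨y.1 ∘ Sum.inr, by
            have := LinearMap.mem_ker.1 y.2
            rw [hg] at this
            exact congrArg Prod.snd this⟩)
          left_inv := fun x => rfl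
          right_inv := fun y => by
            apply Subtype.ext
            funext i
            rcases i with i | i <;> rfl }

/-- extensions -/
theorem FRp_ext (hC : Good Cl) : ∀ (b : ℕ) {a : ℕ} {X Y Z : Type} [AddCommGroup X] [Module L X]
    [AddCommGroup Y] [Module L Y] [AddCommGroup Z] [Module L Z] (f : X →ₗ[L] Y) (g : Y →ₗ[L] Z),
    Function.Injective f → Function.Surjective g → (∀ y, g y = 0 ↔ ∃ x, f x = y) →
    FRp Cl a X → FRp Cl b Z → ∃ c, FRp Cl c Y := by
  intro b
  induction b with
  | zero =>
    intro a X Y Z _ _ _ _ _ _ f g hf hg hfg hX hZ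
    have hZp : Module.Projective L Z := hC.projective Z hZ
    obtain ⟨s, hs⟩ := Module.projective_lifting_property g LinearMap.id hg
    have hs' : ∀ z, g (s z) = z := fun z => LinearMap.congr_fun hs z
    let F : X × Z →ₗ[L] Y := LinearMap.coprod f s
    have hF : Function.Bijective F := by
      constructor
      · rw [injective_iff_map_eq_zero]
        rintro ⟨x, z⟩ h
        have h1 : f x + s z = 0 := h
        have h2 : g (f x + s z) = 0 := by rw [h1, map_zero]
        rw [map_add, (hfg (f x)).2 ⟨x, rfl⟩, zero_add, hs'] at h2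
        rw [h2, map_zero, add_zero] at h1
        have h4 : x = 0 := hf (by rw [h1, map_zero])
        rw [h2, h4]
        rfl
      · intro y
        have h1 : g (y - s (g y)) = 0 := by
          rw [map_sub, hs', sub_self]
        obtain ⟨x, hx⟩ := (hfg _).1 h1
        refine ⟨(x, g y), ?_⟩
        change f x + s (g y) = y
        rw [hx, sub_add_cancel]
    exact ⟨a, FRp_equiv hC (LinearEquiv.ofBijective F hF) (FRp_prod hC hX hZ)⟩
  | succ b ih =>
    intro a X Y Z _ _ _ _ _ _ f g hf hg hfg hX hZ
    obtain ⟨ι, i1, p, hp, hKX⟩ := FRp_succ hC hX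
    obtain ⟨κ, i2, q, hq, hKZ⟩ := hZ
    classical
    obtain ⟨s, hs⟩ := Module.projective_lifting_property g q hg
    have hs' : ∀ z, g (s z) = q z := fun z => LinearMap.congr_fun hs z
    let F : (ι ⊕ κ → L) →ₗ[L] Y := (LinearMap.coprod (f ∘ₗ p) s) ∘ₗ
      (LinearEquiv.sumArrowLequivProdArrow ι κ L L).toLinearMap
    have hF : ∀ w, F w = f (p (w ∘ Sum.inl)) + s (w ∘ Sum.inr) := fun w => rfl
    have hFs : Function.Surjective F := by
      intro y
      obtain ⟨z, hz⟩ := hq (g y)
      have h1 : g (y - s z) = 0 := by rw [map_sub, hs', hz, sub_self]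
      obtain ⟨x, hx⟩ := (hfg _).1 h1
      obtain ⟨w, hw⟩ := hp x
      refine ⟨Sum.elim w z, ?_⟩
      rw [hF, Sum.elim_comp_inl, Sum.elim_comp_inr, hw, hx, sub_add_cancel]
    let f' : LinearMap.ker p →ₗ[L] LinearMap.ker F :=
      { toFun := fun x => ⟨Sum.elim x.1 0, by
          rw [LinearMap.mem_ker, hF, Sum.elim_comp_inl, Sum.elim_comp_inr, LinearMap.mem_ker.1 x.2,
            map_zero, map_zero, add_zero]⟩
        map_add' := fun x y => by
          apply Subtype.ext
          funext i
          rcases i with i | i <;> simp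
        map_smul' := fun c x => by
          apply Subtype.ext
          funext i
          rcases i with i | i <;> simp }
    let g' : LinearMap.ker F →ₗ[L] LinearMap.ker q :=
      { toFun := fun y => ⟨y.1 ∘ Sum.inr, by
          have h1 := LinearMap.mem_ker.1 y.2
          rw [hF] at h1
          have h2 := congrArg g h1
          rwa [map_add, (hfg _).2 ⟨_, rfl⟩, zero_add, hs', map_zero] at h2⟩
        map_add' := fun x y => by
          apply Subtype.ext
          rfl
        map_smul' := fun c x => by
          apply Subtype.ext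
          rfl }
    obtain ⟨c, hc⟩ := ih f' g' (by
        intro x y hxy
        apply Subtype.ext
        have h1 := congrArg (fun v : LinearMap.ker F => v.1 ∘ Sum.inl) hxy
        exact h1) (by
        rintro ⟨z, hz⟩
        have h1 : g (s z) = 0 := by rw [hs']; exact hz
        obtain ⟨x, hx⟩ := (hfg _).1 h1
        obtain ⟨w, hw⟩ := hp x
        refine ⟨⟨Sum.elim (-w) z, ?_⟩, ?_⟩
        · rw [LinearMap.mem_ker, hF, Sum.elim_comp_inl, Sum.elim_comp_inr, map_neg, map_neg, hw, hx,
            neg_add_cancel]
        · rfl) (by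
        rintro ⟨w, hw⟩
        constructor
        · intro h
          have h1 : w ∘ Sum.inr = 0 := congrArg Subtype.val h
          have h2 := LinearMap.mem_ker.1 hw
          rw [hF, h1, map_zero, add_zero] at h2
          have h3 : p (w ∘ Sum.inl) = 0 := hf (by rw [h2, map_zero])
          refine ⟨⟨w ∘ Sum.inl, h3⟩, ?_⟩
          apply Subtype.ext
          funext i
          rcases i with i | i
          · rfl
          · exact (congrFun h1 i).symm
        · rintro ⟨x, hx⟩
          apply Subtype.ext
          have h1 := congrArg Subtype.val hx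
          have h2 : (Sum.elim x.1 0 : ι ⊕ κ → L) = w := h1
          change w ∘ Sum.inr = 0
          rw [← h2, Sum.elim_comp_inr]) hKX hKZ
    exact ⟨c + 1, ι ⊕ κ, inferInstance, F, hFs, hc⟩

/-- quotients -/
theorem FRp_quot (hC : Good Cl) {a b : ℕ} {A B C : Type} [AddCommGroup A] [Module L A]
    [AddCommGroup B] [Module L B] [AddCommGroup C] [Module L C] (f : A →ₗ[L] B) (g : B →ₗ[L] C)
    (hf : Function.Injective f) (hg : Function.Surjective g) (hfg : ∀ y, g y = 0 ↔ ∃ x, f x = y)
    (hA : FRp Cl a A) (hB : FRp Cl b B) : ∃ c, FRp Cl c C := by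
  obtain ⟨ι, i1, φ, hφ, hK⟩ := FRp_succ hC hB
  have hker : ∀ w : LinearMap.ker (g ∘ₗ φ), ∃ x, f x = φ w.1 := fun w =>
    (hfg _).1 (LinearMap.mem_ker.1 w.2)
  choose ψ hψ using hker
  let ψ' : LinearMap.ker (g ∘ₗ φ) →ₗ[L] A :=
    { toFun := ψ
      map_add' := fun x y => hf (by rw [map_add, hψ, hψ, hψ, Submodule.coe_add, map_add])
      map_smul' := fun c x => hf (by
        rw [RingHom.id_apply, map_smul, hψ, hψ, Submodule.coe_smul, map_smul]) }
  let j : LinearMap.ker φ →ₗ[L] LinearMap.ker (g ∘ₗ φ) :=
    Submodule.inclusion (fun w hw => by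
      rw [LinearMap.mem_ker] at hw ⊢
      rw [LinearMap.comp_apply, hw, map_zero])
  obtain ⟨c, hc⟩ := FRp_ext hC a j ψ' (Submodule.inclusion_injective _) (by
      intro x
      obtain ⟨w, hw⟩ := hφ (f x)
      refine ⟨⟨w, ?_⟩, ?_⟩
      · rw [LinearMap.mem_ker, LinearMap.comp_apply, hw]
        exact (hfg _).2 ⟨x, rfl⟩
      · apply hf
        change f (ψ _) = f x
        rw [hψ, hw]) (by
      rintro ⟨w, hw⟩
      constructor
      · intro h
        have h1 : φ w = 0 := by
          have := hψ ⟨w, hw⟩
          rw [← this]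
          change f (ψ' ⟨w, hw⟩) = 0
          rw [h, map_zero]
        exact ⟨⟨w, h1⟩, rfl⟩
      · rintro ⟨x, hx⟩
        have h1 : x.1 = w := congrArg Subtype.val hx
        apply hf
        change f (ψ ⟨w, hw⟩) = f 0
        rw [hψ, map_zero]
        change φ w = 0
        rw [← h1]
        exact LinearMap.mem_ker.1 x.2) hK hA
  exact ⟨c + 1, ι, i1, g ∘ₗ φ, hg.comp hφ, hc⟩

/-- projective modules with such finite resolutions are stably in the class -/
theorem stably_of_FRp (hC : Good Cl) : ∀ (n : ℕ) (P : Type) [AddCommGroup P] [Module L P],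
    Module.Projective L P → FRp Cl n P →
    ∃ (Q : Type) (_ : AddCommGroup Q) (_ : Module L Q) (Q' : Type) (_ : AddCommGroup Q')
      (_ : Module L Q'), Cl Q ∧ Cl Q' ∧ Nonempty ((P × Q) ≃ₗ[L] Q') := by
  intro n
  induction n with
  | zero =>
    intro P _ _ _ h
    exact ⟨Empty → L, inferInstance, inferInstance, P, inferInstance, inferInstance,
      hC.free Empty, h, ⟨LinearEquiv.prodUnique (R := L) (M := P) (M₂ := Empty → L)⟩⟩
  | succ n ih =>
    intro P _ _ hP h
    obtain ⟨ι, i1, f, hf, hK⟩ := h
    obtain ⟨s, hs⟩ := Module.projective_lifting_property f LinearMap.id hf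
    have hs' : ∀ p, f (s p) = p := fun p => LinearMap.congr_fun hs p
    let F : (LinearMap.ker f × P) →ₗ[L] (ι → L) :=
      LinearMap.coprod (LinearMap.ker f).subtype s
    have hF : Function.Bijective F := by
      constructor
      · rw [injective_iff_map_eq_zero]
        rintro ⟨x, p⟩ h
        have h1 : x.1 + s p = 0 := h
        have h2 : f (x.1 + s p) = 0 := by rw [h1, map_zero]
        rw [map_add, LinearMap.mem_ker.1 x.2, zero_add, hs'] at h2
        rw [h2, map_zero, add_zero] at h1
        rw [h2]
        exact Prod.ext (Subtype.ext h1) rfl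
      · intro y
        refine ⟨(⟨y - s (f y), ?_⟩, f y), ?_⟩
        · rw [LinearMap.mem_ker, map_sub, hs', sub_self]
        · change y - s (f y) + s (f y) = y
          rw [sub_add_cancel]
    let e1 := LinearEquiv.ofBijective F hF
    have hKP : Module.Projective L (LinearMap.ker f) := by
      refine Module.Projective.of_split (LinearMap.ker f).subtype
        (LinearMap.fst L _ _ ∘ₗ e1.symm.toLinearMap) ?_
      ext1 x
      have h1 : e1 (x, 0) = x.1 := by
        change x.1 + s 0 = x.1
        rw [map_zero, add_zero]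
      have h2 : e1.symm x.1 = (x, 0) := by rw [← h1, e1.symm_apply_apply]
      change (e1.symm x.1).1 = x
      rw [h2]
    obtain ⟨Q, i2, i3, Q', i4, i5, hQ, hQ', ⟨e2⟩⟩ := ih (LinearMap.ker f) hKP hK
    refine ⟨Q', i4, i5, (ι → L) × Q, inferInstance, inferInstance, hQ',
      hC.prod _ _ (hC.free ι) hQ, ⟨?_⟩⟩
    -- `P × Q' ≃ P × (K × Q) ≃ (K × P) × Q ≃ L^ι × Q`
    exact ((LinearEquiv.refl L P).prodCongr e2.symm).trans
      ((LinearEquiv.prodAssoc L P (LinearMap.ker f) Q).symm.trans
      (((LinearEquiv.prodComm L P (LinearMap.ker f)).prodCongr (LinearEquiv.refl L _)).trans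
      (e1.prodCongr (LinearEquiv.refl L _))))

end FRp

end Pool.Agent.K6.H28.GR
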