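import Pool.Agent.K6.H28.GR.NilInd

set_option autoImplicit false

/-! # Modules and matrices: the equivalence -/

namespace Pool.Agent.K6.H28.GR

open Matrix

theorem equivalence (C : ℕ → ∀ (D G : Type) [DivisionRing D] [Group G], Prop)
    (hC : ∀ (D G : ℕ → Type) [∀ i, DivisionRing (D i)] [∀ i, Group (G i)],
      (∀ i, C i (D i) (G i)) → ∀ N, C N (UD (Filter.hyperfilter ℕ) D) (UG (Filter.hyperfilter ℕ) G)) :
    (∀ (D G : Type) [DivisionRing D] [Group G], (∀ N, C N D G) →
      ∀ (P : Type) [AddCommGroup P] [Module (MonoidAlgebra D G) P],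
        Module.Finite (MonoidAlgebra D G) P → Module.Projective (MonoidAlgebra D G) P →
        StablyInduced D G P) ↔
    ∀ n s : ℕ, ∃ N : ℕ, ∀ (D G : Type) [DivisionRing D] [Group G], C N D G →
      ∀ E : Matrix (Fin n) (Fin n) (MonoidAlgebra D G), E * E = E → msupp E ≤ s →
      InducedWithin N E := by
  constructor
  · intro h n s
    refine uniform (Filter.hyperfilter ℕ) C (fun D G _ _ => ∀ N, C N D G)
      Filter.hyperfilter_le_cofinite hC n s ?_
    intro D G _ _ hDG E hE
    rw [stInd_iff hE]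
    exact h D G hDG _ (rowM_module E hE).1 (rowM_module E hE).2
  · intro h D G _ _ hDG P _ _ hf hP
    obtain ⟨n, f, hfs⟩ := Module.Finite.exists_fin' (MonoidAlgebra D G) P
    obtain ⟨s, hs⟩ := Module.projective_lifting_property f LinearMap.id hfs
    obtain ⟨A, hA, ⟨e⟩⟩ := rowM_of_retract f s fun p => LinearMap.congr_fun hs p
    obtain ⟨N, hN⟩ := h n (msupp A)
    have h1 : StInd A := ⟨N, hN D G (hDG N) A hA le_rfl⟩
    exact StablyInduced.equiv e.symm ((stInd_iff hA).1 h1)

/-- the class of nilpotent groups of class at most `c` is closed under ultraproducts -/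
theorem nilpotent_closed (c : ℕ) (𝒰 : Ultrafilter ℕ) (G : ℕ → Type) [∀ i, Group (G i)]
    (hG : ∀ i, (⊤ : Subgroup (G i)).lowerCentralSeries c = ⊥) :
    (⊤ : Subgroup (UG 𝒰 G)).lowerCentralSeries c = ⊥ := by
  classical
  have h2 : (⊤ : Subgroup (∀ i, G i)).lowerCentralSeries c = ⊥ := by
    rw [eq_bot_iff]
    refine (Subgroup.top_lowerCentralSeries_pi_le c).trans ?_
    simp only [hG]
    rw [Subgroup.pi_bot]
  have h3 := Subgroup.map_lowerCentralSeries (⊤ : Subgroup (∀ i, G i))
    (QuotientGroup.mk' (Pool.Agent.K6.H28.SF.aeOne 𝒰 G)) c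
  rw [Subgroup.map_top_of_surjective _ (QuotientGroup.mk'_surjective _), h2,
    Subgroup.map_bot] at h3
  exact h3.symm

theorem nilpotent_uniform (c n s : ℕ) : ∃ N : ℕ, ∀ (D G : Type) [DivisionRing D] [Group G],
    (⊤ : Subgroup G).lowerCentralSeries c = ⊥ →
    ∀ E : Matrix (Fin n) (Fin n) (MonoidAlgebra D G), E * E = E → msupp E ≤ s →
    InducedWithin N E := by
  refine uniform (Filter.hyperfilter ℕ)
    (fun _ _ G _ _ => (⊤ : Subgroup G).lowerCentralSeries c = ⊥)
    (fun _ G _ _ => (⊤ : Subgroup G).lowerCentralSeries c = ⊥)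
    Filter.hyperfilter_le_cofinite ?_ n s ?_
  · intro D G _ _ hG
    exact nilpotent_closed c _ G hG
  · intro D G _ _ hG E hE
    have : Group.IsNilpotent G := Subgroup.nilpotent_iff_lowerCentralSeries.2 ⟨c, hG⟩
    exact stInd_nilpotent G E hE

end Pool.Agent.K6.H28.GR
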