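import Mathlib

set_option autoImplicit false

/-! # Group rings of groups with a homomorphism onto the integers; the theorem of P. Hall -/

namespace Pool.Agent.K6.H28.GR

open Multiplicative

/-- the map of group rings induced by a homomorphism of groups -/
noncomputable abbrev gr (Λ : Type) [Ring Λ] {G H : Type} [Group G] [Group H] (f : G →* H) :
    MonoidAlgebra Λ G →+* MonoidAlgebra Λ H := MonoidAlgebra.mapDomainRingHom Λ f

section grad

variable {Λ : Type} [Ring Λ] {G : Type} [Group G] (d : G →* Multiplicative ℤ) (t : G)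

/-- the degree -/
def dg (g : G) : ℤ := toAdd (d g)

theorem dg_mul (g h : G) : dg d (g * h) = dg d g + dg d h := by
  rw [dg, map_mul, toAdd_mul]; rfl

theorem dg_one : dg d 1 = 0 := by rw [dg, map_one]; rfl

theorem dg_inv (g : G) : dg d g⁻¹ = - dg d g := by rw [dg, map_inv, toAdd_inv]; rfl

theorem dg_zpow (g : G) (n : ℤ) : dg d (g ^ n) = n * dg d g := by
  rw [dg, map_zpow, toAdd_zpow]
  rfl

theorem mem_ker_iff (g : G) : g ∈ d.ker ↔ dg d g = 0 := by
  rw [MonoidHom.mem_ker, dg]
  constructor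
  · intro h; rw [h]; rfl
  · intro h
    exact toAdd.injective h

/-- inclusion of the group ring of the kernel -/
noncomputable abbrev incl : MonoidAlgebra Λ d.ker →+* MonoidAlgebra Λ G := gr Λ d.ker.subtype

theorem incl_single (k : d.ker) (z : Λ) :
    incl d (MonoidAlgebra.single k z) = MonoidAlgebra.single (k : G) z :=
  MonoidAlgebra.mapDomain_single

theorem incl_coeff (y : MonoidAlgebra Λ d.ker) (h : d.ker) : (incl d y).coeff (h : G) = y.coeff h :=
  Finsupp.mapDomain_apply (Subtype.val_injective : Function.Injective d.ker.subtype) _ _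

theorem incl_coeff_not (y : MonoidAlgebra Λ d.ker) (g : G) (hg : g ∉ d.ker) :
    (incl d y).coeff g = 0 := by
  apply Finsupp.mapDomain_of_notMem_range
  rintro ⟨h, rfl⟩
  exact hg h.2

/-- the components -/
noncomputable def cmp (i : ℤ) : MonoidAlgebra Λ G →+ MonoidAlgebra Λ d.ker :=
  (MonoidAlgebra.comapDomainAddMonoidHom (R := Λ) (fun h : d.ker => (h : G))
    Subtype.val_injective).comp (AddMonoidHom.mulLeft (MonoidAlgebra.single (t ^ (-i)) 1))

theorem cmp_coeff (i : ℤ) (x : MonoidAlgebra Λ G) (h : d.ker) :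
    (cmp d t i x).coeff h = x.coeff (t ^ i * h) := by
  change (MonoidAlgebra.single (t ^ (-i)) (1 : Λ) * x).coeff (h : G) = _
  rw [MonoidAlgebra.coeff_single_mul_apply, one_mul]
  congr 1
  rw [zpow_neg, inv_inv]

variable {d t}

theorem cmp_mul_incl (i : ℤ) (x : MonoidAlgebra Λ G) (r : MonoidAlgebra Λ d.ker) :
    cmp d t i (x * incl d r) = cmp d t i x * r := by
  induction r using MonoidAlgebra.induction_linear with
  | zero => simp
  | add x1 x2 h1 h2 => rw [map_add, mul_add, map_add, h1, h2, mul_add]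
  | single k z =>
    ext h
    rw [cmp_coeff, incl_single,
      MonoidAlgebra.coeff_mul_single_apply, MonoidAlgebra.coeff_mul_single_apply, cmp_coeff]
    simp [mul_assoc]

theorem ext_cmp (ht : dg d t = 1) {x y : MonoidAlgebra Λ G}
    (h : ∀ i, cmp d t i x = cmp d t i y) : x = y := by
  ext g
  have hg : t ^ (- dg d g) * g ∈ d.ker := by
    rw [mem_ker_iff, dg_mul, dg_zpow, ht]; ring
  have h1 : (cmp d t (dg d g) x).coeff ⟨_, hg⟩ = (cmp d t (dg d g) y).coeff ⟨_, hg⟩ := by
    rw [h]
  rw [cmp_coeff, cmp_coeff] at h1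
  simpa using h1

theorem cmp_single_mul (ht : dg d t = 1) (i : ℤ) (g : G) (z : Λ) :
    ∃ k : d.ker, ∀ x : MonoidAlgebra Λ G, cmp d t i (MonoidAlgebra.single g z * x)
      = MonoidAlgebra.single k z * cmp d t (i - dg d g) x := by
  have hk : t ^ (-i) * g * t ^ (i - dg d g) ∈ d.ker := by
    rw [mem_ker_iff, dg_mul, dg_mul, dg_zpow, dg_zpow, ht]; ring
  refine ⟨⟨_, hk⟩, fun x => ?_⟩
  ext h
  rw [cmp_coeff, MonoidAlgebra.coeff_single_mul_apply, MonoidAlgebra.coeff_single_mul_apply,
    cmp_coeff]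
  congr 2
  rw [Subgroup.coe_mul, Subgroup.coe_inv]
  group

theorem cmp_tpow_mul (i j : ℤ) (x : MonoidAlgebra Λ G) :
    cmp d t i (MonoidAlgebra.single (t ^ j) 1 * x) = cmp d t (i - j) x := by
  ext h
  rw [cmp_coeff, MonoidAlgebra.coeff_single_mul_apply, cmp_coeff, one_mul]
  congr 1
  group

theorem cmp_incl (ht : dg d t = 1) (i : ℤ) (r : MonoidAlgebra Λ d.ker) :
    cmp d t i (incl d r) = if i = 0 then r else 0 := by
  ext h
  rw [cmp_coeff]
  split_ifs with hi
  · subst hi
    rw [zpow_zero, one_mul, incl_coeff]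
  · rw [incl_coeff_not]
    · rfl
    · rw [mem_ker_iff, dg_mul, dg_zpow, ht, (mem_ker_iff d _).1 h.2]
      omega

theorem cmp_tpow_incl (ht : dg d t = 1) (i j : ℤ) (r : MonoidAlgebra Λ d.ker) :
    cmp d t i (MonoidAlgebra.single (t ^ j) 1 * incl d r) = if i = j then r else 0 := by
  rw [cmp_tpow_mul, cmp_incl ht]
  simp only [sub_eq_zero]

/-- only finitely many components are different from zero -/
theorem cmp_finite (ht : dg d t = 1) (x : MonoidAlgebra Λ G) :
    ∃ I : Finset ℤ, ∀ i ∉ I, cmp d t i x = 0 := by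
  classical
  refine ⟨x.coeff.support.image (dg d), fun i hi => ?_⟩
  ext h
  rw [cmp_coeff]
  by_contra hne
  apply hi
  rw [Finset.mem_image]
  refine ⟨t ^ i * h, Finsupp.mem_support_iff.2 hne, ?_⟩
  rw [dg_mul, dg_zpow, ht, (mem_ker_iff d _).1 h.2]
  ring

theorem sum_cmp (ht : dg d t = 1) (x : MonoidAlgebra Λ G) (I : Finset ℤ)
    (hI : ∀ i ∉ I, cmp d t i x = 0) :
    x = ∑ i ∈ I, MonoidAlgebra.single (t ^ i) 1 * incl d (cmp d t i x) := by
  classical
  apply ext_cmp ht
  intro j
  rw [map_sum]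
  simp only [cmp_tpow_incl ht]
  rw [Finset.sum_ite_eq]
  split_ifs with h
  · rfl
  · exact hI j h

variable (d t) in
/-- the elements whose degrees lie in `J` -/
def InD (J : Set ℤ) : AddSubgroup (MonoidAlgebra Λ G) where
  carrier := {x | ∀ i ∉ J, cmp d t i x = 0}
  add_mem' := by
    intro x y hx hy i hi
    rw [map_add, hx i hi, hy i hi, add_zero]
  zero_mem' := fun i _ => map_zero _
  neg_mem' := by
    intro x hx i hi
    rw [map_neg, hx i hi, neg_zero]

theorem mem_InD {J : Set ℤ} {x : MonoidAlgebra Λ G} :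
    x ∈ InD d t J ↔ ∀ i ∉ J, cmp d t i x = 0 := Iff.rfl

theorem InD_mono {J J' : Set ℤ} (h : J ⊆ J') {x : MonoidAlgebra Λ G} (hx : x ∈ InD d t J) :
    x ∈ InD d t J' := fun i hi => hx i fun h' => hi (h h')

theorem single_mul_InD (ht : dg d t = 1) {J J' : Set ℤ} (g : G) {z : Λ}
    (h : ∀ i ∈ J, i + dg d g ∈ J') {x : MonoidAlgebra Λ G} (hx : x ∈ InD d t J) :
    MonoidAlgebra.single g z * x ∈ InD d t J' := by
  intro i hi
  obtain ⟨k, hk⟩ := cmp_single_mul ht i g z
  rw [hk, hx, mul_zero]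
  intro h1
  apply hi
  have := h _ h1
  rwa [sub_add_cancel] at this

theorem incl_mul_InD (ht : dg d t = 1) {J : Set ℤ} (r : MonoidAlgebra Λ d.ker)
    {x : MonoidAlgebra Λ G} (hx : x ∈ InD d t J) : incl d r * x ∈ InD d t J := by
  induction r using MonoidAlgebra.induction_linear with
  | zero => rw [map_zero, zero_mul]; exact (InD d t J).zero_mem
  | add x1 x2 h1 h2 => rw [map_add, add_mul]; exact (InD d t J).add_mem h1 h2
  | single k z =>
    rw [incl_single]
    apply single_mul_InD ht _ _ hx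
    intro i hi
    have h2 : dg d (k : G) = 0 := (mem_ker_iff d _).1 k.2
    rwa [h2, add_zero]

theorem incl_mem_InD (ht : dg d t = 1) (r : MonoidAlgebra Λ d.ker) :
    incl d r ∈ InD d t {0} := by
  intro i hi
  rw [cmp_incl ht, if_neg (fun h => hi (by rw [h]; rfl))]

end grad

end Pool.Agent.K6.H28.GR
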