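import Pool.Agent.K6.H28.GR.Grad

set_option autoImplicit false

/-! # The theorem of P. Hall: group rings of extensions by the integers are noetherian -/

namespace Pool.Agent.K6.H28.GR

open Multiplicative

section hall

variable {Λ : Type} [Ring Λ] {G : Type} [Group G] {d : G →* Multiplicative ℤ} {t : G}

theorem tpow_mul_tpow (i j : ℤ) : (MonoidAlgebra.single (t ^ i) (1 : Λ) : MonoidAlgebra Λ G)
    * MonoidAlgebra.single (t ^ j) 1 = MonoidAlgebra.single (t ^ (i + j)) 1 := by
  rw [MonoidAlgebra.single_mul_single, mul_one, zpow_add]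

theorem tpow_zero : (MonoidAlgebra.single (t ^ (0 : ℤ)) (1 : Λ) : MonoidAlgebra Λ G) = 1 := by
  rw [zpow_zero]; rfl

/-- multiplication by `t ^ n a t ^ (-n)` -/
theorem tri_mem (ht : dg d t = 1) (n : ℤ) (a : MonoidAlgebra Λ d.ker) {J : Set ℤ}
    {y : MonoidAlgebra Λ G} (hy : y ∈ InD d t J) :
    MonoidAlgebra.single (t ^ n) 1 * incl d a * MonoidAlgebra.single (t ^ (-n)) 1 * y
      ∈ InD d t J := by
  rw [mul_assoc, mul_assoc]
  apply single_mul_InD ht (J := {i | i + n ∈ J})
  · intro i hi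
    rw [dg_zpow, ht, mul_one]
    exact hi
  apply incl_mul_InD ht
  apply single_mul_InD ht (J := J) _ _ hy
  intro i hi
  rw [dg_zpow, ht, mul_one]
  change i + -n + n ∈ J
  rwa [neg_add_cancel_right]

theorem tri_mul (n : ℤ) (a r : MonoidAlgebra Λ d.ker) :
    MonoidAlgebra.single (t ^ n) 1 * incl d a * MonoidAlgebra.single (t ^ (-n)) 1
      * (MonoidAlgebra.single (t ^ n) 1 * incl d r)
      = MonoidAlgebra.single (t ^ n) 1 * incl d (a * r) := by
  rw [← mul_assoc, mul_assoc _ (MonoidAlgebra.single (t ^ (-n)) (1 : Λ)), tpow_mul_tpow,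
    neg_add_cancel, tpow_zero, mul_one, map_mul, mul_assoc]

/-- leading coefficients -/
def lead (ht : dg d t = 1) (N : Submodule (MonoidAlgebra Λ G) (MonoidAlgebra Λ G)) (n : ℕ) :
    Submodule (MonoidAlgebra Λ d.ker) (MonoidAlgebra Λ d.ker) where
  carrier := {r | ∃ x ∈ N, x - MonoidAlgebra.single (t ^ (n : ℤ)) 1 * incl d r
    ∈ InD d t (Set.Ico 0 (n : ℤ))}
  add_mem' := by
    rintro r r' ⟨x, hx, h⟩ ⟨x', hx', h'⟩
    refine ⟨x + x', N.add_mem hx hx', ?_⟩
    rw [map_add, mul_add, add_sub_add_comm]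
    exact (InD d t _).add_mem h h'
  zero_mem' := ⟨0, N.zero_mem, by rw [map_zero, mul_zero, sub_zero]; exact (InD d t _).zero_mem⟩
  smul_mem' := by
    rintro a r ⟨x, hx, h⟩
    refine ⟨MonoidAlgebra.single (t ^ (n : ℤ)) 1 * incl d a *
      MonoidAlgebra.single (t ^ (-(n : ℤ))) 1 * x, N.smul_mem _ hx, ?_⟩
    rw [smul_eq_mul, ← tri_mul, ← mul_sub]
    exact tri_mem ht _ _ h

theorem lead_mono (ht : dg d t = 1) (N : Submodule (MonoidAlgebra Λ G) (MonoidAlgebra Λ G)) :
    Monotone (lead ht N) := by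
  apply monotone_nat_of_le_succ
  rintro n r ⟨x, hx, h⟩
  refine ⟨MonoidAlgebra.single (t ^ (1 : ℤ)) 1 * x, N.smul_mem _ hx, ?_⟩
  have h1 : MonoidAlgebra.single (t ^ ((n + 1 : ℕ) : ℤ)) (1 : Λ) * incl d r
      = MonoidAlgebra.single (t ^ (1 : ℤ)) 1 * (MonoidAlgebra.single (t ^ (n : ℤ)) 1 * incl d r) := by
    rw [← mul_assoc, tpow_mul_tpow]
    congr 3
    push_cast
    ring_nf
  rw [h1, ← mul_sub]
  apply single_mul_InD ht _ _ h
  intro i hi
  rw [dg_zpow, ht, Set.mem_Ico] at *
  push_cast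
  omega

/-- **P. Hall.** -/
theorem hall (ht : dg d t = 1) [hR : IsNoetherianRing (MonoidAlgebra Λ d.ker)] :
    IsNoetherianRing (MonoidAlgebra Λ G) := by
  classical
  refine ⟨fun N => ?_⟩
  obtain ⟨m, hm⟩ := (monotone_stabilizes_iff_noetherian.2 hR) ⟨lead ht N, lead_mono ht N⟩
  have hm' : ∀ n, m ≤ n → lead ht N m = lead ht N n := hm
  have hfg : ∀ n, ∃ S : Finset (MonoidAlgebra Λ d.ker), Submodule.span _ (S : Set _) = lead ht N n :=
    fun n => IsNoetherian.noetherian (lead ht N n)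
  choose S hS using hfg
  have hw : ∀ (n : ℕ) (r : MonoidAlgebra Λ d.ker), ∃ x ∈ N, r ∈ lead ht N n →
      x - MonoidAlgebra.single (t ^ (n : ℤ)) 1 * incl d r ∈ InD d t (Set.Ico 0 (n : ℤ)) := by
    intro n r
    by_cases hr : r ∈ lead ht N n
    · obtain ⟨x, hx, h⟩ := hr
      exact ⟨x, hx, fun _ => h⟩
    · exact ⟨0, N.zero_mem, fun h => absurd h hr⟩
  choose w hwN hw using hw
  let W : Finset (MonoidAlgebra Λ G) := (Finset.range (m + 1)).biUnion fun n => (S n).image (w n)
  set N' := Submodule.span (MonoidAlgebra Λ G) (W : Set (MonoidAlgebra Λ G)) with hN'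
  have hN'N : N' ≤ N := by
    rw [hN', Submodule.span_le]
    intro x hx
    simp only [W, Finset.coe_biUnion, Finset.coe_image, Set.mem_iUnion, Set.mem_image] at hx
    obtain ⟨n, _, r, _, rfl⟩ := hx
    exact hwN n r
  -- leading terms can be matched
  have key : ∀ (n : ℕ) (r : MonoidAlgebra Λ d.ker), r ∈ lead ht N n →
      ∃ z ∈ N', z - MonoidAlgebra.single (t ^ (n : ℤ)) 1 * incl d r
        ∈ InD d t (Set.Ico 0 (n : ℤ)) := by
    intro n r hr
    obtain ⟨n', hn'm, hn'n, hn'⟩ : ∃ n' ≤ m, n' ≤ n ∧ lead ht N n' = lead ht N n := by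
      rcases le_total n m with h | h
      · exact ⟨n, h, le_rfl, rfl⟩
      · exact ⟨m, le_rfl, h, hm' n h⟩
    rw [← hn', ← hS n'] at hr
    induction hr using Submodule.span_induction with
    | mem r hr =>
      have hr' : r ∈ lead ht N n' := by rw [← hS n']; exact Submodule.subset_span hr
      refine ⟨MonoidAlgebra.single (t ^ ((n : ℤ) - n')) 1 * w n' r, N'.smul_mem _
        (Submodule.subset_span ?_), ?_⟩
      · rw [Finset.mem_coe, Finset.mem_biUnion]
        exact ⟨n', Finset.mem_range.2 (by omega), Finset.mem_image.2 ⟨r, hr, rfl⟩⟩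
      · have h1 : MonoidAlgebra.single (t ^ (n : ℤ)) (1 : Λ) * incl d r
            = MonoidAlgebra.single (t ^ ((n : ℤ) - n')) 1
              * (MonoidAlgebra.single (t ^ (n' : ℤ)) 1 * incl d r) := by
          rw [← mul_assoc, tpow_mul_tpow, sub_add_cancel]
        rw [h1, ← mul_sub]
        apply single_mul_InD ht _ _ (hw n' r hr')
        intro i hi
        rw [dg_zpow, ht, Set.mem_Ico] at *
        omega
    | zero => exact ⟨0, N'.zero_mem, by
        rw [map_zero, mul_zero, sub_zero]; exact (InD d t _).zero_mem⟩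
    | add r r' _ _ h1 h2 =>
      obtain ⟨z, hz, h3⟩ := h1
      obtain ⟨z', hz', h4⟩ := h2
      refine ⟨z + z', N'.add_mem hz hz', ?_⟩
      rw [map_add, mul_add, add_sub_add_comm]
      exact (InD d t _).add_mem h3 h4
    | smul a r _ h1 =>
      obtain ⟨z, hz, h3⟩ := h1
      refine ⟨MonoidAlgebra.single (t ^ (n : ℤ)) 1 * incl d a *
        MonoidAlgebra.single (t ^ (-(n : ℤ))) 1 * z, N'.smul_mem _ hz, ?_⟩
      rw [smul_eq_mul, ← tri_mul, ← mul_sub]
      exact tri_mem ht _ _ h3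
  have main : ∀ (n : ℕ) (x : MonoidAlgebra Λ G), x ∈ N → x ∈ InD d t (Set.Ico 0 (n : ℤ)) →
      x ∈ N' := by
    intro n
    induction n with
    | zero =>
      intro x _ hx
      have : x = 0 := by
        apply ext_cmp ht
        intro i
        rw [map_zero]
        exact hx i (by simp)
      rw [this]
      exact N'.zero_mem
    | succ n ih =>
      intro x hxN hx
      have h1 : x - MonoidAlgebra.single (t ^ (n : ℤ)) 1 * incl d (cmp d t n x)
          ∈ InD d t (Set.Ico 0 (n : ℤ)) := by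
        intro i hi
        rw [map_sub, cmp_tpow_incl ht]
        split_ifs with h
        · rw [h, sub_self]
        · rw [sub_zero]
          apply hx
          rw [Set.mem_Ico] at *
          push_cast
          omega
      obtain ⟨z, hz, h2⟩ := key n (cmp d t n x) ⟨x, hxN, h1⟩
      have h3 : x - z ∈ N' := by
        apply ih _ (N.sub_mem hxN (hN'N hz))
        have h4 : x - z = (x - MonoidAlgebra.single (t ^ (n : ℤ)) 1 * incl d (cmp d t n x))
            - (z - MonoidAlgebra.single (t ^ (n : ℤ)) 1 * incl d (cmp d t n x)) := by abel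
        rw [h4]
        exact (InD d t _).sub_mem h1 h2
      have h5 : x = (x - z) + z := by abel
      rw [h5]
      exact N'.add_mem h3 hz
  refine ⟨W, le_antisymm hN'N fun x hx => ?_⟩
  obtain ⟨I, hI⟩ := cmp_finite ht x
  obtain ⟨b, hb⟩ : ∃ b : ℕ, ∀ i ∈ I, -(b : ℤ) ≤ i ∧ i < b := by
    refine ⟨(I.sup fun i => i.natAbs) + 1, fun i hi => ?_⟩
    have : i.natAbs ≤ I.sup fun i => i.natAbs := Finset.le_sup (f := fun i : ℤ => i.natAbs) hi
    push_cast
    omega
  have h1 : MonoidAlgebra.single (t ^ (b : ℤ)) 1 * x ∈ N' := by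
    apply main (2 * b) _ (N.smul_mem _ hx)
    apply single_mul_InD ht (J := Set.Ico (-(b : ℤ)) b)
    · intro i hi
      rw [dg_zpow, ht, Set.mem_Ico] at *
      push_cast
      omega
    · intro i hi
      apply hI
      intro h
      exact hi (hb i h)
  have h2 : x = MonoidAlgebra.single (t ^ (-(b : ℤ))) 1 *
      (MonoidAlgebra.single (t ^ (b : ℤ)) 1 * x) := by
    rw [← mul_assoc, tpow_mul_tpow, neg_add_cancel, tpow_zero, one_mul]
  rw [h2]
  exact N'.smul_mem _ h1

end hall

end Pool.Agent.K6.H28.GR
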