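import Pool.Agent.K6.H28.GR.Hall
import Pool.Agent.K6.H28.SF.FR

set_option autoImplicit false

/-! # Induced modules -/

namespace Pool.Agent.K6.H28.GR

open Multiplicative Pool.Agent.K6.H28.SF

section general

variable {Λ : Type} [Ring Λ] {G : Type} [Group G] {A B : Type} [AddCommGroup A]
  [Module (MonoidAlgebra Λ G) A] [AddCommGroup B] [Module (MonoidAlgebra Λ G) B]

theorem smul_mem_of_single (S : AddSubgroup A)
    (h : ∀ (g : G) (z : Λ), ∀ a ∈ S, (MonoidAlgebra.single g z : MonoidAlgebra Λ G) • a ∈ S)
    (x : MonoidAlgebra Λ G) (a : A) (ha : a ∈ S) : x • a ∈ S := by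
  induction x using MonoidAlgebra.induction_linear with
  | zero => rw [zero_smul]; exact S.zero_mem
  | add x y h1 h2 => rw [add_smul]; exact S.add_mem h1 h2
  | single g z => exact h g z a ha

/-- a submodule from a stable subgroup -/
def mkSub (S : AddSubgroup A)
    (h : ∀ (g : G) (z : Λ), ∀ a ∈ S, (MonoidAlgebra.single g z : MonoidAlgebra Λ G) • a ∈ S) :
    Submodule (MonoidAlgebra Λ G) A where
  carrier := S
  add_mem' := S.add_mem
  zero_mem' := S.zero_mem
  smul_mem' := fun x a ha => smul_mem_of_single S h x a ha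

/-- a linear map from an equivariant additive map -/
def mkLin (φ : A →+ B)
    (h : ∀ (g : G) (z : Λ) (a : A), φ ((MonoidAlgebra.single g z : MonoidAlgebra Λ G) • a)
      = (MonoidAlgebra.single g z : MonoidAlgebra Λ G) • φ a) : A →ₗ[MonoidAlgebra Λ G] B where
  toFun := φ
  map_add' := φ.map_add
  map_smul' := by
    intro x a
    rw [RingHom.id_apply]
    induction x using MonoidAlgebra.induction_linear with
    | zero => rw [zero_smul, zero_smul, map_zero]
    | add x y h1 h2 => rw [add_smul, add_smul, map_add, h1, h2]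
    | single g z => exact h g z a

end general

section Dm

variable {Λ : Type} [Ring Λ] {G : Type} [Group G] (d : G →* Multiplicative ℤ) (M : Type)
  [AddCommGroup M] [Module (MonoidAlgebra Λ G) M]

/-- the module `⊕ M`, where `g` sends the `i`-th summand to the summand `i + dg g` -/
def Dm (_ : G →* Multiplicative ℤ) (M : Type) [AddCommGroup M] : Type := ℤ →₀ M

noncomputable instance : AddCommGroup (Dm d M) := inferInstanceAs (AddCommGroup (ℤ →₀ M))

variable {M}

/-- evaluation -/
def evD (i : ℤ) : Dm d M →+ M where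
  toFun := fun f => (show ℤ →₀ M from f) i
  map_zero' := rfl
  map_add' := fun _ _ => rfl

theorem Dm_ext {f g : Dm d M} (h : ∀ i, evD d i f = evD d i g) : f = g :=
  Finsupp.ext (f := (show ℤ →₀ M from f)) (g := (show ℤ →₀ M from g)) h

/-- the action of a multiple of a group element -/
noncomputable def act (g : G) (z : Λ) : AddMonoid.End (Dm d M) where
  toFun := fun f => Finsupp.equivMapDomain (Equiv.addRight (dg d g))
    (Finsupp.mapRange (fun m : M => (MonoidAlgebra.single g z : MonoidAlgebra Λ G) • m)
      (smul_zero _) f)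
  map_zero' := by
    apply Finsupp.ext
    intro i
    change (MonoidAlgebra.single g z : MonoidAlgebra Λ G) • (0 : M) = 0
    exact smul_zero _
  map_add' := by
    intro f f'
    apply Finsupp.ext
    intro i
    exact smul_add _ _ _

theorem evD_act (g : G) (z : Λ) (f : Dm d M) (i : ℤ) : evD d i (act d g z f)
    = (MonoidAlgebra.single g z : MonoidAlgebra Λ G) • evD d (i - dg d g) f := rfl

variable (Λ) in
/-- the action of the group -/
noncomputable def actHom : G →* AddMonoid.End (Dm d M) where
  toFun := fun g => act d g (1 : Λ)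
  map_one' := by
    ext1 f
    apply Dm_ext
    intro i
    rw [evD_act, dg_one, sub_zero]
    exact one_smul _ _
  map_mul' := by
    intro g h
    ext1 f
    apply Dm_ext
    intro i
    rw [evD_act]
    change _ = evD d i (act d g (1 : Λ) (act d h (1 : Λ) f))
    rw [evD_act, evD_act, dg_mul, ← mul_smul, MonoidAlgebra.single_mul_single, mul_one, sub_sub]

variable (G) in
/-- the action of the coefficients -/
noncomputable def cactHom : Λ →+* AddMonoid.End (Dm d M) where
  toFun := fun z => act d (1 : G) z
  map_one' := by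
    ext1 f
    apply Dm_ext
    intro i
    rw [evD_act, dg_one, sub_zero]
    exact one_smul _ _
  map_mul' := by
    intro z z'
    ext1 f
    apply Dm_ext
    intro i
    rw [evD_act]
    change _ = evD d i (act d (1 : G) z (act d (1 : G) z' f))
    rw [evD_act, evD_act, ← mul_smul, MonoidAlgebra.single_mul_single, mul_one, dg_one, sub_zero,
      sub_zero]
  map_zero' := by
    ext1 f
    apply Dm_ext
    intro i
    rw [evD_act, MonoidAlgebra.single_zero, zero_smul]
    rfl
  map_add' := by
    intro z z'
    ext1 f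
    apply Dm_ext
    intro i
    rw [evD_act, MonoidAlgebra.single_add, add_smul]
    rfl

theorem act_comm (z : Λ) (g : G) : Commute (cactHom G d z : AddMonoid.End (Dm d M))
    (actHom Λ d g) := by
  change cactHom G d z * actHom Λ d g = actHom Λ d g * cactHom G d z
  ext1 f
  apply Dm_ext
  intro i
  change evD d i (act d (1 : G) z (act d g (1 : Λ) f)) = evD d i (act d g (1 : Λ) (act d (1 : G) z f))
  rw [evD_act, evD_act, evD_act, evD_act, ← mul_smul, ← mul_smul, MonoidAlgebra.single_mul_single,
    MonoidAlgebra.single_mul_single, one_mul, mul_one, mul_one, one_mul, dg_one, sub_zero, sub_zero]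

noncomputable instance : Module (MonoidAlgebra Λ G) (Dm d M) :=
  Module.compHom (Dm d M)
    (MonoidAlgebra.liftNCRingHom (cactHom G d : Λ →+* AddMonoid.End (Dm d M)) (actHom Λ d)
      (act_comm d))

theorem single_smul_Dm (g : G) (z : Λ) (f : Dm d M) :
    (MonoidAlgebra.single g z : MonoidAlgebra Λ G) • f = act d g z f := by
  change (MonoidAlgebra.liftNCRingHom (cactHom G d : Λ →+* AddMonoid.End (Dm d M)) (actHom Λ d)
      (act_comm d) (MonoidAlgebra.single g z)) f = _
  rw [MonoidAlgebra.liftNCRingHom_single]
  change act d (1 : G) z (act d g (1 : Λ) f) = _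
  apply Dm_ext
  intro i
  rw [evD_act, evD_act, evD_act, ← mul_smul, MonoidAlgebra.single_mul_single, one_mul, mul_one,
    dg_one, sub_zero]

theorem evD_single_smul (g : G) (z : Λ) (f : Dm d M) (i : ℤ) :
    evD d i ((MonoidAlgebra.single g z : MonoidAlgebra Λ G) • f)
      = (MonoidAlgebra.single g z : MonoidAlgebra Λ G) • evD d (i - dg d g) f := by
  rw [single_smul_Dm, evD_act]

/-- elements concentrated in one degree -/
noncomputable def pt (i : ℤ) : M →+ Dm d M where
  toFun := fun m => Finsupp.single i m
  map_zero' := Finsupp.single_zero i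
  map_add' := fun m m' => Finsupp.single_add i m m'

theorem evD_pt (i j : ℤ) (m : M) : evD d j (pt d i m) = if i = j then m else 0 := by
  exact Finsupp.single_apply

theorem single_smul_pt (g : G) (z : Λ) (i : ℤ) (m : M) :
    (MonoidAlgebra.single g z : MonoidAlgebra Λ G) • pt d i m
      = pt d (i + dg d g) ((MonoidAlgebra.single g z : MonoidAlgebra Λ G) • m) := by
  apply Dm_ext
  intro j
  rw [evD_single_smul, evD_pt, evD_pt]
  by_cases h : i + dg d g = j
  · rw [if_pos h, if_pos (by omega)]
  · rw [if_neg h, if_neg (by omega), smul_zero]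

theorem incl_smul_pt (r : MonoidAlgebra Λ d.ker) (i : ℤ) (m : M) :
    incl d r • pt d i m = pt d i (incl d r • m) := by
  induction r using MonoidAlgebra.induction_linear with
  | zero => rw [map_zero, zero_smul, zero_smul, map_zero]
  | add x y h1 h2 => rw [map_add, add_smul, add_smul, map_add, h1, h2]
  | single k z =>
    have h2 : dg d (k : G) = 0 := (mem_ker_iff d _).1 k.2
    rw [incl_single, single_smul_pt, h2, add_zero]

variable {d} {t : G}

/-- the main formula -/
theorem evD_smul_pt (ht : dg d t = 1) (x : MonoidAlgebra Λ G) (m : M) (i : ℤ) :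
    evD d i (x • pt d 0 m)
      = (MonoidAlgebra.single (t ^ i) 1 : MonoidAlgebra Λ G) • (incl d (cmp d t i x) • m) := by
  classical
  obtain ⟨I, hI⟩ := cmp_finite ht x
  conv_lhs => rw [sum_cmp ht x I hI]
  rw [Finset.sum_smul, map_sum]
  have h1 : ∀ j ∈ I, evD d i ((MonoidAlgebra.single (t ^ j) 1 * incl d (cmp d t j x)) • pt d 0 m)
      = if i = j then (MonoidAlgebra.single (t ^ i) 1 : MonoidAlgebra Λ G)
        • (incl d (cmp d t i x) • m) else 0 := by
    intro j _
    rw [mul_smul, incl_smul_pt, single_smul_pt, evD_pt, dg_zpow, ht, mul_one, zero_add]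
    by_cases h : j = i
    · subst h
      rw [if_pos rfl]
    · rw [if_neg h, if_neg (Ne.symm h)]
  rw [Finset.sum_congr rfl h1, Finset.sum_ite_eq]
  split_ifs with h
  · rfl
  · rw [hI i h, map_zero, zero_smul, smul_zero]

end Dm

section base

variable {Λ : Type} [Ring Λ] {G : Type} [Group G] {d : G →* Multiplicative ℤ} {t : G}

/-- the extension of a submodule of a free module to the larger group ring -/
noncomputable def LK (ht : dg d t = 1) {κ : Type} (K : Submodule (MonoidAlgebra Λ d.ker) (κ → MonoidAlgebra Λ d.ker)) :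
    Submodule (MonoidAlgebra Λ G) (κ → MonoidAlgebra Λ G) :=
  mkSub
    { carrier := {v | ∀ i, (fun c => cmp d t i (v c)) ∈ K}
      add_mem' := by
        intro v w hv hw i
        have h1 : (fun c => cmp d t i ((v + w) c))
            = (fun c => cmp d t i (v c)) + fun c => cmp d t i (w c) := by
          funext c
          exact map_add _ _ _
        rw [h1]
        exact K.add_mem (hv i) (hw i)
      zero_mem' := by
        intro i
        have h1 : (fun c => cmp d t i ((0 : κ → MonoidAlgebra Λ G) c)) = 0 := by
          funext c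
          exact map_zero _
        rw [h1]
        exact K.zero_mem
      neg_mem' := by
        intro v hv i
        have h1 : (fun c => cmp d t i ((-v) c)) = -(fun c => cmp d t i (v c)) := by
          funext c
          exact map_neg _ _
        rw [h1]
        exact K.neg_mem (hv i) }
    (by
      intro g z v hv i
      obtain ⟨k, hk⟩ := cmp_single_mul (d := d) ht i g z
      have h1 : (fun c => cmp d t i (((MonoidAlgebra.single g z : MonoidAlgebra Λ G) • v) c))
          = (MonoidAlgebra.single k z : MonoidAlgebra Λ d.ker) •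
            (fun c => cmp d t (i - dg d g) (v c)) := by
        funext c
        exact hk (v c)
      rw [h1]
      exact K.smul_mem _ (hv _))

theorem mem_LK (ht : dg d t = 1) {κ : Type}
    (K : Submodule (MonoidAlgebra Λ d.ker) (κ → MonoidAlgebra Λ d.ker)) (v : κ → MonoidAlgebra Λ G) :
    v ∈ LK ht K ↔ ∀ i, (fun c => cmp d t i (v c)) ∈ K := Iff.rfl

/-- flat base change -/
theorem base_step (ht : dg d t = 1) {κ ι : Type} [Fintype ι] [Fintype κ]
    (K : Submodule (MonoidAlgebra Λ d.ker) (κ → MonoidAlgebra Λ d.ker))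
    (f : (ι → MonoidAlgebra Λ d.ker) →ₗ[MonoidAlgebra Λ d.ker] K) (hf : Function.Surjective f) :
    ∃ F : (ι → MonoidAlgebra Λ G) →ₗ[MonoidAlgebra Λ G] LK ht K, Function.Surjective F ∧
      LinearMap.ker F = LK ht (LinearMap.ker f) := by
  classical
  have hf1 : ∀ w, ((f w : K) : κ → MonoidAlgebra Λ d.ker)
      = fun c => ∑ a, w a * (f (Pi.single a 1) : κ → MonoidAlgebra Λ d.ker) c := by
    intro w
    have h1 : w = ∑ a, w a • (Pi.single a 1 : ι → MonoidAlgebra Λ d.ker) := by
      rw [← Finset.univ_sum_single w]
      refine Finset.sum_congr rfl fun a _ => ?_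
      rw [Finset.univ_sum_single w]
      ext1 b
      by_cases hb : b = a
      · subst hb; simp
      · simp [hb]
    conv_lhs => rw [h1]
    rw [map_sum]
    funext c
    rw [AddSubmonoidClass.coe_finsetSum, Finset.sum_apply]
    refine Finset.sum_congr rfl fun a _ => ?_
    rw [map_smul]
    rfl
  set X : ι → κ → MonoidAlgebra Λ d.ker := fun a => (f (Pi.single a 1) : κ → MonoidAlgebra Λ d.ker)
    with hX
  let F0 : (ι → MonoidAlgebra Λ G) →ₗ[MonoidAlgebra Λ G] (κ → MonoidAlgebra Λ G) :=
    { toFun := fun u c => ∑ a, u a * incl d (X a c)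
      map_add' := by
        intro u v
        funext c
        rw [Pi.add_apply, ← Finset.sum_add_distrib]
        refine Finset.sum_congr rfl fun a _ => ?_
        rw [Pi.add_apply, add_mul]
      map_smul' := by
        intro x u
        funext c
        rw [RingHom.id_apply, Pi.smul_apply, smul_eq_mul, Finset.mul_sum]
        refine Finset.sum_congr rfl fun a _ => ?_
        rw [Pi.smul_apply, smul_eq_mul, mul_assoc] }
  have hF0 : ∀ u i, (fun c => cmp d t i (F0 u c)) = (f fun a => cmp d t i (u a) : K).1 := by
    intro u i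
    rw [hf1]
    funext c
    change cmp d t i (∑ a, u a * incl d (X a c)) = _
    rw [map_sum]
    refine Finset.sum_congr rfl fun a _ => ?_
    rw [cmp_mul_incl]
  let F : (ι → MonoidAlgebra Λ G) →ₗ[MonoidAlgebra Λ G] LK ht K :=
    F0.codRestrict (LK ht K) (by
      intro u i
      rw [hF0 u i]
      exact (f _).2)
  refine ⟨F, ?_, ?_⟩
  · rintro ⟨v, hv⟩
    choose w hw using fun i => hf ⟨_, hv i⟩
    have hfin : ∃ I : Finset ℤ, ∀ i ∉ I, ∀ c, cmp d t i (v c) = 0 := by
      choose I hI using fun c => cmp_finite ht (v c)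
      refine ⟨Finset.univ.biUnion I, fun i hi c => hI c i fun h => hi ?_⟩
      exact Finset.mem_biUnion.2 ⟨c, Finset.mem_univ _, h⟩
    obtain ⟨I, hI⟩ := hfin
    refine ⟨fun a => ∑ i ∈ I, MonoidAlgebra.single (t ^ i) 1 * incl d (w i a), ?_⟩
    apply Subtype.ext
    funext c
    apply ext_cmp ht
    intro j
    have h1 := congrFun (hF0 (fun a => ∑ i ∈ I, MonoidAlgebra.single (t ^ i) 1 * incl d (w i a)) j) c
    have h2 : (fun a => cmp d t j (∑ i ∈ I, MonoidAlgebra.single (t ^ i) 1 * incl d (w i a)))
        = if j ∈ I then w j else 0 := by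
      funext a
      rw [map_sum]
      simp only [cmp_tpow_incl ht]
      rw [Finset.sum_ite_eq]
      split_ifs <;> rfl
    rw [h2] at h1
    refine h1.trans ?_
    split_ifs with hj
    · rw [hw j]
    · rw [map_zero, hI j hj c]
      rfl
  · ext u
    rw [LinearMap.mem_ker, mem_LK]
    constructor
    · intro h i
      rw [LinearMap.mem_ker]
      apply Subtype.ext
      rw [← hF0 u i]
      have h1 : F0 u = 0 := congrArg Subtype.val h
      rw [h1]
      funext c
      exact map_zero _
    · intro h
      apply Subtype.ext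
      funext c
      apply ext_cmp ht
      intro i
      have h1 := congrFun (hF0 u i) c
      have h2 : f (fun a => cmp d t i (u a)) = 0 := LinearMap.mem_ker.1 (h i)
      rw [h2] at h1
      refine h1.trans ?_
      exact (map_zero (cmp d t i)).symm

theorem FR_LK (ht : dg d t = 1) : ∀ (n : ℕ) (κ : Type) [Fintype κ]
    (K : Submodule (MonoidAlgebra Λ d.ker) (κ → MonoidAlgebra Λ d.ker)),
    FR (MonoidAlgebra Λ d.ker) n K → FR (MonoidAlgebra Λ G) n (LK ht K) := by
  intro n
  induction n with
  | zero =>
    intro κ _ K h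
    obtain ⟨ι, i1, ⟨e⟩⟩ := h
    obtain ⟨F, hF, hk⟩ := base_step ht K e.symm.toLinearMap e.symm.surjective
    refine ⟨ι, i1, ⟨(LinearEquiv.ofBijective F ⟨?_, hF⟩).symm⟩⟩
    rw [← LinearMap.ker_eq_bot, hk, eq_bot_iff]
    intro u hu
    rw [LinearEquiv.ker] at hu
    rw [Submodule.mem_bot]
    funext a
    apply ext_cmp ht
    intro i
    rw [Pi.zero_apply, map_zero]
    exact congrFun ((Submodule.mem_bot _).1 (hu i)) a
  | succ n ih =>
    intro κ _ K h
    obtain ⟨ι, i1, f, hf, hK⟩ := h
    obtain ⟨F, hF, hk⟩ := base_step ht K f hf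
    refine ⟨ι, i1, F, hF, ?_⟩
    rw [hk]
    exact ih ι _ hK

end base

end Pool.Agent.K6.H28.GR
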