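import Pool.Agent.K6.H28.GR.Row

set_option autoImplicit false

/-! # Idempotent matrices modulo a nilpotent ideal generated by a central element -/

namespace Pool.Agent.K6.H28.GR

open Matrix

section lifting

variable {R S : Type} [Ring R] [Ring S] (φ : R →+* S) (ζ : R) (p : ℕ)

/-- the map is surjective, and its kernel is generated by a central nilpotent element -/
structure NilMap : Prop where
  surj : Function.Surjective φ
  central : ∀ r, ζ * r = r * ζ
  pos : 0 < p
  pow : ζ ^ p = 0
  ker : ∀ x, φ x = 0 → ∃ y, x = ζ * y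

variable {φ ζ p}

theorem NilMap.mat_surj (h : NilMap φ ζ p) {ι κ : Type} (A : Matrix ι κ S) :
    ∃ B : Matrix ι κ R, B.map φ = A := by
  choose B hB using fun i j => h.surj (A i j)
  exact ⟨fun i j => B i j, by ext1 i j; exact hB i j⟩

theorem NilMap.mat_pow (h : NilMap φ ζ p) {ι : Type} [Fintype ι] [DecidableEq ι]
    {X : Matrix ι ι R} (hX : X.map φ = 0) : X ^ p = 0 := by
  choose Y hY using fun i j => h.ker (X i j) (congrFun (congrFun hX i) j)
  have hXY : X = ζ • (Matrix.of Y) := by
    ext1 i j
    exact hY i j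
  have hc : ∀ (c : R), (∀ r, c * r = r * c) → ∀ A B : Matrix ι ι R, A * (c • B) = c • (A * B) := by
    intro c hcc A B
    ext i j
    rw [Matrix.mul_apply, Matrix.smul_apply, Matrix.mul_apply, smul_eq_mul, Finset.mul_sum]
    refine Finset.sum_congr rfl fun k _ => ?_
    rw [Matrix.smul_apply, smul_eq_mul, ← mul_assoc, ← hcc, mul_assoc]
  have hpow : ∀ k : ℕ, X ^ k = ζ ^ k • (Matrix.of Y) ^ k := by
    intro k
    induction k with
    | zero => rw [pow_zero, pow_zero, pow_zero, one_smul]
    | succ k ih =>
      rw [pow_succ X, ih, hXY, hc ζ h.central, Matrix.smul_mul, smul_smul, ← pow_succ' ζ,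
        ← pow_succ (Matrix.of Y)]
  rw [hpow, h.pow, zero_smul]

theorem NilMap.idem_zero (h : NilMap φ ζ p) {ι : Type} [Fintype ι] [DecidableEq ι]
    {X : Matrix ι ι R} (hX : X.map φ = 0) (hXX : X * X = X) : X = 0 := by
  have h1 := h.mat_pow hX
  have h2 : ∀ k : ℕ, X ^ (k + 1) = X := by
    intro k
    induction k with
    | zero => rw [zero_add, pow_one]
    | succ k ih => rw [pow_succ, ih, hXX]
  obtain ⟨q, hq⟩ : ∃ q, p = q + 1 := ⟨p - 1, by have := h.pos; omega⟩
  rw [hq, h2] at h1
  exact h1

/-- equivalences of idempotent matrices can be lifted -/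
theorem NilMap.equiv_lift (h : NilMap φ ζ p) {ι κ : Type} [Fintype ι] [DecidableEq ι] [Fintype κ]
    [DecidableEq κ] {e : Matrix ι ι R} {f : Matrix κ κ R} (he : e * e = e) (hf : f * f = f)
    (U' : Matrix ι κ S) (V' : Matrix κ ι S) (h1 : U' * V' = e.map φ) (h2 : V' * U' = f.map φ) :
    ∃ (U : Matrix ι κ R) (V : Matrix κ ι R), U * V = e ∧ V * U = f := by
  obtain ⟨U0, hU0⟩ := h.mat_surj U'
  obtain ⟨V0, hV0⟩ := h.mat_surj V'
  set U := e * U0 * f with hU
  set V := f * V0 * e with hV
  have heU : e * U = U := by rw [hU, ← Matrix.mul_assoc, ← Matrix.mul_assoc, he]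
  have hUf : U * f = U := by rw [hU, Matrix.mul_assoc, hf]
  have hfV : f * V = V := by rw [hV, ← Matrix.mul_assoc, ← Matrix.mul_assoc, hf]
  have hVe : V * e = V := by rw [hV, Matrix.mul_assoc, he]
  have hee : e.map φ * e.map φ = e.map φ := by rw [← Matrix.map_mul, he]
  have hff : f.map φ * f.map φ = f.map φ := by rw [← Matrix.map_mul, hf]
  have hφU : U.map φ = U' * f.map φ := by
    rw [hU, Matrix.map_mul, Matrix.map_mul, hU0, ← h1, ← h2]
    have : U' * V' * U' * (V' * U') = (U' * V') * (U' * V') * U' := by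
      simp only [Matrix.mul_assoc]
    rw [this, h1, hee, ← h1, Matrix.mul_assoc]
  have hφV : V.map φ = V' * e.map φ := by
    rw [hV, Matrix.map_mul, Matrix.map_mul, hV0, ← h1, ← h2]
    have : V' * U' * V' * (U' * V') = (V' * U') * (V' * U') * V' := by
      simp only [Matrix.mul_assoc]
    rw [this, h2, hff, ← h2, Matrix.mul_assoc]
  have hUV' : U.map φ * V.map φ = e.map φ := by
    rw [hφU, hφV]
    have : U' * f.map φ * (V' * e.map φ) = U' * (f.map φ) * V' * e.map φ := by
      simp only [Matrix.mul_assoc]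
    rw [this, ← h2]
    have h3 : U' * (V' * U') * V' = (U' * V') * (U' * V') := by
      simp only [Matrix.mul_assoc]
    rw [h3, h1, hee, hee]
  have hVU' : V.map φ * U.map φ = f.map φ := by
    rw [hφU, hφV]
    have : V' * e.map φ * (U' * f.map φ) = V' * (e.map φ) * U' * f.map φ := by
      simp only [Matrix.mul_assoc]
    rw [this, ← h1]
    have h3 : V' * (U' * V') * U' = (V' * U') * (V' * U') := by
      simp only [Matrix.mul_assoc]
    rw [h3, h2, hff, hff]
  set X := e - U * V with hX
  have hφX : X.map φ = 0 := by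
    have : X.map φ = e.map φ - (U * V).map φ := by
      ext1 i j
      exact map_sub φ _ _
    rw [this, Matrix.map_mul, hUV', sub_self]
  have hXp := h.mat_pow hφX
  set w := ∑ k ∈ Finset.range p, X ^ k with hw
  have hw1 : (1 - X) * w = 1 := by
    rw [hw, mul_neg_geom_sum, hXp, sub_zero]
  have heX : e * X = X := by
    rw [hX, Matrix.mul_sub, he, ← Matrix.mul_assoc, heU]
  have hUVw : U * (V * w) = e := by
    have h3 : U * V = e * (1 - X) := by
      rw [Matrix.mul_sub, Matrix.mul_one, heX, hX]
      abel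
    rw [← Matrix.mul_assoc, h3, Matrix.mul_assoc, hw1, Matrix.mul_one]
  have hφw : w.map φ = 1 := by
    have h3 : ((1 - X) * w).map φ = 1 := by
      rw [hw1]
      exact Matrix.map_one _ (map_zero φ) (map_one φ)
    have h4 : (1 - X).map φ = 1 := by
      have : (1 - X).map φ = (1 : Matrix ι ι R).map φ - X.map φ := by
        ext1 i j
        exact map_sub φ _ _
      rw [this, hφX, sub_zero]
      exact Matrix.map_one _ (map_zero φ) (map_one φ)
    rw [Matrix.map_mul, h4, Matrix.one_mul] at h3
    exact h3
  refine ⟨U, V * w, hUVw, ?_⟩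
  set f1 := V * w * U with hf1
  have hf11 : f1 * f1 = f1 := by
    have : f1 * f1 = V * w * (U * (V * w)) * U := by
      rw [hf1]; simp only [Matrix.mul_assoc]
    rw [this, hUVw, Matrix.mul_assoc (V * w) e U, heU]
  have hff1 : f * f1 = f1 := by
    have : f * f1 = (f * V) * w * U := by
      rw [hf1]; simp only [Matrix.mul_assoc]
    rw [this, hfV]
  have hf1f : f1 * f = f1 := by
    rw [hf1, Matrix.mul_assoc, hUf]
  have hφf1 : f1.map φ = f.map φ := by
    rw [hf1, Matrix.map_mul, Matrix.map_mul, hφw, Matrix.mul_one, hVU']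
  have hg : f - f1 = 0 := by
    apply h.idem_zero
    · have : (f - f1).map φ = f.map φ - f1.map φ := by
        ext1 i j
        exact map_sub φ _ _
      rw [this, hφf1, sub_self]
    · rw [Matrix.mul_sub, Matrix.sub_mul, Matrix.sub_mul, hf, hff1, hf1f, hf11, sub_self, sub_zero]
  exact (sub_eq_zero.1 hg).symm

/-- idempotent matrices can be lifted -/
theorem NilMap.idem_lift (h : NilMap φ ζ p) {ι : Type} [Fintype ι] [DecidableEq ι]
    {A' : Matrix ι ι S} (hA : A' * A' = A') : ∃ A : Matrix ι ι R, A * A = A ∧ A.map φ = A' := by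
  obtain ⟨e, he, he'⟩ := exists_isIdempotentElem_eq_of_ker_isNilpotent
    (φ.mapMatrix : Matrix ι ι R →+* Matrix ι ι S) (fun X hX => ⟨p, h.mat_pow hX⟩) A'
    (by
      obtain ⟨B, hB⟩ := h.mat_surj A'
      exact ⟨B, hB⟩) hA
  exact ⟨e, he, he'⟩

end lifting

section groups

variable (D : Type) [DivisionRing D] {G Q : Type} [Group G] [Group Q] (π : G →* Q) (z : G) (p : ℕ)

/-- the group ring of a central extension by a group of order `p`, in characteristic `p` -/
theorem nilMap_central (hπ : Function.Surjective π) (hz : ∀ g, z * g = g * z)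
    (hker : ∀ g, π g = 1 → g ∈ Subgroup.zpowers z) (hp : p.Prime) (hzp : z ^ p = 1)
    (hD : (p : D) = 0) :
    NilMap (gr D π) (MonoidAlgebra.single z 1 - 1) p := by
  classical
  have : Fact p.Prime := ⟨hp⟩
  have hCD : CharP D p := by
    have h1 : ringChar D ∣ p := (ringChar.spec D p).1 hD
    have h2 : ringChar D ≠ 1 := CharP.ringChar_ne_one
    have h3 : ringChar D = p := (hp.eq_one_or_self_of_dvd _ h1).resolve_left h2
    exact ringChar.of_eq h3
  have hCG : CharP (MonoidAlgebra D G) p := by
    refine charP_of_injective_ringHom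
      (f := (MonoidAlgebra.singleOneRingHom : D →+* MonoidAlgebra D G)) ?_ p
    intro a b hab
    have h1 := congrArg (fun x : MonoidAlgebra D G => x.coeff 1) hab
    simpa using h1
  have hπs : ∀ (g : G) (c : D), gr D π (MonoidAlgebra.single g c)
      = MonoidAlgebra.single (π g) c := fun g c => MonoidAlgebra.mapDomain_single
  refine ⟨?_, ?_, hp.pos, ?_, ?_⟩
  · intro y
    induction y using MonoidAlgebra.induction_linear with
    | zero => exact ⟨0, map_zero _⟩
    | add x y h1 h2 =>
      obtain ⟨a, rfl⟩ := h1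
      obtain ⟨b, rfl⟩ := h2
      exact ⟨a + b, map_add _ _ _⟩
    | single g c =>
      obtain ⟨t, rfl⟩ := hπ g
      exact ⟨MonoidAlgebra.single t c, hπs t c⟩
  · intro r
    induction r using MonoidAlgebra.induction_linear with
    | zero => rw [mul_zero, zero_mul]
    | add x y h1 h2 => rw [mul_add, add_mul, h1, h2]
    | single g c =>
      rw [sub_mul, mul_sub, one_mul, mul_one, MonoidAlgebra.single_mul_single,
        MonoidAlgebra.single_mul_single, one_mul, mul_one, hz]
  · rw [sub_pow_char_of_commute p (Commute.one_right (MonoidAlgebra.single z 1 : MonoidAlgebra D G)),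
      one_pow, MonoidAlgebra.single_pow, hzp, one_pow]
    exact sub_self _
  · -- the kernel
    let σ : Q → G := fun q => (hπ q).choose
    have hσ : ∀ q, π (σ q) = q := fun q => (hπ q).choose_spec
    have key : ∀ x : MonoidAlgebra D G, ∃ y : MonoidAlgebra D G,
        x - MonoidAlgebra.mapDomain σ (gr D π x) = (MonoidAlgebra.single z 1 - 1) * y := by
      intro x
      induction x using MonoidAlgebra.induction_linear with
      | zero => exact ⟨0, by rw [map_zero, MonoidAlgebra.mapDomain_zero, sub_zero, mul_zero]⟩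
      | add x y h1 h2 =>
        obtain ⟨a, ha⟩ := h1
        obtain ⟨b, hb⟩ := h2
        refine ⟨a + b, ?_⟩
        rw [map_add, MonoidAlgebra.mapDomain_add, mul_add, ← ha, ← hb]
        abel
      | single g c =>
        rw [hπs, MonoidAlgebra.mapDomain_single]
        have h1 : π (g⁻¹ * σ (π g)) = 1 := by rw [map_mul, map_inv, hσ, inv_mul_cancel]
        obtain ⟨i, hi⟩ := Subgroup.mem_zpowers_iff.1 (hker _ h1)
        have h3 : z ^ i = z ^ (i % (p : ℤ)).toNat := by
          rw [← zpow_natCast, Int.toNat_of_nonneg (Int.emod_nonneg _ (by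
            have := hp.pos
            omega))]
          conv_lhs => rw [← Int.emod_add_mul_ediv i p]
          rw [_root_.zpow_add, _root_.zpow_mul, zpow_natCast, hzp, _root_.one_zpow, mul_one]
        set m := (i % (p : ℤ)).toNat with hm
        have h4 : σ (π g) = z ^ m * g := by
          have h5 : σ (π g) = g * z ^ m := by
            rw [← h3, hi, mul_inv_cancel_left]
          rw [h5]
          have h6 : Commute z g := hz g
          exact (h6.pow_left m).eq.symm
        refine ⟨-((∑ k ∈ Finset.range m, (MonoidAlgebra.single z 1 : MonoidAlgebra D G) ^ k) *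
          MonoidAlgebra.single g c), ?_⟩
        rw [h4, mul_neg, ← mul_assoc, mul_geom_sum, sub_mul, MonoidAlgebra.single_pow, one_pow,
          MonoidAlgebra.single_mul_single, one_mul, one_mul, neg_sub]
    intro x hx
    obtain ⟨y, hy⟩ := key x
    rw [hx, MonoidAlgebra.mapDomain_zero, sub_zero] at hy
    exact ⟨y, hy⟩

end groups

end Pool.Agent.K6.H28.GR
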