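import Pool.Agent.K6.H28.GR.Ult
import Pool.Agent.K6.H28.GR.Defs

set_option autoImplicit false

/-! # Uniform bounds from ultraproducts; modules and matrices -/

namespace Pool.Agent.K6.H28.GR

open Matrix Filter
open Pool.Agent.K6.H28.SF (aeOne mem_aeOne mk_eq_iff)

section basic

variable {D G : Type} [DivisionRing D] [Group G]

theorem FiniteBlocks.mono {N N' : ℕ} (h : N ≤ N') {a : ℕ}
    {A : Matrix (Fin a) (Fin a) (MonoidAlgebra D G)} (hA : FiniteBlocks N A) :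
    FiniteBlocks N' A := by
  obtain ⟨h1, H, h2, h3⟩ := hA
  exact ⟨h1, H, fun i => ⟨(h2 i).1, (h2 i).2.trans h⟩, h3⟩

theorem card_le_msupp {ι κ : Type} [Fintype ι] [Fintype κ] (A : Matrix ι κ (MonoidAlgebra D G))
    (i : ι) (j : κ) : (A i j).coeff.support.card ≤ msupp A :=
  (Finset.single_le_sum (f := fun j => (A i j).coeff.support.card) (fun _ _ => Nat.zero_le _)
    (Finset.mem_univ j)).trans
    (Finset.single_le_sum (f := fun i => ∑ j, (A i j).coeff.support.card) (fun _ _ => Nat.zero_le _)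
      (Finset.mem_univ i))

/-- the matrix `E` is stably induced from finite subgroups (without bounds) -/
def StInd {n : ℕ} (E : Matrix (Fin n) (Fin n) (MonoidAlgebra D G)) : Prop :=
  ∃ N : ℕ, InducedWithin N E

theorem stInd_of {n a b M : ℕ} {E : Matrix (Fin n) (Fin n) (MonoidAlgebra D G)}
    {A : Matrix (Fin a) (Fin a) (MonoidAlgebra D G)}
    {B : Matrix (Fin b) (Fin b) (MonoidAlgebra D G)} (hA : FiniteBlocks M A)
    (hB : FiniteBlocks M B) (U : Matrix (Fin n ⊕ Fin a) (Fin b) (MonoidAlgebra D G))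
    (V : Matrix (Fin b) (Fin n ⊕ Fin a) (MonoidAlgebra D G)) (h1 : U * V = fromBlocks E 0 0 A)
    (h2 : V * U = B) : StInd E :=
  ⟨M + a + b + msupp U + msupp V, a, by omega, b, by omega, A, B, U, V,
    hA.mono (by omega), hB.mono (by omega), by omega, by omega, h1, h2⟩

/-- matrices and modules -/
theorem stInd_iff {n : ℕ} {E : Matrix (Fin n) (Fin n) (MonoidAlgebra D G)} (hE : E * E = E) :
    StInd E ↔ StablyInduced D G (rowM E) := by
  constructor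
  · rintro ⟨N, a, _, b, _, A, B, U, V, hA, hB, _, _, h1, h2⟩
    obtain ⟨e1⟩ := rowM_blocks E A
    obtain ⟨e2⟩ := rowM_equiv_of (fromBlocks E 0 0 A) B (blocks_idem hE hA.1) hB.1 U V h1 h2
    exact ⟨N, a, b, A, B, hA, hB, ⟨e1.trans e2⟩⟩
  · rintro ⟨N, a, b, A, B, hA, hB, ⟨e⟩⟩
    obtain ⟨e1⟩ := rowM_blocks E A
    obtain ⟨U, V, h1, h2⟩ := of_rowM_equiv (fromBlocks E 0 0 A) B (blocks_idem hE hA.1) hB.1
      (e1.symm.trans e)
    exact stInd_of hA hB U V h1 h2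

theorem StablyInduced.equiv {P Q : Type} [AddCommGroup P] [Module (MonoidAlgebra D G) P]
    [AddCommGroup Q] [Module (MonoidAlgebra D G) Q] (e : P ≃ₗ[MonoidAlgebra D G] Q)
    (h : StablyInduced D G P) : StablyInduced D G Q := by
  obtain ⟨N, a, b, A, B, hA, hB, ⟨e'⟩⟩ := h
  exact ⟨N, a, b, A, B, hA, hB, ⟨(e.symm.prodCongr (LinearEquiv.refl _ _)).trans e'⟩⟩

end basic

section unif

variable (𝒰 : Ultrafilter ℕ)

theorem msupp_ev (D : ℕ → Type) [∀ i, DivisionRing (D i)] (G : ℕ → Type) [∀ i, Group (G i)]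
    {ι κ : Type} [Fintype ι] [Fintype κ] (A : Matrix ι κ (MonoidAlgebra (∀ i, D i) (∀ i, G i)))
    (i : ℕ) : msupp (A.map (ev D G i)) ≤ ∑ p, ∑ q, (A p q).coeff.support.card :=
  Finset.sum_le_sum fun _ _ => Finset.sum_le_sum fun _ _ => bm_card _ _ _

/-- block matrices over the group ring of the ultraproduct come from the factors -/
theorem finiteBlocks_ev (D : ℕ → Type) [∀ i, DivisionRing (D i)] (G : ℕ → Type)
    [∀ i, Group (G i)] {N a : ℕ} {A : Matrix (Fin a) (Fin a) (MonoidAlgebra (UD 𝒰 D) (UG 𝒰 G))}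
    (hA : FiniteBlocks N A) :
    ∀ᶠ i in (𝒰 : Filter ℕ), FiniteBlocks N ((A.map (lf 𝒰 D G)).map (ev D G i)) := by
  obtain ⟨h1, H, h2, h3⟩ := hA
  have hlf : (A.map (lf 𝒰 D G)).map (toU 𝒰 D G) = A := by
    ext1 p q
    exact toU_lf 𝒰 D G (A p q)
  have h4 : ∀ᶠ i in (𝒰 : Filter ℕ), (A.map (lf 𝒰 D G) * A.map (lf 𝒰 D G)).map (ev D G i)
      = (A.map (lf 𝒰 D G)).map (ev D G i) := by
    rw [← toU_mat_iff, Matrix.map_mul, hlf, h1]
  have h5 : ∀ᶠ i in (𝒰 : Filter ℕ), ∀ p : Fin a,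
      Finite (Subgroup.closure ((fun g => sgm 𝒰 G g i) '' (H p : Set (UG 𝒰 G)))) ∧
      Nat.card (Subgroup.closure ((fun g => sgm 𝒰 G g i) '' (H p : Set (UG 𝒰 G))))
        ≤ Nat.card (H p) := by
    rw [Filter.eventually_all]
    exact fun p => finite_subgroup 𝒰 G (H p) (h2 p).1
  filter_upwards [h4, h5] with i h6 h7
  rw [Matrix.map_mul] at h6
  refine ⟨h6, fun p => Subgroup.closure ((fun g => sgm 𝒰 G g i) '' (H p : Set (UG 𝒰 G))),
    fun p => ⟨(h7 p).1, (h7 p).2.trans (h2 p).2⟩, fun p q hpq => ?_⟩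
  have h8 : A p q ≠ 0 := by
    intro h
    apply hpq
    change ev D G i (lf 𝒰 D G (A p q)) = 0
    rw [h, lf_zero, map_zero]
  obtain ⟨h9, h10⟩ := h3 p q h8
  refine ⟨congrArg (fun K : Subgroup (UG 𝒰 G) =>
    Subgroup.closure ((fun g => sgm 𝒰 G g i) '' (K : Set (UG 𝒰 G)))) h9, fun g hg => ?_⟩
  obtain ⟨k, hk, rfl⟩ := ev_lf_support 𝒰 D G (A p q) i g hg
  exact Subgroup.subset_closure ⟨k, h10 k hk, rfl⟩

/-- the ultraproduct of pairs which are good up to larger and larger numbers is good -/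
theorem good_ultra (h𝒰 : (𝒰 : Filter ℕ) ≤ Filter.cofinite) (D : ℕ → Type)
    [∀ i, DivisionRing (D i)] (G : ℕ → Type) [∀ i, Group (G i)]
    (h : ∀ i, GoodUpTo i (D i) (G i)) : GoodPair (UD 𝒰 D) (UG 𝒰 G) := by
  intro p hp h0 g hg
  have h1 : ∀ᶠ i in (𝒰 : Filter ℕ), ((p : ℕ) : D i) = 0 := by
    have h2 : (Ideal.Quotient.mk (aeZero 𝒰 D)) ((p : ℕ) : ∀ i, D i) = 0 := by
      rw [map_natCast]
      exact h0
    rw [mk_zero_iff] at h2
    exact h2
  obtain ⟨x, rfl⟩ := QuotientGroup.mk'_surjective _ g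
  rw [← map_pow, ← map_one (QuotientGroup.mk' (aeOne 𝒰 G)), mk_eq_iff] at hg
  rw [← map_one (QuotientGroup.mk' (aeOne 𝒰 G)), mk_eq_iff]
  have h3 : ∀ᶠ i in (𝒰 : Filter ℕ), p ≤ i := by
    apply h𝒰
    rw [Nat.cofinite_eq_atTop]
    exact Filter.mem_atTop p
  filter_upwards [h1, hg, h3] with i h4 h5 h6
  exact h i p h6 hp h4 (x i) h5

/-- **The compactness theorem.** -/
theorem uniform (C : ℕ → ∀ (D G : Type) [DivisionRing D] [Group G], Prop)
    (Cω : ∀ (D G : Type) [DivisionRing D] [Group G], Prop)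
    (h𝒰 : (𝒰 : Filter ℕ) ≤ Filter.cofinite)
    (hC : ∀ (D G : ℕ → Type) [∀ i, DivisionRing (D i)] [∀ i, Group (G i)],
      (∀ i, C i (D i) (G i)) → Cω (UD 𝒰 D) (UG 𝒰 G))
    (n s : ℕ)
    (h : ∀ (D G : Type) [DivisionRing D] [Group G], Cω D G →
      ∀ (E : Matrix (Fin n) (Fin n) (MonoidAlgebra D G)), E * E = E → StInd E) :
    ∃ N : ℕ, ∀ (D G : Type) [DivisionRing D] [Group G], C N D G →
      ∀ E : Matrix (Fin n) (Fin n) (MonoidAlgebra D G), E * E = E → msupp E ≤ s →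
      InducedWithin N E := by
  by_contra hcon
  push Not at hcon
  choose D G instD instG hC' E hE hs hbad using hcon
  obtain ⟨Eh, hEh⟩ := lift_mat D G s E fun i p q => (card_le_msupp (E i) p q).trans (hs i)
  have hidem : Eh.map (toU 𝒰 D G) * Eh.map (toU 𝒰 D G) = Eh.map (toU 𝒰 D G) := by
    rw [← Matrix.map_mul, toU_mat_iff]
    refine Eventually.of_forall fun i => ?_
    rw [Matrix.map_mul, hEh, hE]
  obtain ⟨N, a, ha, b, hb, A, B, U, V, hA, hB, _, _, hUV, hVU⟩ :=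
    h _ _ (hC D G hC') (Eh.map (toU 𝒰 D G)) hidem
  have hlf : ∀ {ι κ : Type} (X : Matrix ι κ (MonoidAlgebra (UD 𝒰 D) (UG 𝒰 G))),
      (X.map (lf 𝒰 D G)).map (toU 𝒰 D G) = X := by
    intro ι κ X
    ext1 p q
    exact toU_lf 𝒰 D G (X p q)
  have h1 : ∀ᶠ i in (𝒰 : Filter ℕ), (U.map (lf 𝒰 D G) * V.map (lf 𝒰 D G)).map (ev D G i)
      = (fromBlocks Eh 0 0 (A.map (lf 𝒰 D G)) :
        Matrix (Fin n ⊕ Fin a) (Fin n ⊕ Fin a) _).map (ev D G i) := by
    rw [← toU_mat_iff, Matrix.map_mul, Matrix.fromBlocks_map, hlf, hlf, hlf, hUV,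
      Matrix.map_zero _ (map_zero (toU 𝒰 D G)), Matrix.map_zero _ (map_zero (toU 𝒰 D G))]
  have h2 : ∀ᶠ i in (𝒰 : Filter ℕ), (V.map (lf 𝒰 D G) * U.map (lf 𝒰 D G)).map (ev D G i)
      = (B.map (lf 𝒰 D G)).map (ev D G i) := by
    rw [← toU_mat_iff, Matrix.map_mul, hlf, hlf, hlf, hVU]
  have h3 : ∀ᶠ i in (𝒰 : Filter ℕ), N + (∑ p, ∑ q, (U.map (lf 𝒰 D G) p q).coeff.support.card) +
      (∑ p, ∑ q, (V.map (lf 𝒰 D G) p q).coeff.support.card) ≤ i := by
    apply h𝒰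
    rw [Nat.cofinite_eq_atTop]
    exact Filter.mem_atTop _
  obtain ⟨i, hi1, hi2, hi3, hi4, hi5⟩ := (h1.and (h2.and (h3.and
    ((finiteBlocks_ev 𝒰 D G hA).and (finiteBlocks_ev 𝒰 D G hB))))).exists
  rw [Matrix.map_mul, Matrix.fromBlocks_map, hEh, Matrix.map_zero _ (map_zero (ev D G i)),
    Matrix.map_zero _ (map_zero (ev D G i))] at hi1
  rw [Matrix.map_mul] at hi2
  exact hbad i ⟨a, by omega, b, by omega, _, _, _, _, hi4.mono (by omega), hi5.mono (by omega),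
    (msupp_ev D G _ i).trans (by omega), (msupp_ev D G _ i).trans (by omega), hi1, hi2⟩

end unif

end Pool.Agent.K6.H28.GR
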