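import Pool.Agent.K6.H28.GR.Tors
import Pool.Agent.K6.H28.GR.NilK
import Pool.Agent.K6.H28.GR.Unif

set_option autoImplicit false

/-! # Nilpotent groups: projective modules are stably induced from finite subgroups -/

namespace Pool.Agent.K6.H28.GR

open Matrix

/-- all idempotent matrices are stably induced from one finite subgroup -/
def IndT (D G : Type) [DivisionRing D] [Group G] : Prop :=
  ∀ (n : ℕ) (E : Matrix (Fin n) (Fin n) (MonoidAlgebra D G)), E * E = E →
    ∃ (T : Subgroup G) (_ : Finite T) (a b : ℕ) (A : Matrix (Fin a) (Fin a) (MonoidAlgebra D T))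
      (B : Matrix (Fin b) (Fin b) (MonoidAlgebra D T))
      (U : Matrix (Fin n ⊕ Fin a) (Fin b) (MonoidAlgebra D G))
      (V : Matrix (Fin b) (Fin n ⊕ Fin a) (MonoidAlgebra D G)),
      A * A = A ∧ B * B = B ∧ U * V = fromBlocks E 0 0 (A.map (gr D T.subtype)) ∧
        V * U = B.map (gr D T.subtype)

theorem rowM_module {L : Type} [Ring L] {n : ℕ} (E : Matrix (Fin n) (Fin n) L) (hE : E * E = E) :
    Module.Finite L (rowM E) ∧ Module.Projective L (rowM E) := by
  refine ⟨inferInstance, ?_⟩
  refine Module.Projective.of_split (rowM E).subtype (E.vecMulLinear.rangeRestrict) ?_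
  ext1 v
  apply Subtype.ext
  exact (mem_rowM hE _).1 v.2

theorem exists_fin_of_Pj {Λ T G : Type} [Ring Λ] [Group T] [Group G] (j : T →* G) {M : Type}
    [AddCommGroup M] [Module (MonoidAlgebra Λ G) M] (h : Pj Λ j M) :
    ∃ (a : ℕ) (A : Matrix (Fin a) (Fin a) (MonoidAlgebra Λ T)), A * A = A ∧
      Nonempty (M ≃ₗ[MonoidAlgebra Λ G] rowM (A.map (gr Λ j))) := by
  obtain ⟨ι, i1, A, hA, ⟨e⟩⟩ := h
  let f : ι ≃ Fin (Fintype.card ι) := Fintype.equivFin ι
  obtain ⟨e'⟩ := rowM_reindex (map_idem (gr Λ j) hA) f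
  exact ⟨Fintype.card ι, A.submatrix f.symm f.symm, reindex_idem hA f, ⟨e.trans e'⟩⟩

theorem indT_of_regT {D G : Type} [DivisionRing D] [Group G] (T : Subgroup G) (hT : Finite T)
    (h : RegT D T.subtype) : IndT D G := by
  intro n E hE
  obtain ⟨h1, h2⟩ := rowM_module E hE
  obtain ⟨c, hc⟩ := h.2 (rowM E) h1
  obtain ⟨Q, i1, i2, Q', i3, i4, hQ, hQ', ⟨e⟩⟩ := stably_of_FRp (good_Pj D T.subtype) c _ h2 hc
  obtain ⟨a, A, hA, ⟨eA⟩⟩ := exists_fin_of_Pj T.subtype hQ
  obtain ⟨b, B, hB, ⟨eB⟩⟩ := exists_fin_of_Pj T.subtype hQ'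
  obtain ⟨e1⟩ := rowM_blocks E (A.map (gr D T.subtype))
  obtain ⟨U, V, h3, h4⟩ := of_rowM_equiv (fromBlocks E 0 0 (A.map (gr D T.subtype)))
    (B.map (gr D T.subtype)) (blocks_idem hE (map_idem _ hA)) (map_idem _ hB)
    (e1.symm.trans (((LinearEquiv.refl _ _).prodCongr eA.symm).trans (e.trans eB)))
  exact ⟨T, hT, a, b, A, B, U, V, hA, hB, h3, h4⟩

/-- passing to a central extension by a group of order `p`, in characteristic `p` -/
theorem indT_central {D G Q : Type} [DivisionRing D] [Group G] [Group Q] (π : G →* Q)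
    (hπ : Function.Surjective π) (z : G) (hz : ∀ g, z * g = g * z) (hz1 : π z = 1)
    (hker : ∀ g, π g = 1 → g ∈ Subgroup.zpowers z) (p : ℕ) (hp : p.Prime) (hzp : z ^ p = 1)
    (hD : (p : D) = 0) (h : IndT D Q) : IndT D G := by
  intro n E hE
  have hG := nilMap_central D π z p hπ hz hker hp hzp hD
  have hE' : E.map (gr D π) * E.map (gr D π) = E.map (gr D π) := map_idem _ hE
  obtain ⟨T', hT', a, b, A', B', U', V', hA', hB', h1, h2⟩ := h n _ hE'
  let T : Subgroup G := T'.comap π
  have hzf : (Subgroup.zpowers z : Set G).Finite := by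
    have h3 : IsOfFinOrder z := isOfFinOrder_iff_pow_eq_one.2 ⟨p, hp.pos, hzp⟩
    exact finite_zpowers.2 h3
  have hTf : (T : Set G).Finite := by
    change (π ⁻¹' (T' : Set Q)).Finite
    refine Set.Finite.preimage' (show (T' : Set Q).Finite from hT') fun q _ => ?_
    obtain ⟨g, rfl⟩ := hπ q
    refine Set.Finite.subset (hzf.image fun x => g * x) ?_
    intro x hx
    have hx' : π x = π g := hx
    refine ⟨g⁻¹ * x, hker _ ?_, mul_inv_cancel_left g x⟩
    rw [map_mul, map_inv, hx', inv_mul_cancel]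
  have hT : Finite T := hTf
  let πT : T →* T' := (π.comp T.subtype).codRestrict T' fun g => g.2
  have hπT : T'.subtype.comp πT = π.comp T.subtype := by
    ext x
    rfl
  let zT : T := ⟨z, by
    change π z ∈ T'
    rw [hz1]
    exact T'.one_mem⟩
  have hTN : NilMap (gr D πT) (MonoidAlgebra.single zT 1 - 1) p := by
    refine nilMap_central D πT zT p ?_ ?_ ?_ hp ?_ hD
    · rintro ⟨q, hq⟩
      obtain ⟨g, rfl⟩ := hπ q
      exact ⟨⟨g, hq⟩, rfl⟩
    · intro g
      apply Subtype.ext
      exact hz g.1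
    · intro g hg
      have h3 : π g.1 = 1 := congrArg Subtype.val hg
      obtain ⟨i, hi⟩ := Subgroup.mem_zpowers_iff.1 (hker g.1 h3)
      refine Subgroup.mem_zpowers_iff.2 ⟨i, ?_⟩
      apply Subtype.ext
      rw [Subgroup.coe_zpow]
      exact hi
    · apply Subtype.ext
      exact hzp
  obtain ⟨A, hA, hAA'⟩ := hTN.idem_lift hA'
  obtain ⟨B, hB, hBB'⟩ := hTN.idem_lift hB'
  have hmap : ∀ {ι : Type} (X : Matrix ι ι (MonoidAlgebra D T)),
      (X.map (gr D T.subtype)).map (gr D π) = (X.map (gr D πT)).map (gr D T'.subtype) := by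
    intro ι X
    rw [map_gr_comp, map_gr_comp, hπT]
  obtain ⟨U, V, h3, h4⟩ := hG.equiv_lift (e := fromBlocks E 0 0 (A.map (gr D T.subtype)))
    (f := B.map (gr D T.subtype)) (blocks_idem hE (map_idem _ hA)) (map_idem _ hB) U' V' (by
      rw [h1, Matrix.fromBlocks_map, hmap, hAA', Matrix.map_zero _ (map_zero (gr D π)),
        Matrix.map_zero _ (map_zero (gr D π))]) (by rw [h2, hmap, hBB'])
  exact ⟨T, hT, a, b, A, B, U, V, hA, hB, h3, h4⟩

/-- **f.g. nilpotent groups, arbitrary division rings.** -/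
theorem indT_nilpotent (D : Type) [DivisionRing D] : ∀ (m : ℕ) (G : Type) [Group G]
    [Group.IsNilpotent G], Group.FG G → Nat.card {g : G // IsOfFinOrder g} = m → IndT D G := by
  intro m
  induction m using Nat.strong_induction_on with
  | _ m ih =>
    intro G _ _ hFG hm
    by_cases hgood : ∀ p : ℕ, p.Prime → (p : D) = 0 → ∀ g : G, g ^ p = 1 → g = 1
    · obtain ⟨T, hT, h⟩ := RegT_nilpotent D G hFG hgood
      exact indT_of_regT T hT h
    · push Not at hgood
      obtain ⟨p, hp, hD, g, hg, hg1⟩ := hgood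
      have h1 : ∃ z ∈ Subgroup.center G, z ^ p = 1 ∧ z ≠ 1 := by
        by_contra hcon
        push Not at hcon
        exact hg1 (Pool.Agent.Helper111.EN.tf_of_center p G hcon g hg)
      obtain ⟨z, hz, hzp, hz1⟩ := h1
      have hcen : ∀ g, z * g = g * z := fun g => (Subgroup.mem_center_iff.1 hz g).symm
      have hN : (Subgroup.zpowers z).Normal := by
        refine ⟨fun y hy g => ?_⟩
        have h2 : y ∈ Subgroup.center G := (Subgroup.zpowers_le.2 hz) hy
        rw [Subgroup.mem_center_iff.1 h2 g, mul_inv_cancel_right]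
        exact hy
      let π := QuotientGroup.mk' (Subgroup.zpowers z)
      have hker : ∀ g, π g = 1 ↔ g ∈ Subgroup.zpowers z := fun g => by
        rw [QuotientGroup.mk'_apply, QuotientGroup.eq_one_iff]
      -- finiteness of the torsion
      obtain ⟨T, hTn, hTf, htf, _⟩ := exists_torsion G hFG
      have hfin : Finite {g : G // IsOfFinOrder g} := by
        refine Set.Finite.subset hTf ?_
        intro x hx
        have h2 := htf (QuotientGroup.mk' T x) ((QuotientGroup.mk' T).isOfFinOrder hx)
        rw [QuotientGroup.mk'_apply, QuotientGroup.eq_one_iff] at h2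
        exact h2
      let θ : {g : G // IsOfFinOrder g} → {g : G ⧸ Subgroup.zpowers z // IsOfFinOrder g} :=
        fun g => ⟨π g.1, π.isOfFinOrder g.2⟩
      have hθs : Function.Surjective θ := by
        rintro ⟨q, hq⟩
        obtain ⟨x, rfl⟩ := QuotientGroup.mk'_surjective _ q
        refine ⟨⟨x, ?_⟩, rfl⟩
        obtain ⟨k, hk, hxk⟩ := isOfFinOrder_iff_pow_eq_one.1 hq
        rw [← map_pow] at hxk
        obtain ⟨i, hi⟩ := Subgroup.mem_zpowers_iff.1 ((hker _).1 hxk)
        refine isOfFinOrder_iff_pow_eq_one.2 ⟨k * p, Nat.mul_pos hk hp.pos, ?_⟩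
        rw [pow_mul, ← hi, ← zpow_natCast, ← _root_.zpow_mul, mul_comm, _root_.zpow_mul, zpow_natCast, hzp,
          _root_.one_zpow]
      have hθi : ¬ Function.Injective θ := by
        intro hinj
        have h2 : (⟨z, isOfFinOrder_iff_pow_eq_one.2 ⟨p, hp.pos, hzp⟩⟩ : {g : G // IsOfFinOrder g})
            = ⟨1, IsOfFinOrder.one⟩ := by
          apply hinj
          apply Subtype.ext
          change π z = π 1
          rw [map_one, hker]
          exact Subgroup.mem_zpowers z
        exact hz1 (congrArg Subtype.val h2)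
      have hlt : Nat.card {g : G ⧸ Subgroup.zpowers z // IsOfFinOrder g} < m := by
        have hfin' : Finite {g : G ⧸ Subgroup.zpowers z // IsOfFinOrder g} :=
          Finite.of_surjective θ hθs
        have i1 := Fintype.ofFinite {g : G // IsOfFinOrder g}
        have i2 := Fintype.ofFinite {g : G ⧸ Subgroup.zpowers z // IsOfFinOrder g}
        rw [← hm, Nat.card_eq_fintype_card, Nat.card_eq_fintype_card]
        exact Fintype.card_lt_of_surjective_not_injective θ hθs hθi
      refine indT_central π (QuotientGroup.mk'_surjective _) z hcen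
        ((hker z).2 (Subgroup.mem_zpowers z)) (fun g hg => (hker g).1 hg) p hp hzp hD
        (ih _ hlt (G ⧸ Subgroup.zpowers z) (QuotientGroup.fg _) rfl)

section general

variable {D : Type} [DivisionRing D]

/-- matrices induced from a finite group -/
theorem finiteBlocks_map {T G : Type} [Group T] [Group G] [hT : Finite T] (j : T →* G) {a : ℕ}
    {A : Matrix (Fin a) (Fin a) (MonoidAlgebra D T)} (hA : A * A = A) :
    FiniteBlocks (Nat.card T) (A.map (gr D j)) := by
  classical
  refine ⟨map_idem _ hA, fun _ => j.range, fun _ => ⟨?_, ?_⟩, fun p q _ => ⟨rfl, ?_⟩⟩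
  · exact Finite.of_surjective j.rangeRestrict j.rangeRestrict_surjective
  · exact Nat.card_le_card_of_surjective j.rangeRestrict j.rangeRestrict_surjective
  · intro g hg
    have h1 : g ∈ (MonoidAlgebra.mapDomain j (A p q)).coeff.support := hg
    rw [MonoidAlgebra.mapDomain] at h1
    obtain ⟨t, _, rfl⟩ := Finset.mem_image.1 (Finsupp.mapDomain_support h1)
    exact ⟨t, rfl⟩

/-- a matrix over a group ring comes from a finitely generated subgroup -/
theorem exists_fg {G : Type} [Group G] {ι κ : Type} [Fintype ι] [Fintype κ]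
    (A : Matrix ι κ (MonoidAlgebra D G)) :
    ∃ (H : Subgroup G) (_ : Group.FG H) (B : Matrix ι κ (MonoidAlgebra D H)),
      B.map (gr D H.subtype) = A := by
  classical
  let S : Finset G := Finset.univ.biUnion fun p : ι =>
    Finset.univ.biUnion fun q : κ => (A p q).coeff.support
  let H : Subgroup G := Subgroup.closure (S : Set G)
  have hS : ∀ p q, ∀ g ∈ (A p q).coeff.support, g ∈ H := by
    intro p q g hg
    apply Subgroup.subset_closure
    rw [Finset.mem_coe]
    simp only [S, Finset.mem_biUnion]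
    exact ⟨p, Finset.mem_univ _, q, Finset.mem_univ _, hg⟩
  refine ⟨H, (Group.fg_iff_subgroup_fg _).2 ⟨S, rfl⟩,
    fun p q => ∑ g ∈ (A p q).coeff.support.attach,
      MonoidAlgebra.single ⟨g.1, hS p q g.1 g.2⟩ ((A p q).coeff g.1), ?_⟩
  ext1 p q
  change gr D H.subtype (∑ g ∈ (A p q).coeff.support.attach,
      MonoidAlgebra.single ⟨g.1, hS p q g.1 g.2⟩ ((A p q).coeff g.1)) = A p q
  rw [map_sum]
  conv_rhs => rw [eq_sum (A p q), ← Finset.sum_attach]
  refine Finset.sum_congr rfl fun g _ => ?_
  exact MonoidAlgebra.mapDomain_single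

/-- **Nilpotent groups, arbitrary division rings.** -/
theorem stInd_nilpotent (G : Type) [Group G] [Group.IsNilpotent G] {n : ℕ}
    (E : Matrix (Fin n) (Fin n) (MonoidAlgebra D G)) (hE : E * E = E) : StInd E := by
  obtain ⟨H, hH, E', hE'⟩ := exists_fg E
  have hinj : Function.Injective (gr D H.subtype) :=
    MonoidAlgebra.mapDomain_injective Subtype.val_injective
  have hidem : E' * E' = E' := by
    have h1 : ∀ X Y : Matrix (Fin n) (Fin n) (MonoidAlgebra D H),
        X.map (gr D H.subtype) = Y.map (gr D H.subtype) → X = Y := by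
      intro X Y h
      ext1 p q
      exact hinj (congrFun (congrFun h p) q)
    apply h1
    rw [Matrix.map_mul, hE', hE]
  obtain ⟨T, hT, a, b, A, B, U, V, hA, hB, h1, h2⟩ :=
    indT_nilpotent D _ H hH rfl n E' hidem
  refine stInd_of (finiteBlocks_map (H.subtype.comp T.subtype) hA)
    (finiteBlocks_map (H.subtype.comp T.subtype) hB) (U.map (gr D H.subtype))
    (V.map (gr D H.subtype)) ?_ ?_
  · rw [← Matrix.map_mul, h1, Matrix.fromBlocks_map, hE', map_gr_comp,
      Matrix.map_zero _ (map_zero (gr D H.subtype)), Matrix.map_zero _ (map_zero (gr D H.subtype))]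
  · rw [← Matrix.map_mul, h2, map_gr_comp]

end general

end Pool.Agent.K6.H28.GR
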