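import Pool.Agent.K6.H28.GR.FRp
import Pool.Agent.K6.H28.GR.Grad

set_option autoImplicit false

/-! # Row modules of idempotent matrices, modules induced from a subgroup -/

namespace Pool.Agent.K6.H28.GR

open Matrix

section row

variable {L : Type} [Ring L] {ι κ : Type} [Fintype ι] [Fintype κ]

/-- the row module of a square matrix -/
abbrev rowM (A : Matrix ι ι L) : Submodule L (ι → L) := LinearMap.range A.vecMulLinear

theorem mem_rowM {A : Matrix ι ι L} (hA : A * A = A) (v : ι → L) : v ∈ rowM A ↔ v ᵥ* A = v := by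
  constructor
  · rintro ⟨x, rfl⟩
    rw [Matrix.vecMulLinear_apply, Matrix.vecMul_vecMul, hA]
  · intro h
    exact ⟨v, h⟩

/-- first isomorphism theorem, for two surjections with the same kernel -/
theorem equiv_of_ker {X Y Z : Type} [AddCommGroup X] [Module L X] [AddCommGroup Y] [Module L Y]
    [AddCommGroup Z] [Module L Z] (f : X →ₗ[L] Y) (g : X →ₗ[L] Z) (hf : Function.Surjective f)
    (hg : Function.Surjective g) (h : LinearMap.ker f = LinearMap.ker g) :
    Nonempty (Y ≃ₗ[L] Z) :=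
  ⟨(f.quotKerEquivOfSurjective hf).symm.trans
    ((Submodule.quotEquivOfEq _ _ h).trans (g.quotKerEquivOfSurjective hg))⟩

theorem rowM_one [DecidableEq ι] : Nonempty ((ι → L) ≃ₗ[L] rowM (1 : Matrix ι ι L)) := by
  have h : rowM (1 : Matrix ι ι L) = ⊤ := by
    rw [eq_top_iff]
    rintro v -
    exact ⟨v, by rw [Matrix.vecMulLinear_apply, Matrix.vecMul_one]⟩
  rw [h]
  exact ⟨Submodule.topEquiv.symm⟩

/-- equivalent idempotents have isomorphic row modules -/
theorem rowM_equiv_of (A : Matrix ι ι L) (B : Matrix κ κ L) (hA : A * A = A) (hB : B * B = B)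
    (U : Matrix ι κ L) (V : Matrix κ ι L) (h1 : U * V = A) (h2 : V * U = B) :
    Nonempty (rowM A ≃ₗ[L] rowM B) := by
  have hU : ∀ v ∈ rowM A, v ᵥ* U ∈ rowM B := by
    intro v hv
    rw [mem_rowM hB]
    have h3 := (mem_rowM hA v).1 hv
    conv_lhs => rw [← h3, ← h1, ← h2]
    rw [Matrix.vecMul_vecMul, Matrix.vecMul_vecMul]
    have h4 : U * V * (U * (V * U)) = U * V * U := by
      have : U * V * (U * (V * U)) = (U * V) * (U * V) * U := by
        simp only [Matrix.mul_assoc]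
      rw [this, h1, hA]
    rw [h4, ← Matrix.vecMul_vecMul, h1, h3]
  have hV : ∀ v ∈ rowM B, v ᵥ* V ∈ rowM A := by
    intro v hv
    rw [mem_rowM hA]
    have h3 := (mem_rowM hB v).1 hv
    conv_lhs => rw [← h3, ← h1, ← h2]
    rw [Matrix.vecMul_vecMul, Matrix.vecMul_vecMul]
    have h4 : V * U * (V * (U * V)) = V * U * V := by
      have : V * U * (V * (U * V)) = (V * U) * (V * U) * V := by
        simp only [Matrix.mul_assoc]
      rw [this, h2, hB]
    rw [h4, ← Matrix.vecMul_vecMul, h2, h3]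
  refine ⟨LinearEquiv.ofLinearMap (U.vecMulLinear.restrict hU) (V.vecMulLinear.restrict hV) ?_ ?_⟩
  · ext1 v
    apply Subtype.ext
    change (v.1 ᵥ* V) ᵥ* U = v.1
    rw [Matrix.vecMul_vecMul, h2]
    exact (mem_rowM hB _).1 v.2
  · ext1 v
    apply Subtype.ext
    change (v.1 ᵥ* U) ᵥ* V = v.1
    rw [Matrix.vecMul_vecMul, h1]
    exact (mem_rowM hA _).1 v.2

/-- idempotents with isomorphic row modules are equivalent -/
theorem of_rowM_equiv (A : Matrix ι ι L) (B : Matrix κ κ L) (hA : A * A = A) (hB : B * B = B)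
    (e : rowM A ≃ₗ[L] rowM B) : ∃ (U : Matrix ι κ L) (V : Matrix κ ι L), U * V = A ∧ V * U = B := by
  classical
  let F : (ι → L) →ₗ[L] (κ → L) := (rowM B).subtype ∘ₗ e.toLinearMap ∘ₗ A.vecMulLinear.rangeRestrict
  let H : (κ → L) →ₗ[L] (ι → L) := (rowM A).subtype ∘ₗ e.symm.toLinearMap ∘ₗ
    B.vecMulLinear.rangeRestrict
  let U : Matrix ι κ L := fun i => F (Pi.single i 1)
  let V : Matrix κ ι L := fun i => H (Pi.single i 1)
  have hU : ∀ w, w ᵥ* U = F w := by
    intro w
    have h1 : U.vecMulLinear = F := by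
      apply (Pi.basisFun L _).ext
      intro j
      rw [Matrix.vecMulLinear_apply, Pi.basisFun_apply, Matrix.single_one_vecMul]
      rfl
    exact LinearMap.congr_fun h1 w
  have hV : ∀ w, w ᵥ* V = H w := by
    intro w
    have h1 : V.vecMulLinear = H := by
      apply (Pi.basisFun L _).ext
      intro j
      rw [Matrix.vecMulLinear_apply, Pi.basisFun_apply, Matrix.single_one_vecMul]
      rfl
    exact LinearMap.congr_fun h1 w
  have hBr : ∀ x : rowM B, B.vecMulLinear.rangeRestrict x.1 = x := fun x =>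
    Subtype.ext ((mem_rowM hB _).1 x.2)
  have hAr : ∀ x : rowM A, A.vecMulLinear.rangeRestrict x.1 = x := fun x =>
    Subtype.ext ((mem_rowM hA _).1 x.2)
  have hHF : ∀ w, H (F w) = w ᵥ* A := by
    intro w
    change (e.symm (B.vecMulLinear.rangeRestrict (e (A.vecMulLinear.rangeRestrict w)).1)).1 = _
    rw [hBr, e.symm_apply_apply]
    rfl
  have hFH : ∀ w, F (H w) = w ᵥ* B := by
    intro w
    change (e (A.vecMulLinear.rangeRestrict (e.symm (B.vecMulLinear.rangeRestrict w)).1)).1 = _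
    rw [hAr, e.apply_symm_apply]
    rfl
  refine ⟨U, V, ?_, ?_⟩
  · ext1 i
    have h1 : (U * V) i = Pi.single i 1 ᵥ* (U * V) := by
      rw [Matrix.single_one_vecMul]; rfl
    have h2 : A i = Pi.single i 1 ᵥ* A := by
      rw [Matrix.single_one_vecMul]; rfl
    rw [h1, h2, ← Matrix.vecMul_vecMul, hU, hV, hHF]
    intro j; rfl
  · ext1 i
    have h1 : (V * U) i = Pi.single i 1 ᵥ* (V * U) := by
      rw [Matrix.single_one_vecMul]; rfl
    have h2 : B i = Pi.single i 1 ᵥ* B := by
      rw [Matrix.single_one_vecMul]; rfl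
    rw [h1, h2, ← Matrix.vecMul_vecMul, hV, hU, hFH]
    intro j; rfl

theorem blocks_idem {A : Matrix ι ι L} {B : Matrix κ κ L} (hA : A * A = A) (hB : B * B = B) :
    (fromBlocks A 0 0 B : Matrix (ι ⊕ κ) (ι ⊕ κ) L) * fromBlocks A 0 0 B = fromBlocks A 0 0 B := by
  rw [Matrix.fromBlocks_multiply]
  simp [hA, hB]

theorem rowM_blocks (A : Matrix ι ι L) (B : Matrix κ κ L) :
    Nonempty ((rowM A × rowM B) ≃ₗ[L] rowM (fromBlocks A 0 0 B)) := by
  refine equiv_of_ker
    ((A.vecMulLinear.rangeRestrict.prodMap B.vecMulLinear.rangeRestrict) ∘ₗ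
      (LinearEquiv.sumArrowLequivProdArrow ι κ L L).toLinearMap)
    (fromBlocks A 0 0 B : Matrix (ι ⊕ κ) (ι ⊕ κ) L).vecMulLinear.rangeRestrict ?_
    (LinearMap.surjective_rangeRestrict _) ?_
  · refine (Function.Surjective.prodMap (LinearMap.surjective_rangeRestrict _)
      (LinearMap.surjective_rangeRestrict _)).comp (LinearEquiv.surjective _)
  · ext w
    rw [LinearMap.mem_ker, LinearMap.ker_rangeRestrict, LinearMap.mem_ker,
      Matrix.vecMulLinear_apply, Matrix.vecMul_fromBlocks]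
    simp only [Matrix.vecMul_zero, add_zero, zero_add]
    constructor
    · intro h
      have h1 : (w ∘ Sum.inl) ᵥ* A = 0 := congrArg (fun p => (p.1 : ι → L)) h
      have h2 : (w ∘ Sum.inr) ᵥ* B = 0 := congrArg (fun p => (p.2 : κ → L)) h
      rw [h1, h2]
      funext i
      rcases i with i | i <;> rfl
    · intro h
      refine Prod.ext (Subtype.ext ?_) (Subtype.ext ?_)
      · funext i
        exact congrFun h (Sum.inl i)
      · funext i
        exact congrFun h (Sum.inr i)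

theorem compl_idem [DecidableEq ι] {A : Matrix ι ι L} (hA : A * A = A) :
    (1 - A) * (1 - A) = 1 - A := by
  rw [Matrix.mul_sub, Matrix.sub_mul, Matrix.sub_mul, hA, Matrix.mul_one, Matrix.one_mul,
    Matrix.mul_one]
  abel

theorem rowM_compl [DecidableEq ι] {A : Matrix ι ι L} (hA : A * A = A) :
    Nonempty ((rowM A × rowM (1 - A)) ≃ₗ[L] (ι → L)) := by
  have h1 : ∀ v ∈ rowM A, v ᵥ* A = v := fun v hv => (mem_rowM hA v).1 hv
  have h2 : ∀ v ∈ rowM (1 - A), v ᵥ* A = 0 := by
    intro v hv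
    have h3 := (mem_rowM (compl_idem hA) v).1 hv
    rw [Matrix.vecMul_sub, Matrix.vecMul_one] at h3
    simpa using h3
  refine ⟨LinearEquiv.ofLinearMap
    (LinearMap.coprod (rowM A).subtype (rowM (1 - A)).subtype)
    (LinearMap.prod A.vecMulLinear.rangeRestrict (1 - A).vecMulLinear.rangeRestrict) ?_ ?_⟩
  · refine LinearMap.ext fun v => ?_
    change v ᵥ* A + v ᵥ* (1 - A) = v
    rw [Matrix.vecMul_sub, Matrix.vecMul_one, add_sub_cancel]
  · ext1
    · ext1 v
      refine Prod.ext (Subtype.ext ?_) (Subtype.ext ?_)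
      · change (v.1 + (0 : ι → L)) ᵥ* A = v.1
        rw [add_zero, h1 v.1 v.2]
      · change (v.1 + (0 : ι → L)) ᵥ* (1 - A) = 0
        rw [add_zero, Matrix.vecMul_sub, Matrix.vecMul_one, h1 v.1 v.2, sub_self]
    · ext1 v
      refine Prod.ext (Subtype.ext ?_) (Subtype.ext ?_)
      · change ((0 : ι → L) + v.1) ᵥ* A = 0
        rw [zero_add, h2 v.1 v.2]
      · change ((0 : ι → L) + v.1) ᵥ* (1 - A) = v.1
        rw [zero_add, Matrix.vecMul_sub, Matrix.vecMul_one, h2 v.1 v.2, sub_zero]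

theorem reindex_idem {A : Matrix ι ι L} (hA : A * A = A) (e : ι ≃ κ) :
    A.submatrix e.symm e.symm * A.submatrix e.symm e.symm = A.submatrix e.symm e.symm := by
  rw [Matrix.submatrix_mul_equiv, hA]

theorem rowM_reindex {A : Matrix ι ι L} (hA : A * A = A) (e : ι ≃ κ) :
    Nonempty (rowM A ≃ₗ[L] rowM (A.submatrix e.symm e.symm)) := by
  refine rowM_equiv_of A (A.submatrix e.symm e.symm) hA (reindex_idem hA e)
    (A.submatrix id e.symm) (A.submatrix e.symm id) ?_ ?_
  · rw [Matrix.submatrix_mul_equiv, hA, Matrix.submatrix_id_id]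
  · rw [← Matrix.submatrix_mul _ _ _ _ _ Function.bijective_id, hA]

end row

section induced

variable (Λ : Type) [Ring Λ] {T G : Type} [Group T] [Group G] (j : T →* G)

/-- the module is induced from the group ring of `T` (along `j : T → G`) from a finitely generated
projective module -/
def Pj (M : Type) [AddCommGroup M] [Module (MonoidAlgebra Λ G) M] : Prop :=
  ∃ (ι : Type) (_ : Fintype ι) (A : Matrix ι ι (MonoidAlgebra Λ T)), A * A = A ∧
    Nonempty (M ≃ₗ[MonoidAlgebra Λ G] rowM (A.map (gr Λ j)))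

theorem map_idem {R S : Type} [Ring R] [Ring S] (φ : R →+* S) {ι : Type} [Fintype ι]
    {A : Matrix ι ι R} (hA : A * A = A) : A.map φ * A.map φ = A.map φ := by
  rw [← Matrix.map_mul, hA]

theorem good_Pj : Good (Pj Λ j) where
  equiv := by
    rintro M N _ _ _ _ e ⟨ι, i1, A, hA, ⟨e'⟩⟩
    exact ⟨ι, i1, A, hA, ⟨e.symm.trans e'⟩⟩
  prod := by
    rintro M N _ _ _ _ ⟨ι, i1, A, hA, ⟨e⟩⟩ ⟨κ, i2, B, hB, ⟨e'⟩⟩
    obtain ⟨e''⟩ := rowM_blocks (A.map (gr Λ j)) (B.map (gr Λ j))
    refine ⟨ι ⊕ κ, inferInstance, fromBlocks A 0 0 B, blocks_idem hA hB, ⟨?_⟩⟩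
    rw [Matrix.fromBlocks_map, Matrix.map_zero _ (map_zero (gr Λ j)),
      Matrix.map_zero _ (map_zero (gr Λ j))]
    exact (e.prodCongr e').trans e''
  free := by
    intro ι _
    classical
    obtain ⟨e⟩ := rowM_one (L := MonoidAlgebra Λ G) (ι := ι)
    refine ⟨ι, inferInstance, 1, one_mul _, ⟨?_⟩⟩
    rw [Matrix.map_one _ (map_zero (gr Λ j)) (map_one (gr Λ j))]
    exact e
  compl := by
    rintro M _ _ ⟨ι, i1, A, hA, ⟨e⟩⟩
    classical
    obtain ⟨e'⟩ := rowM_compl (map_idem (gr Λ j) hA)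
    refine ⟨ι, i1, rowM (1 - A.map (gr Λ j)), inferInstance, inferInstance,
      ⟨ι, i1, 1 - A, compl_idem hA, ⟨?_⟩⟩, ⟨(e.prodCongr (LinearEquiv.refl _ _)).trans e'⟩⟩
    have h1 : (1 - A).map (gr Λ j) = 1 - A.map (gr Λ j) := by
      have h2 := (gr Λ j).mapMatrix.map_sub (1 : Matrix ι ι (MonoidAlgebra Λ T)) A
      rw [map_one] at h2
      exact h2
    rw [h1]
    exact LinearEquiv.refl _ _

end induced

end Pool.Agent.K6.H28.GR
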