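import Pool.Agent.K6.H28.GR.Reg
import Pool.Agent.K6.H28.GR.Row

set_option autoImplicit false
set_option linter.unusedSectionVars false

/-! # Group rings of extensions by the integers: resolutions by modules induced from a subgroup -/

namespace Pool.Agent.K6.H28.GR

open Multiplicative Matrix

section regt

variable {Λ : Type} [Ring Λ] {T G : Type} [Group T] [Group G] {d : G →* Multiplicative ℤ} {t : G}
  (j' : T →* d.ker)

theorem map_gr_comp {G H K ι κ : Type} [Group G] [Group H] [Group K] (f : G →* H) (g : H →* K)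
    (A : Matrix ι κ (MonoidAlgebra Λ G)) :
    (A.map (gr Λ f)).map (gr Λ g) = A.map (gr Λ (g.comp f)) := by
  ext1 i j
  change gr Λ g (gr Λ f (A i j)) = gr Λ (g.comp f) (A i j)
  rw [gr, gr, gr, MonoidAlgebra.mapDomainRingHom_comp]
  rfl

theorem FRp_LK (ht : dg d t = 1) : ∀ (n : ℕ) (κ : Type) [Fintype κ]
    (K : Submodule (MonoidAlgebra Λ d.ker) (κ → MonoidAlgebra Λ d.ker)),
    FRp (Pj Λ j') n K → FRp (Pj Λ (d.ker.subtype.comp j')) n (LK ht K) := by
  intro n
  induction n with
  | zero =>
    intro κ _ K h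
    obtain ⟨ι, i1, A, hA, ⟨e⟩⟩ := h
    obtain ⟨F, hF, hk⟩ := base_step ht K
      (e.symm.toLinearMap ∘ₗ (A.map (gr Λ j')).vecMulLinear.rangeRestrict)
      (e.symm.surjective.comp (LinearMap.surjective_rangeRestrict _))
    refine ⟨ι, i1, A, hA, equiv_of_ker F
      (A.map (gr Λ (d.ker.subtype.comp j'))).vecMulLinear.rangeRestrict hF
      (LinearMap.surjective_rangeRestrict _) ?_⟩
    rw [hk]
    ext u
    rw [mem_LK, LinearMap.ker_rangeRestrict, LinearMap.mem_ker, Matrix.vecMulLinear_apply,
      ← map_gr_comp]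
    have h1 : ∀ (i : ℤ) (b : ι), cmp d t i ((u ᵥ* (A.map (gr Λ j')).map (gr Λ d.ker.subtype)) b)
        = ((fun c => cmp d t i (u c)) ᵥ* A.map (gr Λ j')) b := by
      intro i b
      rw [Matrix.vecMul, dotProduct, map_sum]
      exact Finset.sum_congr rfl fun a _ => cmp_mul_incl _ _ _
    constructor
    · intro h
      funext b
      apply ext_cmp ht
      intro i
      rw [h1]
      have h2 := LinearMap.mem_ker.1 (h i)
      have h3 : (A.map (gr Λ j')).vecMulLinear.rangeRestrict (fun c => cmp d t i (u c)) = 0 :=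
        e.symm.injective (by rw [map_zero]; exact h2)
      have h4 : (fun c => cmp d t i (u c)) ᵥ* A.map (gr Λ j') = 0 := congrArg Subtype.val h3
      rw [h4, Pi.zero_apply]
      exact (map_zero (cmp d t i)).symm
    · intro h i
      rw [LinearMap.mem_ker]
      have h4 : (fun c => cmp d t i (u c)) ᵥ* A.map (gr Λ j') = 0 := by
        funext b
        rw [← h1, h, Pi.zero_apply, map_zero]
        rfl
      have h3 : (A.map (gr Λ j')).vecMulLinear.rangeRestrict (fun c => cmp d t i (u c)) = 0 :=
        Subtype.ext h4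
      change e.symm ((A.map (gr Λ j')).vecMulLinear.rangeRestrict (fun c => cmp d t i (u c))) = 0
      rw [h3, map_zero]
  | succ n ih =>
    intro κ _ K h
    obtain ⟨ι, i1, f, hf, hK⟩ := h
    obtain ⟨F, hF, hk⟩ := base_step ht K f hf
    refine ⟨ι, i1, F, hF, ?_⟩
    rw [hk]
    exact ih ι _ hK

variable {M : Type} [AddCommGroup M] [Module (MonoidAlgebra Λ G) M] {κ : Type} [Fintype κ]

/-- the induced modules have finite free resolutions -/
theorem FRp_Dn (ht : dg d t = 1)
    (hreg : ∀ (ι : Type) [Fintype ι] (K : Submodule (MonoidAlgebra Λ d.ker) (ι → MonoidAlgebra Λ d.ker)),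
      ∃ n, FRp (Pj Λ j') n K)
    (m0 : κ → M) (n : ℕ) : ∃ c, FRp (Pj Λ (d.ker.subtype.comp j')) c (Dn Λ ht m0 n) := by
  classical
  let μ : Fin (n + 1) × κ → M := fun c =>
    (MonoidAlgebra.single (t ^ ((c.1 : ℕ) : ℤ)) 1 : MonoidAlgebra Λ G) • m0 c.2
  let Φ : (Fin (n + 1) × κ → MonoidAlgebra Λ G) →ₗ[MonoidAlgebra Λ G] Dm d M :=
    Fintype.linearCombination (MonoidAlgebra Λ G) (fun c => pt d 0 (μ c))
  have hΦ : ∀ v i, evD d i (Φ v) = (MonoidAlgebra.single (t ^ i) 1 : MonoidAlgebra Λ G) •
      ∑ c, incl d (cmp d t i (v c)) • μ c := by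
    intro v i
    rw [Fintype.linearCombination_apply, map_sum, Finset.smul_sum]
    exact Finset.sum_congr rfl fun c _ => evD_smul_pt ht _ _ _
  have hmem : ∀ v, Φ v ∈ Dn Λ ht m0 n := by
    intro v i
    change evD d i (Φ v) ∈ MJ Λ d t m0 (Set.Icc i (i + n))
    rw [hΦ, Finset.smul_sum]
    refine AddSubgroup.sum_mem _ fun c _ => ?_
    apply single_smul_MJ ht m0 (J := Set.Icc 0 (n : ℤ))
    · intro j hj
      rw [dg_zpow, ht, Set.mem_Icc] at *
      omega
    · refine ⟨fun j => if j = c.2 then incl d (cmp d t i (v c)) *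
        MonoidAlgebra.single (t ^ ((c.1 : ℕ) : ℤ)) 1 else 0, fun j => ?_, ?_⟩
      · dsimp only
        split_ifs with h
        · apply incl_mul_InD ht
          have h1 : (1 : MonoidAlgebra Λ G) ∈ InD d t {0} := by
            have := incl_mem_InD (t := t) ht (1 : MonoidAlgebra Λ d.ker)
            rwa [map_one] at this
          have h2 : MonoidAlgebra.single (t ^ ((c.1 : ℕ) : ℤ)) (1 : Λ) * (1 : MonoidAlgebra Λ G)
              ∈ InD d t (Set.Icc 0 (n : ℤ)) := by
            apply single_mul_InD ht _ _ h1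
            intro j hj
            rw [dg_zpow, ht, Set.mem_Icc]
            rw [Set.mem_singleton_iff] at hj
            have := c.1.2
            omega
          rwa [mul_one] at h2
        · exact (InD d t _).zero_mem
      · dsimp only
        rw [Finset.sum_eq_single c.2]
        · rw [if_pos rfl, mul_smul]
        · intro j _ hj
          rw [if_neg hj, zero_smul]
        · intro h
          exact absurd (Finset.mem_univ _) h
  let Φ' := Φ.codRestrict (Dn Λ ht m0 n) hmem
  have hker : LinearMap.ker Φ' = LK ht (Rl μ) := by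
    ext v
    rw [LinearMap.mem_ker, mem_LK]
    constructor
    · intro h i
      have h1 : Φ v = 0 := congrArg Subtype.val h
      have h2 := hΦ v i
      rw [h1, map_zero] at h2
      exact single_smul_inj _ _ h2.symm
    · intro h
      apply Subtype.ext
      apply Dm_ext
      intro i
      change evD d i (Φ v) = evD d i 0
      rw [hΦ, (mem_Rl μ _).1 (h i), smul_zero, map_zero]
  have hsurj : Function.Surjective Φ' := by
    rintro ⟨f, hf⟩
    have hf' : ∀ i, ∃ x : κ → MonoidAlgebra Λ G, (∀ j, x j ∈ InD d t (Set.Icc i (i + n))) ∧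
      evD d i f = ∑ j, x j • m0 j := fun i => (mem_Dn ht m0 n f).1 hf i
    choose x hx hfx using hf'
    choose r hr using fun i j => exists_pull ht n i (x i j) (hx i j)
    obtain ⟨I, hI⟩ := Dm_fin f
    refine ⟨fun c => ∑ i ∈ I, MonoidAlgebra.single (t ^ i) 1 * incl d (r i c.2 c.1), ?_⟩
    apply Subtype.ext
    apply Dm_ext
    intro i
    change evD d i (Φ _) = evD d i f
    rw [hΦ]
    have h2 : ∀ c : Fin (n + 1) × κ, cmp d t i
        (∑ i ∈ I, MonoidAlgebra.single (t ^ i) 1 * incl d (r i c.2 c.1))
        = if i ∈ I then r i c.2 c.1 else 0 := by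
      intro c
      rw [map_sum]
      simp only [cmp_tpow_incl ht]
      rw [Finset.sum_ite_eq]
    simp only [h2]
    by_cases hi : i ∈ I
    · simp only [if_pos hi]
      rw [hfx i, Fintype.sum_prod_type_right, Finset.smul_sum]
      refine Finset.sum_congr rfl fun j _ => ?_
      rw [hr i j, mul_smul, Finset.sum_smul]
      congr 1
      refine Finset.sum_congr rfl fun a _ => ?_
      rw [mul_smul]
    · simp only [if_neg hi]
      rw [hI i hi]
      simp
  obtain ⟨c, hc⟩ := hreg _ (Rl μ)
  refine ⟨c + 1, _, inferInstance, Φ', hsurj, ?_⟩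
  rw [hker]
  exact FRp_LK j' ht c _ _ hc


/-- the exact sequence `0 → D(n) → D(n+1) → M → 0` and its consequence -/
theorem FRp_of_pieces (ht : dg d t = 1) [IsNoetherianRing (MonoidAlgebra Λ G)]
    (hreg : ∀ (ι : Type) [Fintype ι] (K : Submodule (MonoidAlgebra Λ d.ker) (ι → MonoidAlgebra Λ d.ker)),
      ∃ n, FRp (Pj Λ j') n K)
    (m0 : κ → M) (hm0 : ∀ m : M, ∃ x : κ → MonoidAlgebra Λ G, m = ∑ j, x j • m0 j) :
    ∃ c, FRp (Pj Λ (d.ker.subtype.comp j')) c M := by
  classical
  obtain ⟨n, hn⟩ := mid_MJ (Λ := Λ) (d := d) ht m0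
  obtain ⟨a, ha⟩ := FRp_Dn j' ht hreg m0 n
  obtain ⟨b, hb⟩ := FRp_Dn j' ht hreg m0 (n + 1)
  have hdl : ∀ f ∈ Dn Λ ht m0 (n : ℤ), dl Λ d M f ∈ Dn Λ ht m0 ((n + 1 : ℕ) : ℤ) := by
    intro f hf i
    have h1 := (mem_Dn ht m0 _ f).1 hf
    change evD d i (dl Λ d M f) ∈ MJ Λ d t m0 (Set.Icc i (i + ((n + 1 : ℕ) : ℤ)))
    rw [evD_dl]
    refine AddSubgroup.sub_mem _ (MJ_mono m0 ?_ (h1 i)) (MJ_mono m0 ?_ (h1 (i + 1)))
    · intro j hj
      rw [Set.mem_Icc] at *
      push_cast
      omega
    · intro j hj
      rw [Set.mem_Icc] at *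
      push_cast
      omega
  let f : Dn Λ ht m0 (n : ℤ) →ₗ[MonoidAlgebra Λ G] Dn Λ ht m0 ((n + 1 : ℕ) : ℤ) :=
    (dl Λ d M).restrict hdl
  let g : Dn Λ ht m0 ((n + 1 : ℕ) : ℤ) →ₗ[MonoidAlgebra Λ G] M := (sg Λ d M) ∘ₗ Submodule.subtype _
  refine FRp_quot (good_Pj Λ _) f g ?_ ?_ ?_ ha hb
  · intro x y hxy
    apply Subtype.ext
    exact (dl_injective : Function.Injective (dl Λ d M)) (congrArg Subtype.val hxy)
  · have hr : LinearMap.range g = ⊤ := by
      rw [eq_top_iff]
      rintro m -
      obtain ⟨x, rfl⟩ := hm0 m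
      refine Submodule.sum_mem _ fun j _ => Submodule.smul_mem _ _ ?_
      have hpt : pt d 0 (m0 j) ∈ Dn Λ ht m0 ((n + 1 : ℕ) : ℤ) := ?_
      · exact ⟨⟨pt d 0 (m0 j), hpt⟩, sg_pt (Λ := Λ) (d := d) 0 (m0 j)⟩
      intro i
      change evD d i (pt d 0 (m0 j)) ∈ MJ Λ d t m0 (Set.Icc i (i + ((n + 1 : ℕ) : ℤ)))
      rw [evD_pt]
      split_ifs with h
      · refine ⟨fun j' => if j' = j then 1 else 0, fun j' => ?_, ?_⟩
        · dsimp only
          split_ifs
          · have h1 : (1 : MonoidAlgebra Λ G) ∈ InD d t {0} := by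
              have := incl_mem_InD (t := t) ht (1 : MonoidAlgebra Λ d.ker)
              rwa [map_one] at this
            refine InD_mono ?_ h1
            intro z hz
            rw [Set.mem_singleton_iff] at hz
            rw [Set.mem_Icc]
            push_cast
            omega
          · exact (InD d t _).zero_mem
        · simp
      · exact AddSubgroup.zero_mem _
    exact LinearMap.range_eq_top.1 hr
  · rintro ⟨y, hy⟩
    constructor
    · intro h
      have hy' := (mem_Dn ht m0 _ y).1 hy
      obtain ⟨I, hI⟩ := Dm_fin y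
      have hsum : ∑ i ∈ I, evD d i y = 0 := by
        rw [← sg_eq (Λ := Λ) y I hI]
        exact h
      obtain ⟨lo, hlo⟩ : ∃ lo : ℤ, ∀ i ∈ I, lo ≤ i := by
        refine ⟨-((I.sup fun i => i.natAbs : ℕ) : ℤ), fun i hi => ?_⟩
        have : i.natAbs ≤ I.sup fun i => i.natAbs := Finset.le_sup (f := fun i : ℤ => i.natAbs) hi
        omega
      let F : Dm d M := ∑ j ∈ I, ∑ i ∈ Finset.Icc lo j, pt d i (evD d j y)
      have hF : ∀ i, evD d i F = ∑ j ∈ I, if i ≤ j then evD d j y else 0 := by
        intro i
        have h1 : evD d i F = ∑ j ∈ I, if lo ≤ i ∧ i ≤ j then evD d j y else 0 := by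
          simp only [F]
          rw [map_sum]
          refine Finset.sum_congr rfl fun j _ => ?_
          rw [map_sum]
          simp only [evD_pt]
          rw [Finset.sum_ite_eq']
          simp only [Finset.mem_Icc]
        rw [h1]
        by_cases h2 : lo ≤ i
        · refine Finset.sum_congr rfl fun j _ => ?_
          simp only [h2, true_and]
        · have h3 : ∀ j ∈ I, (if i ≤ j then evD d j y else 0) = evD d j y := fun j hj =>
            if_pos (by have := hlo j hj; omega)
          rw [Finset.sum_congr rfl h3, hsum]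
          refine Finset.sum_eq_zero fun j _ => if_neg fun h => h2 h.1
      have hFmem : F ∈ Dn Λ ht m0 (n : ℤ) := by
        intro i
        change evD d i F ∈ MJ Λ d t m0 (Set.Icc i (i + (n : ℤ)))
        apply hn n le_rfl
        · rw [hF]
          refine AddSubgroup.sum_mem _ fun j _ => ?_
          split_ifs with h1
          · refine MJ_mono m0 ?_ (hy' j)
            intro z hz
            rw [Set.mem_Icc] at hz
            rw [Set.mem_Ici]
            omega
          · exact AddSubgroup.zero_mem _
        · have h2 : evD d i F = -∑ j ∈ I, if i ≤ j then 0 else evD d j y := by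
            rw [hF, eq_neg_iff_add_eq_zero, ← Finset.sum_add_distrib]
            refine (Finset.sum_congr rfl fun j _ => ?_).trans hsum
            split_ifs <;> simp
          rw [h2]
          refine AddSubgroup.neg_mem _ (AddSubgroup.sum_mem _ fun j _ => ?_)
          split_ifs with h1
          · exact AddSubgroup.zero_mem _
          · refine MJ_mono m0 ?_ (hy' j)
            intro z hz
            rw [Set.mem_Icc] at hz
            push_cast at hz
            rw [Set.mem_Iic]
            omega
      refine ⟨⟨F, hFmem⟩, ?_⟩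
      apply Subtype.ext
      change dl Λ d M F = y
      apply Dm_ext
      intro i
      rw [evD_dl, hF, hF, ← Finset.sum_sub_distrib]
      have h1 : ∀ j ∈ I, ((if i ≤ j then evD d j y else 0) - if i + 1 ≤ j then evD d j y else 0)
          = if i = j then evD d j y else 0 := by
        intro j _
        rcases lt_trichotomy i j with h | h | h
        · rw [if_pos (by omega), if_pos (by omega), if_neg (by omega), sub_self]
        · rw [if_pos (by omega), if_neg (by omega), if_pos h, sub_zero]
        · rw [if_neg (by omega), if_neg (by omega), if_neg (by omega), sub_self]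
      rw [Finset.sum_congr rfl h1, Finset.sum_ite_eq]
      split_ifs with h
      · rfl
      · exact (hI i h).symm
    · rintro ⟨x, hx⟩
      have h1 : dl Λ d M x.1 = y := congrArg Subtype.val hx
      change sg Λ d M y = 0
      rw [← h1]
      -- the sum of a difference is zero
      have h2 : ∀ z : Dm d M, sg Λ d M (dl Λ d M z) = 0 := by
        intro z
        refine Dm_induction (P := fun z => sg Λ d M (dl Λ d M z) = 0) z ?_ ?_ ?_
        · rw [map_zero, map_zero]
        · intro p q hp hq
          rw [map_add, map_add, hp, hq, add_zero]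
        · intro i m
          have h3 : dl Λ d M (pt d i m) = pt d i m - pt d (i - 1) m := by
            apply Dm_ext
            intro j
            rw [evD_dl, map_sub, evD_pt, evD_pt, evD_pt]
            congr 1
            by_cases h : i = j + 1
            · rw [if_pos h, if_pos (by omega)]
            · rw [if_neg h, if_neg (by omega)]
          rw [h3, map_sub, sg_pt, sg_pt, sub_self]
      exact h2 _


/-- noetherian, and all finitely generated modules have finite resolutions by modules induced from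
`T` -/
def RegT (Λ : Type) [Ring Λ] {T G : Type} [Group T] [Group G] (j : T →* G) : Prop :=
  IsNoetherianRing (MonoidAlgebra Λ G) ∧ ∀ (M : Type) [AddCommGroup M]
    [Module (MonoidAlgebra Λ G) M], Module.Finite (MonoidAlgebra Λ G) M → ∃ n, FRp (Pj Λ j) n M

/-- **Extensions by the integers.** -/
theorem RegT_step (ht : dg d t = 1) (h : RegT Λ j') : RegT Λ (d.ker.subtype.comp j') := by
  obtain ⟨h1, h2⟩ := h
  have h3 : IsNoetherianRing (MonoidAlgebra Λ G) := hall ht
  refine ⟨h3, fun M _ _ hM => ?_⟩
  obtain ⟨n, f, hf⟩ := Module.Finite.exists_fin' (MonoidAlgebra Λ G) M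
  refine FRp_of_pieces j' ht (fun ι _ K => h2 K inferInstance)
    (fun j : Fin n => f (Pi.single j 1)) fun m => ?_
  obtain ⟨x, rfl⟩ := hf m
  refine ⟨x, ?_⟩
  have h4 : x = ∑ j, x j • (Pi.single j 1 : Fin n → MonoidAlgebra Λ G) := by
    have := (Pi.basisFun (MonoidAlgebra Λ G) (Fin n)).sum_repr x
    simpa using this.symm
  conv_lhs => rw [h4]
  rw [map_sum]
  exact Finset.sum_congr rfl fun j _ => map_smul f _ _

end regt

end Pool.Agent.K6.H28.GR
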