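import Pool.Agent.K6.H28.GR.Ind

set_option autoImplicit false
set_option linter.unusedSectionVars false

/-! # Finite free resolutions over extensions by the integers -/

namespace Pool.Agent.K6.H28.GR

open Multiplicative Pool.Agent.K6.H28.SF

section seq

variable {Λ : Type} [Ring Λ] {G : Type} [Group G] {d : G →* Multiplicative ℤ} {t : G} {M : Type} [AddCommGroup M]
  [Module (MonoidAlgebra Λ G) M] {κ : Type} [Fintype κ]

theorem Dm_fin (y : Dm d M) : ∃ I : Finset ℤ, ∀ i ∉ I, evD d i y = 0 :=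
  ⟨(show ℤ →₀ M from y).support, fun _ hi => Finsupp.notMem_support_iff.1 hi⟩

theorem Dm_sum (y : Dm d M) (I : Finset ℤ) (hI : ∀ i ∉ I, evD d i y = 0) :
    y = ∑ i ∈ I, pt d i (evD d i y) := by
  classical
  apply Dm_ext
  intro j
  rw [map_sum]
  simp only [evD_pt]
  rw [Finset.sum_ite_eq']
  split_ifs with h
  · rfl
  · exact hI j h

theorem Dm_induction {P : Dm d M → Prop} (f : Dm d M) (h0 : P 0)
    (hadd : ∀ f g, P f → P g → P (f + g)) (hpt : ∀ i m, P (pt d i m)) : P f := by
  classical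
  obtain ⟨I, hI⟩ := Dm_fin f
  rw [Dm_sum f I hI]
  induction I using Finset.induction_on generalizing f with
  | empty => rw [Finset.sum_empty]; exact h0
  | insert a s ha ih =>
    rw [Finset.sum_insert ha]
    apply hadd _ _ (hpt _ _)
    have h1 : ∀ i ∉ s, evD d i (f - pt d a (evD d a f)) = 0 := by
      intro i hi
      rw [map_sub, evD_pt]
      by_cases h : a = i
      · subst h
        rw [if_pos rfl, sub_self]
      · rw [if_neg h, sub_zero]
        apply hI
        rw [Finset.mem_insert]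
        rintro (h2 | h2)
        · exact h h2.symm
        · exact hi h2
    have h2 := ih (f - pt d a (evD d a f)) h1
    have h3 : ∑ i ∈ s, pt d i (evD d i (f - pt d a (evD d a f))) = ∑ i ∈ s, pt d i (evD d i f) := by
      refine Finset.sum_congr rfl fun i hi => ?_
      have hai : a ≠ i := fun h => ha (h ▸ hi)
      rw [map_sub, evD_pt, if_neg hai, sub_zero]
    rwa [h3] at h2

variable (d M) in
/-- the sum of the components -/
noncomputable def sgA : Dm d M →+ M :=
  (Finsupp.liftAddHom (fun _ : ℤ => AddMonoidHom.id M) : (ℤ →₀ M) →+ M)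

theorem sgA_pt (i : ℤ) (m : M) : sgA d M (pt d i m) = m :=
  Finsupp.liftAddHom_apply_single (fun _ : ℤ => AddMonoidHom.id M) i m

variable (Λ d M) in
/-- the sum of the components -/
noncomputable def sg : Dm d M →ₗ[MonoidAlgebra Λ G] M :=
  mkLin (sgA d M) (by
    intro g z a
    refine Dm_induction (P := fun a => sgA d M ((MonoidAlgebra.single g z : MonoidAlgebra Λ G) • a)
      = (MonoidAlgebra.single g z : MonoidAlgebra Λ G) • sgA d M a) a ?_ ?_ ?_
    · rw [smul_zero, map_zero, smul_zero]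
    · intro f f' h1 h2
      rw [smul_add, map_add, h1, h2, map_add, smul_add]
    · intro i m
      rw [single_smul_pt, sgA_pt, sgA_pt])

theorem sg_pt (i : ℤ) (m : M) : sg Λ d M (pt d i m) = m := sgA_pt i m

theorem sg_eq (y : Dm d M) (I : Finset ℤ) (hI : ∀ i ∉ I, evD d i y = 0) :
    sg Λ d M y = ∑ i ∈ I, evD d i y := by
  conv_lhs => rw [Dm_sum y I hI]
  rw [map_sum]
  exact Finset.sum_congr rfl fun i _ => sg_pt _ _

/-- the shift -/
noncomputable def sh (d : G →* Multiplicative ℤ) (M : Type) [AddCommGroup M] : Dm d M →+ Dm d M where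
  toFun := fun f => Finsupp.equivMapDomain (Equiv.addRight (-1)) (show ℤ →₀ M from f)
  map_zero' := Finsupp.ext fun _ => rfl
  map_add' := fun _ _ => Finsupp.ext fun _ => rfl

theorem evD_sh (f : Dm d M) (i : ℤ) : evD d i (sh d M f) = evD d (i + 1) f := by
  have h1 : evD d i (sh d M f) = evD d (i - (-1)) f := rfl
  rw [h1, sub_neg_eq_add]

variable (Λ d M) in
/-- the difference map -/
noncomputable def dl : Dm d M →ₗ[MonoidAlgebra Λ G] Dm d M :=
  mkLin (AddMonoidHom.id (Dm d M) - sh d M) (by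
    intro g z f
    apply Dm_ext
    intro i
    have h1 : ∀ a : Dm d M, (AddMonoidHom.id (Dm d M) - sh d M) a = a - sh d M a := fun _ => rfl
    rw [h1, h1, map_sub, evD_sh, evD_single_smul, evD_single_smul, evD_single_smul, map_sub, evD_sh,
      smul_sub]
    congr 3
    ring_nf)

theorem evD_dl (f : Dm d M) (i : ℤ) : evD d i (dl Λ d M f) = evD d i f - evD d (i + 1) f := by
  have h1 : dl Λ d M f = f - sh d M f := rfl
  rw [h1, map_sub, evD_sh]

theorem dl_injective : Function.Injective (dl Λ d M) := by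
  rw [injective_iff_map_eq_zero]
  intro f hf
  have h1 : ∀ i, evD d i f = evD d (i + 1) f := by
    intro i
    have := evD_dl (Λ := Λ) f i
    rw [hf, map_zero] at this
    exact (sub_eq_zero.1 this.symm)
  have h2 : ∀ (i : ℤ) (n : ℕ), evD d i f = evD d (i + n) f := by
    intro i n
    induction n with
    | zero => simp
    | succ n ih =>
      rw [ih, h1 (i + n)]
      push_cast
      rw [add_assoc]
  obtain ⟨I, hI⟩ := Dm_fin f
  apply Dm_ext
  intro i
  rw [map_zero]
  obtain ⟨b, hb⟩ : ∃ b : ℕ, i + b ∉ I := by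
    by_contra hcon
    push Not at hcon
    have : Set.Infinite (I : Set ℤ) := Set.infinite_of_injective_forall_mem
      (f := fun b : ℕ => i + (b : ℤ)) (fun a b hab => by
        have : i + (a : ℤ) = i + (b : ℤ) := hab
        omega) hcon
    exact this (Finset.finite_toSet I)
  rw [h2 i b, hI _ hb]

variable (Λ d t) in
/-- the elements which can be written with coefficients of degrees in `J` -/
def MJ (m0 : κ → M) (J : Set ℤ) : AddSubgroup M where
  carrier := {m | ∃ x : κ → MonoidAlgebra Λ G, (∀ j, x j ∈ InD d t J) ∧ m = ∑ j, x j • m0 j}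
  add_mem' := by
    rintro _ _ ⟨x, hx, rfl⟩ ⟨y, hy, rfl⟩
    refine ⟨fun j => x j + y j, fun j => (InD d t J).add_mem (hx j) (hy j), ?_⟩
    rw [← Finset.sum_add_distrib]
    exact Finset.sum_congr rfl fun j _ => (add_smul _ _ _).symm
  zero_mem' := ⟨fun _ => 0, fun _ => (InD d t J).zero_mem, by simp⟩
  neg_mem' := by
    rintro _ ⟨x, hx, rfl⟩
    refine ⟨fun j => -x j, fun j => (InD d t J).neg_mem (hx j), ?_⟩
    rw [← Finset.sum_neg_distrib]
    exact Finset.sum_congr rfl fun j _ => (neg_smul _ _).symm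

theorem MJ_mono (m0 : κ → M) {J J' : Set ℤ} (h : J ⊆ J') {m : M} (hm : m ∈ MJ Λ d t m0 J) :
    m ∈ MJ Λ d t m0 J' := by
  obtain ⟨x, hx, rfl⟩ := hm
  exact ⟨x, fun j => InD_mono h (hx j), rfl⟩

theorem single_smul_MJ (ht : dg d t = 1) (m0 : κ → M) {J J' : Set ℤ} (g : G) {z : Λ}
    (h : ∀ i ∈ J, i + dg d g ∈ J') {m : M} (hm : m ∈ MJ Λ d t m0 J) :
    (MonoidAlgebra.single g z : MonoidAlgebra Λ G) • m ∈ MJ Λ d t m0 J' := by
  obtain ⟨x, hx, rfl⟩ := hm
  refine ⟨fun j => MonoidAlgebra.single g z * x j, fun j => single_mul_InD ht g h (hx j), ?_⟩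
  rw [Finset.smul_sum]
  exact Finset.sum_congr rfl fun j _ => (mul_smul _ _ _).symm

variable (Λ) in
/-- the induced modules of the pieces of `M` -/
noncomputable def Dn (ht : dg d t = 1) (m0 : κ → M) (n : ℤ) : Submodule (MonoidAlgebra Λ G) (Dm d M) :=
  mkSub
    { carrier := {f | ∀ i, evD d i f ∈ MJ Λ d t m0 (Set.Icc i (i + n))}
      add_mem' := by
        intro f g hf hg i
        rw [map_add]
        exact AddSubgroup.add_mem _ (hf i) (hg i)
      zero_mem' := by
        intro i
        rw [map_zero]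
        exact AddSubgroup.zero_mem _
      neg_mem' := by
        intro f hf i
        rw [map_neg]
        exact AddSubgroup.neg_mem _ (hf i) }
    (by
      intro g z f hf i
      rw [evD_single_smul]
      apply single_smul_MJ ht m0 g _ (hf (i - dg d g))
      intro j hj
      rw [Set.mem_Icc] at *
      omega)

theorem mem_Dn (ht : dg d t = 1) (m0 : κ → M) (n : ℤ) (f : Dm d M) :
    f ∈ Dn Λ ht m0 n ↔ ∀ i, evD d i f ∈ MJ Λ d t m0 (Set.Icc i (i + n)) := Iff.rfl

theorem eq_incl_of_InD (ht : dg d t = 1) {y : MonoidAlgebra Λ G} (hy : y ∈ InD d t {0}) :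
    y = incl d (cmp d t 0 y) := by
  apply ext_cmp ht
  intro i
  rw [cmp_incl ht]
  split_ifs with h
  · rw [h]
  · exact hy i h

theorem exists_conj (ht : dg d t = 1) (a : ℤ) (s : MonoidAlgebra Λ d.ker) :
    ∃ s' : MonoidAlgebra Λ d.ker, MonoidAlgebra.single (t ^ a) 1 * incl d s
      = incl d s' * MonoidAlgebra.single (t ^ a) 1 := by
  have h1 : (1 : MonoidAlgebra Λ G) ∈ InD d t {0} := by
    have := incl_mem_InD (t := t) ht (1 : MonoidAlgebra Λ d.ker)
    rwa [map_one] at this
  have h2 := tri_mem ht a s h1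
  rw [mul_one] at h2
  refine ⟨cmp d t 0 (MonoidAlgebra.single (t ^ a) 1 * incl d s *
    MonoidAlgebra.single (t ^ (-a)) 1), ?_⟩
  rw [← eq_incl_of_InD ht h2, mul_assoc, tpow_mul_tpow, neg_add_cancel, tpow_zero, mul_one]

theorem exists_pull (ht : dg d t = 1) (n : ℕ) (i : ℤ) (x : MonoidAlgebra Λ G)
    (hx : x ∈ InD d t (Set.Icc i (i + n))) :
    ∃ r : Fin (n + 1) → MonoidAlgebra Λ d.ker, x = MonoidAlgebra.single (t ^ i) 1 *
      ∑ a, incl d (r a) * MonoidAlgebra.single (t ^ ((a : ℕ) : ℤ)) 1 := by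
  classical
  have hy : MonoidAlgebra.single (t ^ (-i)) 1 * x ∈ InD d t (Set.Icc 0 (n : ℤ)) := by
    apply single_mul_InD ht _ _ hx
    intro j hj
    rw [dg_zpow, ht, Set.mem_Icc] at *
    omega
  set y := MonoidAlgebra.single (t ^ (-i)) 1 * x with hydef
  have hxy : x = MonoidAlgebra.single (t ^ i) 1 * y := by
    rw [hydef, ← mul_assoc, tpow_mul_tpow, add_neg_cancel, tpow_zero, one_mul]
  let I : Finset ℤ := (Finset.univ : Finset (Fin (n + 1))).map
    ⟨fun a : Fin (n + 1) => ((a : ℕ) : ℤ), fun a b h => by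
      apply Fin.ext
      have : ((a : ℕ) : ℤ) = ((b : ℕ) : ℤ) := h
      omega⟩
  have hI : ∀ j ∉ I, cmp d t j y = 0 := by
    intro j hj
    apply hy
    intro h
    apply hj
    rw [Set.mem_Icc] at h
    simp only [I, Finset.mem_map]
    exact ⟨⟨j.toNat, by omega⟩, Finset.mem_univ _, by
      change ((j.toNat : ℕ) : ℤ) = j
      omega⟩
  have h1 := sum_cmp ht y I hI
  simp only [I, Finset.sum_map] at h1
  choose r hr using fun a : Fin (n + 1) => exists_conj ht ((a : ℕ) : ℤ) (cmp d t ((a : ℕ) : ℤ) y)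
  refine ⟨r, ?_⟩
  rw [hxy]
  congr 1
  rw [h1]
  exact Finset.sum_congr rfl fun a _ => hr a

/-- the relations over the small group ring -/
noncomputable def Rl {ι : Type} [Fintype ι] (μ : ι → M) :
    Submodule (MonoidAlgebra Λ d.ker) (ι → MonoidAlgebra Λ d.ker) where
  carrier := {r | ∑ c, incl d (r c) • μ c = 0}
  add_mem' := by
    intro r s hr hs
    have h1 : ∑ c, incl d ((r + s) c) • μ c = ∑ c, incl d (r c) • μ c + ∑ c, incl d (s c) • μ c := by
      rw [← Finset.sum_add_distrib]
      refine Finset.sum_congr rfl fun c _ => ?_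
      rw [Pi.add_apply, map_add, add_smul]
    change ∑ c, incl d ((r + s) c) • μ c = 0
    rw [h1, hr, hs, add_zero]
  zero_mem' := by
    change ∑ c, incl d ((0 : ι → MonoidAlgebra Λ d.ker) c) • μ c = 0
    simp
  smul_mem' := by
    intro a r hr
    have h1 : ∑ c, incl d ((a • r) c) • μ c = incl d a • ∑ c, incl d (r c) • μ c := by
      rw [Finset.smul_sum]
      refine Finset.sum_congr rfl fun c _ => ?_
      rw [Pi.smul_apply, smul_eq_mul, map_mul, mul_smul]
    change ∑ c, incl d ((a • r) c) • μ c = 0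
    rw [h1, hr, smul_zero]

theorem mem_Rl {ι : Type} [Fintype ι] (μ : ι → M) (r : ι → MonoidAlgebra Λ d.ker) :
    r ∈ Rl μ ↔ ∑ c, incl d (r c) • μ c = 0 := Iff.rfl

theorem single_smul_inj (g : G) (m : M)
    (h : (MonoidAlgebra.single g 1 : MonoidAlgebra Λ G) • m = 0) : m = 0 := by
  have h1 : (MonoidAlgebra.single g⁻¹ 1 : MonoidAlgebra Λ G) •
      ((MonoidAlgebra.single g 1 : MonoidAlgebra Λ G) • m) = m := by
    rw [← mul_smul, MonoidAlgebra.single_mul_single, inv_mul_cancel, mul_one]
    exact one_smul _ _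
  rw [← h1, h, smul_zero]

/-- the induced modules have finite free resolutions -/
theorem FR_Dn (ht : dg d t = 1)
    (hreg : ∀ (ι : Type) [Fintype ι] (K : Submodule (MonoidAlgebra Λ d.ker) (ι → MonoidAlgebra Λ d.ker)),
      ∃ n, FR (MonoidAlgebra Λ d.ker) n K)
    (m0 : κ → M) (n : ℕ) : ∃ c, FR (MonoidAlgebra Λ G) c (Dn Λ ht m0 n) := by
  classical
  let μ : Fin (n + 1) × κ → M := fun c =>
    (MonoidAlgebra.single (t ^ ((c.1 : ℕ) : ℤ)) 1 : MonoidAlgebra Λ G) • m0 c.2
  let Φ : (Fin (n + 1) × κ → MonoidAlgebra Λ G) →ₗ[MonoidAlgebra Λ G] Dm d M :=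
    Fintype.linearCombination (MonoidAlgebra Λ G) (fun c => pt d 0 (μ c))
  have hΦ : ∀ v i, evD d i (Φ v) = (MonoidAlgebra.single (t ^ i) 1 : MonoidAlgebra Λ G) •
      ∑ c, incl d (cmp d t i (v c)) • μ c := by
    intro v i
    rw [Fintype.linearCombination_apply, map_sum, Finset.smul_sum]
    exact Finset.sum_congr rfl fun c _ => evD_smul_pt ht _ _ _
  have hmem : ∀ v, Φ v ∈ Dn Λ ht m0 n := by
    intro v i
    change evD d i (Φ v) ∈ MJ Λ d t m0 (Set.Icc i (i + n))
    rw [hΦ, Finset.smul_sum]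
    refine AddSubgroup.sum_mem _ fun c _ => ?_
    apply single_smul_MJ ht m0 (J := Set.Icc 0 (n : ℤ))
    · intro j hj
      rw [dg_zpow, ht, Set.mem_Icc] at *
      omega
    · refine ⟨fun j => if j = c.2 then incl d (cmp d t i (v c)) *
        MonoidAlgebra.single (t ^ ((c.1 : ℕ) : ℤ)) 1 else 0, fun j => ?_, ?_⟩
      · dsimp only
        split_ifs with h
        · apply incl_mul_InD ht
          have h1 : (1 : MonoidAlgebra Λ G) ∈ InD d t {0} := by
            have := incl_mem_InD (t := t) ht (1 : MonoidAlgebra Λ d.ker)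
            rwa [map_one] at this
          have h2 : MonoidAlgebra.single (t ^ ((c.1 : ℕ) : ℤ)) (1 : Λ) * (1 : MonoidAlgebra Λ G)
              ∈ InD d t (Set.Icc 0 (n : ℤ)) := by
            apply single_mul_InD ht _ _ h1
            intro j hj
            rw [dg_zpow, ht, Set.mem_Icc]
            rw [Set.mem_singleton_iff] at hj
            have := c.1.2
            omega
          rwa [mul_one] at h2
        · exact (InD d t _).zero_mem
      · dsimp only
        rw [Finset.sum_eq_single c.2]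
        · rw [if_pos rfl, mul_smul]
        · intro j _ hj
          rw [if_neg hj, zero_smul]
        · intro h
          exact absurd (Finset.mem_univ _) h
  let Φ' := Φ.codRestrict (Dn Λ ht m0 n) hmem
  have hker : LinearMap.ker Φ' = LK ht (Rl μ) := by
    ext v
    rw [LinearMap.mem_ker, mem_LK]
    constructor
    · intro h i
      have h1 : Φ v = 0 := congrArg Subtype.val h
      have h2 := hΦ v i
      rw [h1, map_zero] at h2
      exact single_smul_inj _ _ h2.symm
    · intro h
      apply Subtype.ext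
      apply Dm_ext
      intro i
      change evD d i (Φ v) = evD d i 0
      rw [hΦ, (mem_Rl μ _).1 (h i), smul_zero, map_zero]
  have hsurj : Function.Surjective Φ' := by
    rintro ⟨f, hf⟩
    have hf' : ∀ i, ∃ x : κ → MonoidAlgebra Λ G, (∀ j, x j ∈ InD d t (Set.Icc i (i + n))) ∧
      evD d i f = ∑ j, x j • m0 j := fun i => (mem_Dn ht m0 n f).1 hf i
    choose x hx hfx using hf'
    choose r hr using fun i j => exists_pull ht n i (x i j) (hx i j)
    obtain ⟨I, hI⟩ := Dm_fin f
    refine ⟨fun c => ∑ i ∈ I, MonoidAlgebra.single (t ^ i) 1 * incl d (r i c.2 c.1), ?_⟩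
    apply Subtype.ext
    apply Dm_ext
    intro i
    change evD d i (Φ _) = evD d i f
    rw [hΦ]
    have h2 : ∀ c : Fin (n + 1) × κ, cmp d t i
        (∑ i ∈ I, MonoidAlgebra.single (t ^ i) 1 * incl d (r i c.2 c.1))
        = if i ∈ I then r i c.2 c.1 else 0 := by
      intro c
      rw [map_sum]
      simp only [cmp_tpow_incl ht]
      rw [Finset.sum_ite_eq]
    simp only [h2]
    by_cases hi : i ∈ I
    · simp only [if_pos hi]
      rw [hfx i, Fintype.sum_prod_type_right, Finset.smul_sum]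
      refine Finset.sum_congr rfl fun j _ => ?_
      rw [hr i j, mul_smul, Finset.sum_smul]
      congr 1
      refine Finset.sum_congr rfl fun a _ => ?_
      rw [mul_smul]
    · simp only [if_neg hi]
      rw [hI i hi]
      simp
  obtain ⟨c, hc⟩ := hreg _ (Rl μ)
  refine ⟨c + 1, _, inferInstance, Φ', hsurj, ?_⟩
  rw [hker]
  exact FR_LK ht c _ _ hc

end seq

end Pool.Agent.K6.H28.GR
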