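import Pool.Agent.K6.H28.GR.Base

set_option autoImplicit false

/-! # Finitely generated nilpotent groups are finite by (iterated extensions by the integers) -/

namespace Pool.Agent.K6.H28.GR

open Pool.Agent.K6.H28.SF (PZ PZ_nilpotent)

variable {G : Type} [Group G]

theorem finite_sup' (H K : Subgroup G) [K.Normal] (hH : (H : Set G).Finite)
    (hK : (K : Set G).Finite) : ((H ⊔ K : Subgroup G) : Set G).Finite := by
  rw [Subgroup.mul_normal]
  exact hH.mul hK

/-- a largest finite normal subgroup -/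
theorem exists_max_finite (hNS : ∀ H : Subgroup G, H.FG) :
    ∃ (T : Subgroup G), T.Normal ∧ (T : Set G).Finite ∧
      ∀ K : Subgroup G, K.Normal → (K : Set G).Finite → K ≤ T := by
  classical
  let c : Set (Subgroup G) := {K | K.Normal ∧ (K : Set G).Finite}
  have hdir : DirectedOn (· ≤ ·) c := by
    rintro H ⟨hH1, hH2⟩ K ⟨hK1, hK2⟩
    exact ⟨H ⊔ K, ⟨inferInstance, finite_sup' H K hH2 hK2⟩, le_sup_left, le_sup_right⟩
  have hne : c.Nonempty := ⟨⊥, inferInstance, by simp⟩
  have hmem : ∀ x, x ∈ sSup c ↔ ∃ K ∈ c, x ∈ K := fun x =>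
    Subgroup.mem_sSup_of_directedOn hne hdir
  obtain ⟨S, hS⟩ := hNS (sSup c)
  have key : ∀ S : Finset G, (∀ x ∈ S, x ∈ sSup c) → ∃ K ∈ c, ∀ x ∈ S, x ∈ K := by
    intro S
    induction S using Finset.induction_on with
    | empty =>
      intro _
      obtain ⟨K, hK⟩ := hne
      exact ⟨K, hK, fun x hx => absurd hx (Finset.notMem_empty x)⟩
    | insert a s _ ih =>
      intro h
      obtain ⟨K1, h1, h2⟩ := ih fun x hx => h x (Finset.mem_insert_of_mem hx)
      obtain ⟨K2, h3, h4⟩ := (hmem a).1 (h a (Finset.mem_insert_self _ _))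
      obtain ⟨K, hK, h5, h6⟩ := hdir K1 h1 K2 h3
      refine ⟨K, hK, fun x hx => ?_⟩
      rcases Finset.mem_insert.1 hx with rfl | hx
      · exact h6 h4
      · exact h5 (h2 x hx)
  obtain ⟨K, hK, h1⟩ := key S fun x hx => by
    rw [← hS]
    exact Subgroup.subset_closure hx
  have h2 : sSup c ≤ K := by
    rw [← hS, Subgroup.closure_le]
    exact h1
  refine ⟨sSup c, ?_, hK.2.subset h2, fun K' h3 h4 => le_sSup ⟨h3, h4⟩⟩
  refine ⟨fun x hx g => ?_⟩
  obtain ⟨K', hK', hxK⟩ := (hmem x).1 hx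
  exact (hmem _).2 ⟨K', hK', hK'.1.conj_mem x hxK g⟩

theorem exists_torsion (G : Type) [Group G] [Group.IsNilpotent G] (hFG : Group.FG G) :
    ∃ (T : Subgroup G) (_ : T.Normal), (T : Set G).Finite ∧
      (∀ g : G ⧸ T, IsOfFinOrder g → g = 1) ∧ ∃ k, PZ k (G ⧸ T) := by
  have hNS : ∀ H : Subgroup G, H.FG := fun H =>
    Pool.Agent.Helper111.EN.NSc.NS_of_nilpotent_fg (⊤ : Subgroup G)
      (Group.isNilpotent_top.2 inferInstance) hFG.out H le_top
  obtain ⟨T, hTn, hTf, hmax⟩ := exists_max_finite hNS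
  suffices htf : ∀ g : G ⧸ T, IsOfFinOrder g → g = 1 from
    ⟨T, hTn, hTf, htf, PZ_nilpotent (G ⧸ T) (QuotientGroup.fg _) htf⟩
  intro g hg
  obtain ⟨p, hp, hpg⟩ := isOfFinOrder_iff_pow_eq_one.1 hg
  refine Pool.Agent.Helper111.EN.tf_of_center p (G ⧸ T) ?_ g hpg
  intro z hz hzp
  obtain ⟨x, rfl⟩ := QuotientGroup.mk'_surjective T z
  let K : Subgroup G := (Subgroup.zpowers (QuotientGroup.mk' T x)).comap (QuotientGroup.mk' T)
  have hKn : K.Normal := by
    have h1 : (Subgroup.zpowers (QuotientGroup.mk' T x)).Normal := by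
      refine ⟨fun y hy g => ?_⟩
      have h2 : y ∈ Subgroup.center (G ⧸ T) :=
        (Subgroup.zpowers_le.2 hz) hy
      rw [Subgroup.mem_center_iff.1 h2 g, mul_inv_cancel_right]
      exact hy
    exact Subgroup.normal_comap _
  have hKf : (K : Set G).Finite := by
    have h1 : (K : Set G) ⊆ ⋃ i ∈ Finset.range p, (fun t => x ^ i * t) '' (T : Set G) := by
      intro y hy
      have h2 : QuotientGroup.mk' T y ∈ Subgroup.zpowers (QuotientGroup.mk' T x) := hy
      obtain ⟨i, hi⟩ := Subgroup.mem_zpowers_iff.1 h2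
      have h3 : (QuotientGroup.mk' T x) ^ i = (QuotientGroup.mk' T x) ^ (i % (p : ℤ)).toNat := by
        rw [← zpow_natCast, Int.toNat_of_nonneg (Int.emod_nonneg _ (by omega))]
        conv_lhs => rw [← Int.emod_add_mul_ediv i p]
        rw [zpow_add, zpow_mul, zpow_natCast, hzp, one_zpow, mul_one]
      simp only [Set.mem_iUnion]
      refine ⟨(i % (p : ℤ)).toNat, ?_, (x ^ (i % (p : ℤ)).toNat)⁻¹ * y, ?_, ?_⟩
      · rw [Finset.mem_range]
        have := Int.emod_lt_of_pos i (show (0 : ℤ) < p by omega)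
        have := Int.emod_nonneg i (show (p : ℤ) ≠ 0 by omega)
        omega
      · change (x ^ (i % (p : ℤ)).toNat)⁻¹ * y ∈ T
        rw [← QuotientGroup.eq_one_iff, ← QuotientGroup.mk'_apply, map_mul, map_inv, map_pow,
          ← h3, hi, inv_mul_cancel]
      · change x ^ (i % (p : ℤ)).toNat * ((x ^ (i % (p : ℤ)).toNat)⁻¹ * y) = y
        rw [mul_inv_cancel_left]
    refine Set.Finite.subset ?_ h1
    exact (Finset.range p).finite_toSet.biUnion fun i _ => hTf.image _
  have h1 : x ∈ T := hmax K hKn hKf (Subgroup.mem_zpowers (QuotientGroup.mk' T x))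
  rw [QuotientGroup.mk'_apply, QuotientGroup.eq_one_iff]
  exact h1

/-- **f.g. nilpotent groups over division rings.** -/
theorem RegT_nilpotent (Λ : Type) [DivisionRing Λ] (G : Type) [Group G] [Group.IsNilpotent G]
    (hFG : Group.FG G) (hp : ∀ p : ℕ, p.Prime → (p : Λ) = 0 → ∀ g : G, g ^ p = 1 → g = 1) :
    ∃ T : Subgroup G, Finite T ∧ RegT Λ T.subtype := by
  obtain ⟨T, hTn, hTf, _, k, hk⟩ := exists_torsion G hFG
  have hT : Finite T := hTf
  refine ⟨T, hT, RegT_tower Λ ?_ k (G ⧸ T) hk G (QuotientGroup.mk' T) T.subtype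
    (QuotientGroup.mk'_surjective T) Subtype.val_injective ?_⟩
  · intro h0
    have h1 : ringChar Λ ∣ Nat.card T := (ringChar.spec Λ _).1 h0
    have h2 : ringChar Λ ≠ 0 := by
      intro h
      rw [h] at h1
      exact Nat.card_pos.ne' (Nat.eq_zero_of_zero_dvd h1)
    have h3 : (ringChar Λ).Prime := (CharP.char_is_prime_or_zero Λ (ringChar Λ)).resolve_right h2
    have : Fact (ringChar Λ).Prime := ⟨h3⟩
    obtain ⟨t, ht⟩ := exists_prime_orderOf_dvd_card' (ringChar Λ) h1
    have h4 : t.1 ^ ringChar Λ = 1 := by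
      have := pow_orderOf_eq_one t
      rw [ht] at this
      exact congrArg Subtype.val this
    have h5 := hp _ h3 ((ringChar.spec Λ _).2 dvd_rfl) t.1 h4
    have h6 : t = 1 := Subtype.ext h5
    rw [h6, orderOf_one] at ht
    exact h3.one_lt.ne ht
  · intro g
    rw [QuotientGroup.mk'_apply, QuotientGroup.eq_one_iff]
    constructor
    · intro h
      exact ⟨⟨g, h⟩, rfl⟩
    · rintro ⟨t, rfl⟩
      exact t.2

end Pool.Agent.K6.H28.GR
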