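import Pool.Agent.K6.H28.SF.Ultra
import Pool.Agent.K6.H28.GR.Row

set_option autoImplicit false

/-! # Ultraproducts of division rings and groups, and their group rings -/

namespace Pool.Agent.K6.H28.GR

open Matrix Filter
open Pool.Agent.K6.H28.SF (aeOne mem_aeOne mk_eq_iff)

section maps

variable {R S G H : Type} [Ring R] [Ring S] [Group G] [Group H]

/-- the ring homomorphism of group rings induced by a ring homomorphism and a group
homomorphism -/
noncomputable def bm (φ : R →+* S) (f : G →* H) : MonoidAlgebra R G →+* MonoidAlgebra S H :=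
  (MonoidAlgebra.mapDomainRingHom S f).comp (MonoidAlgebra.mapRingHom G φ)

theorem bm_single (φ : R →+* S) (f : G →* H) (g : G) (r : R) :
    bm φ f (MonoidAlgebra.single g r) = MonoidAlgebra.single (f g) (φ r) := by
  rw [bm, RingHom.comp_apply, MonoidAlgebra.mapDomainRingHom_apply]
  have h1 : MonoidAlgebra.mapRingHom G φ (MonoidAlgebra.single g r)
      = MonoidAlgebra.single g (φ r) := by
    rw [MonoidAlgebra.coe_mapRingHom]
    exact MonoidAlgebra.map_single _ _ _
  rw [h1, MonoidAlgebra.mapDomain_single]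

theorem eq_sum (x : MonoidAlgebra R G) :
    x = ∑ k ∈ x.coeff.support, MonoidAlgebra.single k (x.coeff k) := by
  classical
  ext g
  rw [MonoidAlgebra.coeff_sum, Finset.sum_apply']
  simp only [MonoidAlgebra.coeff_single, Finsupp.single_apply]
  rw [Finset.sum_ite_eq']
  split_ifs with h
  · rfl
  · exact Finsupp.notMem_support_iff.1 h

theorem bm_coeff [DecidableEq H] (φ : R →+* S) (f : G →* H) (x : MonoidAlgebra R G) (a : H) :
    (bm φ f x).coeff a = φ (∑ k ∈ x.coeff.support with f k = a, x.coeff k) := by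
  conv_lhs => rw [eq_sum x]
  rw [map_sum, MonoidAlgebra.coeff_sum, Finset.sum_apply', map_sum, Finset.sum_filter]
  refine Finset.sum_congr rfl fun k _ => ?_
  rw [bm_single, MonoidAlgebra.coeff_single, Finsupp.single_apply]

theorem bm_support [DecidableEq H] (φ : R →+* S) (f : G →* H) (x : MonoidAlgebra R G) :
    (bm φ f x).coeff.support ⊆ x.coeff.support.image f := by
  intro a ha
  rw [Finsupp.mem_support_iff, bm_coeff] at ha
  by_contra hcon
  apply ha
  rw [Finset.sum_filter, Finset.sum_eq_zero, map_zero]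
  intro k hk
  rw [if_neg]
  intro h
  exact hcon (Finset.mem_image.2 ⟨k, hk, h⟩)

theorem bm_card (φ : R →+* S) (f : G →* H) (x : MonoidAlgebra R G) :
    (bm φ f x).coeff.support.card ≤ x.coeff.support.card := by
  classical
  exact (Finset.card_le_card (bm_support φ f x)).trans Finset.card_image_le

theorem bm_zero_iff [DecidableEq H] (φ : R →+* S) (f : G →* H) (x : MonoidAlgebra R G) :
    bm φ f x = 0 ↔ ∀ h ∈ x.coeff.support, φ (∑ k ∈ x.coeff.support with f k = f h, x.coeff k) = 0 := by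
  constructor
  · intro h k _
    rw [← bm_coeff, h]; rfl
  · intro h
    ext a
    rw [bm_coeff]
    by_cases ha : ∃ k ∈ x.coeff.support, f k = a
    · obtain ⟨k, hk, rfl⟩ := ha
      rw [h k hk]; rfl
    · push Not at ha
      rw [Finset.filter_false_of_mem (fun k hk => ha k hk), Finset.sum_empty, map_zero]
      rfl

/-- an element with support of size at most `s` is a sum of `s` monomials -/
theorem exists_monomials : ∀ (s : ℕ) (x : MonoidAlgebra R G), x.coeff.support.card ≤ s →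
    ∃ (g : Fin s → G) (c : Fin s → R), x = ∑ t, MonoidAlgebra.single (g t) (c t) := by
  classical
  intro s
  induction s with
  | zero =>
    intro x hx
    refine ⟨fun t => t.elim0, fun t => t.elim0, ?_⟩
    have h1 : x.coeff.support = ∅ := Finset.card_eq_zero.1 (Nat.le_zero.1 hx)
    rw [eq_sum x, h1]
    simp
  | succ s ih =>
    intro x hx
    by_cases h0 : x.coeff.support.Nonempty
    · obtain ⟨g0, hg0⟩ := h0
      have h1 : (x - MonoidAlgebra.single g0 (x.coeff g0)).coeff.support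
          ⊆ x.coeff.support.erase g0 := by
        intro k hk
        rw [Finsupp.mem_support_iff, MonoidAlgebra.coeff_sub, Finsupp.sub_apply,
          MonoidAlgebra.coeff_single] at hk
        rw [Finset.mem_erase, Finsupp.mem_support_iff]
        refine ⟨?_, ?_⟩
        · rintro rfl
          rw [Finsupp.single_eq_same, sub_self] at hk
          exact hk rfl
        · intro hk0
          by_cases hkg : k = g0
          · subst hkg
            rw [Finsupp.single_eq_same, sub_self] at hk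
            exact hk rfl
          · rw [Finsupp.single_eq_of_ne hkg, hk0, sub_zero] at hk
            exact hk rfl
      have h2 : (x - MonoidAlgebra.single g0 (x.coeff g0)).coeff.support.card ≤ s := by
        refine (Finset.card_le_card h1).trans ?_
        rw [Finset.card_erase_of_mem hg0]
        omega
      obtain ⟨g, c, h3⟩ := ih _ h2
      refine ⟨Fin.cons g0 g, Fin.cons (x.coeff g0) c, ?_⟩
      rw [Fin.sum_univ_succ]
      simp only [Fin.cons_zero, Fin.cons_succ]
      rw [← h3]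
      exact (add_sub_cancel _ _).symm
    · rw [Finset.not_nonempty_iff_eq_empty] at h0
      refine ⟨fun _ => 1, fun _ => 0, ?_⟩
      rw [eq_sum x, h0]
      simp

end maps

section rings

variable (𝒰 : Ultrafilter ℕ) (D : ℕ → Type) [∀ i, DivisionRing (D i)]

/-- the two-sided ideal of the sequences which vanish almost everywhere -/
def aeZero : Ideal (∀ i, D i) where
  carrier := {x | ∀ᶠ i in (𝒰 : Filter ℕ), x i = 0}
  add_mem' := by
    intro x y hx hy
    filter_upwards [hx, hy] with i h1 h2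
    rw [Pi.add_apply, h1, h2, add_zero]
  zero_mem' := Eventually.of_forall fun i => rfl
  smul_mem' := by
    intro c x hx
    filter_upwards [hx] with i h1
    rw [smul_eq_mul, Pi.mul_apply, h1, mul_zero]

theorem mem_aeZero (x : ∀ i, D i) : x ∈ aeZero 𝒰 D ↔ ∀ᶠ i in (𝒰 : Filter ℕ), x i = 0 := Iff.rfl

instance : (aeZero 𝒰 D).IsTwoSided := ⟨fun {a} b ha => by
  rw [mem_aeZero] at ha ⊢
  filter_upwards [ha] with i h1
  rw [Pi.mul_apply, h1, zero_mul]⟩

/-- the ultraproduct of division rings -/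
abbrev UD : Type := (∀ i, D i) ⧸ aeZero 𝒰 D

theorem mk_zero_iff (x : ∀ i, D i) :
    (Ideal.Quotient.mk (aeZero 𝒰 D)) x = 0 ↔ ∀ᶠ i in (𝒰 : Filter ℕ), x i = 0 := by
  rw [Ideal.Quotient.eq_zero_iff_mem, mem_aeZero]

instance : Nontrivial (UD 𝒰 D) := by
  refine ⟨0, 1, fun h => ?_⟩
  have h1 : (Ideal.Quotient.mk (aeZero 𝒰 D)) (1 : ∀ i, D i) = 0 := by rw [map_one, ← h]
  rw [mk_zero_iff] at h1
  obtain ⟨i, hi⟩ := h1.exists
  exact one_ne_zero hi

theorem isUnit_or (a : UD 𝒰 D) : IsUnit a ∨ a = 0 := by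
  classical
  obtain ⟨x, rfl⟩ := Ideal.Quotient.mk_surjective a
  by_cases h : ∀ᶠ i in (𝒰 : Filter ℕ), x i = 0
  · exact Or.inr ((mk_zero_iff 𝒰 D x).2 h)
  · left
    have h1 : ∀ᶠ i in (𝒰 : Filter ℕ), x i ≠ 0 := Ultrafilter.eventually_not.2 h
    have h2 : (Ideal.Quotient.mk (aeZero 𝒰 D)) x * (Ideal.Quotient.mk (aeZero 𝒰 D))
        (fun i => (x i)⁻¹) = 1 := by
      rw [← map_mul, ← sub_eq_zero, ← map_one (Ideal.Quotient.mk (aeZero 𝒰 D)), ← map_sub,
        mk_zero_iff]
      filter_upwards [h1] with i hi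
      rw [Pi.sub_apply, Pi.mul_apply, mul_inv_cancel₀ hi, Pi.one_apply, sub_self]
    have h3 : (Ideal.Quotient.mk (aeZero 𝒰 D)) (fun i => (x i)⁻¹) *
        (Ideal.Quotient.mk (aeZero 𝒰 D)) x = 1 := by
      rw [← map_mul, ← sub_eq_zero, ← map_one (Ideal.Quotient.mk (aeZero 𝒰 D)), ← map_sub,
        mk_zero_iff]
      filter_upwards [h1] with i hi
      rw [Pi.sub_apply, Pi.mul_apply, inv_mul_cancel₀ hi, Pi.one_apply, sub_self]
    exact ⟨⟨_, _, h2, h3⟩, rfl⟩

noncomputable instance : DivisionRing (UD 𝒰 D) := DivisionRing.ofIsUnitOrEqZero (isUnit_or 𝒰 D)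

variable (G : ℕ → Type) [∀ i, Group (G i)]

/-- the ultraproduct of groups -/
abbrev UG : Type := (∀ i, G i) ⧸ aeOne 𝒰 G

/-- the group ring of the products maps to the group ring of the ultraproducts -/
noncomputable def toU : MonoidAlgebra (∀ i, D i) (∀ i, G i) →+* MonoidAlgebra (UD 𝒰 D) (UG 𝒰 G) :=
  bm (Ideal.Quotient.mk (aeZero 𝒰 D)) (QuotientGroup.mk' (aeOne 𝒰 G))

/-- the components -/
noncomputable def ev (i : ℕ) : MonoidAlgebra (∀ i, D i) (∀ i, G i) →+* MonoidAlgebra (D i) (G i) :=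
  bm (Pi.evalRingHom D i) (Pi.evalMonoidHom G i)

theorem same_ident (F : Finset (∀ i, G i)) :
    ∀ᶠ i in (𝒰 : Filter ℕ), ∀ h ∈ F, ∀ k ∈ F,
        ((QuotientGroup.mk' (aeOne 𝒰 G)) k = (QuotientGroup.mk' (aeOne 𝒰 G)) h ↔ k i = h i) := by
  have h2 : ∀ h ∈ F, ∀ k ∈ F, ∀ᶠ i in (𝒰 : Filter ℕ),
      ((QuotientGroup.mk' (aeOne 𝒰 G)) k = (QuotientGroup.mk' (aeOne 𝒰 G)) h ↔ k i = h i) := by
    intro h _ k _
    by_cases hk : (QuotientGroup.mk' (aeOne 𝒰 G)) k = (QuotientGroup.mk' (aeOne 𝒰 G)) h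
    · filter_upwards [(mk_eq_iff 𝒰 G h k).1 hk] with i hi
      exact iff_of_true hk hi
    · have h3 : ∀ᶠ i in (𝒰 : Filter ℕ), ¬ (k i = h i) :=
        Ultrafilter.eventually_not.2 fun h' => hk ((mk_eq_iff 𝒰 G h k).2 h')
      filter_upwards [h3] with i hi
      exact iff_of_false hk hi
  rw [Filter.eventually_all_finset]
  intro h hh
  rw [Filter.eventually_all_finset]
  exact h2 h hh

theorem toU_zero_iff (x : MonoidAlgebra (∀ i, D i) (∀ i, G i)) :
    toU 𝒰 D G x = 0 ↔ ∀ᶠ i in (𝒰 : Filter ℕ), ev D G i x = 0 := by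
  classical
  have h1 : ∀ᶠ i in (𝒰 : Filter ℕ), (ev D G i x = 0 ↔ ∀ h ∈ x.coeff.support,
      (∑ k ∈ x.coeff.support with (QuotientGroup.mk' (aeOne 𝒰 G)) k
        = (QuotientGroup.mk' (aeOne 𝒰 G)) h, x.coeff k) i = 0) := by
    filter_upwards [same_ident 𝒰 G x.coeff.support] with i hi
    rw [ev, bm_zero_iff]
    refine forall₂_congr fun h hh => ?_
    rw [Finset.filter_congr fun k hk => hi h hh k hk]
    rfl
  have h2 : toU 𝒰 D G x = 0 ↔ ∀ᶠ i in (𝒰 : Filter ℕ), ∀ h ∈ x.coeff.support,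
      (∑ k ∈ x.coeff.support with (QuotientGroup.mk' (aeOne 𝒰 G)) k
        = (QuotientGroup.mk' (aeOne 𝒰 G)) h, x.coeff k) i = 0 := by
    rw [toU, bm_zero_iff, Filter.eventually_all_finset]
    refine forall₂_congr fun h hh => ?_
    rw [mk_zero_iff]
  rw [h2]
  exact eventually_congr (h1.mono fun i hi => hi.symm)

theorem toU_eq_iff (x y : MonoidAlgebra (∀ i, D i) (∀ i, G i)) :
    toU 𝒰 D G x = toU 𝒰 D G y ↔ ∀ᶠ i in (𝒰 : Filter ℕ), ev D G i x = ev D G i y := by
  rw [← sub_eq_zero, ← map_sub, toU_zero_iff]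
  refine eventually_congr (Eventually.of_forall fun i => ?_)
  rw [map_sub, sub_eq_zero]

theorem toU_mat_iff {ι κ : Type} [Finite ι] [Finite κ]
    (A B : Matrix ι κ (MonoidAlgebra (∀ i, D i) (∀ i, G i))) :
    A.map (toU 𝒰 D G) = B.map (toU 𝒰 D G) ↔
      ∀ᶠ i in (𝒰 : Filter ℕ), A.map (ev D G i) = B.map (ev D G i) := by
  have h1 : ∀ {T : Type} (φ : MonoidAlgebra (∀ i, D i) (∀ i, G i) → T),
      A.map φ = B.map φ ↔ ∀ p q, φ (A p q) = φ (B p q) := by
    intro T φ
    constructor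
    · intro h p q
      exact congrFun (congrFun h p) q
    · intro h
      ext p q
      exact h p q
  simp only [h1]
  rw [Filter.eventually_all]
  refine forall_congr' fun p => ?_
  rw [Filter.eventually_all]
  exact forall_congr' fun q => toU_eq_iff 𝒰 D G _ _

/-- lifting elements of bounded support to the products -/
theorem lift_elt (s : ℕ) (x : ∀ i, MonoidAlgebra (D i) (G i))
    (hx : ∀ i, (x i).coeff.support.card ≤ s) :
    ∃ y : MonoidAlgebra (∀ i, D i) (∀ i, G i), ∀ i, ev D G i y = x i := by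
  choose g c hgc using fun i => exists_monomials s (x i) (hx i)
  refine ⟨∑ t, MonoidAlgebra.single (fun i => g i t) (fun i => c i t), fun i => ?_⟩
  rw [map_sum]
  conv_rhs => rw [hgc i]
  exact Finset.sum_congr rfl fun t _ => bm_single _ _ _ _

/-- lifting matrices of bounded supports to the products -/
theorem lift_mat {ι κ : Type} (s : ℕ)
    (A : ∀ i, Matrix ι κ (MonoidAlgebra (D i) (G i)))
    (hA : ∀ i p q, (A i p q).coeff.support.card ≤ s) :
    ∃ B : Matrix ι κ (MonoidAlgebra (∀ i, D i) (∀ i, G i)), ∀ i, B.map (ev D G i) = A i := by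
  choose B hB using fun (p : ι) (q : κ) =>
    lift_elt D G s (fun i => A i p q) (fun i => hA i p q)
  refine ⟨fun p q => B p q, fun i => ?_⟩
  ext1 p q
  exact hB p q i

/-- a section of the map from the product of the groups to the ultraproduct -/
noncomputable def sgm (g : UG 𝒰 G) : ∀ i, G i := (QuotientGroup.mk'_surjective (aeOne 𝒰 G) g).choose

theorem mk_sgm (g : UG 𝒰 G) : QuotientGroup.mk' (aeOne 𝒰 G) (sgm 𝒰 G g) = g :=
  (QuotientGroup.mk'_surjective (aeOne 𝒰 G) g).choose_spec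

/-- a section of the map from the group ring of the products to that of the ultraproducts -/
noncomputable def lf (x : MonoidAlgebra (UD 𝒰 D) (UG 𝒰 G)) :
    MonoidAlgebra (∀ i, D i) (∀ i, G i) :=
  ∑ g ∈ x.coeff.support, MonoidAlgebra.single (sgm 𝒰 G g)
    (Ideal.Quotient.mk_surjective (I := aeZero 𝒰 D) (x.coeff g)).choose

theorem toU_lf (x : MonoidAlgebra (UD 𝒰 D) (UG 𝒰 G)) : toU 𝒰 D G (lf 𝒰 D G x) = x := by
  rw [lf, map_sum]
  conv_rhs => rw [eq_sum x]
  refine Finset.sum_congr rfl fun g _ => ?_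
  rw [toU, bm_single, mk_sgm,
    (Ideal.Quotient.mk_surjective (I := aeZero 𝒰 D) (x.coeff g)).choose_spec]

theorem lf_zero : lf 𝒰 D G 0 = 0 := by
  rw [lf]
  have h1 : (0 : MonoidAlgebra (UD 𝒰 D) (UG 𝒰 G)).coeff.support = ∅ := by
    rw [MonoidAlgebra.coeff_zero]
    exact Finsupp.support_zero
  rw [h1, Finset.sum_empty]

theorem ev_lf_support (x : MonoidAlgebra (UD 𝒰 D) (UG 𝒰 G)) (i : ℕ) (k : G i)
    (hk : k ∈ (ev D G i (lf 𝒰 D G x)).coeff.support) :
    ∃ g ∈ x.coeff.support, sgm 𝒰 G g i = k := by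
  classical
  obtain ⟨h, hh, rfl⟩ := Finset.mem_image.1 (bm_support _ _ _ hk)
  rw [lf, Finsupp.mem_support_iff, MonoidAlgebra.coeff_sum, Finset.sum_apply'] at hh
  obtain ⟨g, hg, h1⟩ := Finset.exists_ne_zero_of_sum_ne_zero hh
  refine ⟨g, hg, ?_⟩
  rw [MonoidAlgebra.coeff_single, Finsupp.single_apply] at h1
  have h2 : sgm 𝒰 G g = h := by
    by_contra hcon
    rw [if_neg hcon] at h1
    exact h1 rfl
  rw [h2]
  rfl

/-- finite subgroups of the ultraproduct come from the factors -/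
theorem finite_subgroup (H : Subgroup (UG 𝒰 G)) (hH : Finite H) :
    ∀ᶠ i in (𝒰 : Filter ℕ),
      Finite (Subgroup.closure ((fun g => sgm 𝒰 G g i) '' (H : Set (UG 𝒰 G)))) ∧
      Nat.card (Subgroup.closure ((fun g => sgm 𝒰 G g i) '' (H : Set (UG 𝒰 G)))) ≤ Nat.card H := by
  classical
  have hfin : (H : Set (UG 𝒰 G)).Finite := hH
  have h1 : ∀ᶠ i in (𝒰 : Filter ℕ), ∀ a ∈ hfin.toFinset, ∀ b ∈ hfin.toFinset,
      sgm 𝒰 G a i * sgm 𝒰 G b i = sgm 𝒰 G (a * b) i := by
    rw [Filter.eventually_all_finset]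
    intro a _
    rw [Filter.eventually_all_finset]
    intro b _
    have h2 : (QuotientGroup.mk' (aeOne 𝒰 G)) (sgm 𝒰 G a * sgm 𝒰 G b)
        = (QuotientGroup.mk' (aeOne 𝒰 G)) (sgm 𝒰 G (a * b)) := by
      rw [map_mul, mk_sgm, mk_sgm, mk_sgm]
    exact (mk_eq_iff 𝒰 G _ _).1 h2
  have h3 : ∀ᶠ i in (𝒰 : Filter ℕ), sgm 𝒰 G 1 i = 1 := by
    have h2 : (QuotientGroup.mk' (aeOne 𝒰 G)) (sgm 𝒰 G 1)
        = (QuotientGroup.mk' (aeOne 𝒰 G)) 1 := by
      rw [mk_sgm, map_one]
    exact (mk_eq_iff 𝒰 G _ _).1 h2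
  filter_upwards [h1, h3] with i h4 h5
  let K : Subgroup (G i) :=
    { carrier := (fun g => sgm 𝒰 G g i) '' (H : Set (UG 𝒰 G))
      mul_mem' := by
        rintro _ _ ⟨a, ha, rfl⟩ ⟨b, hb, rfl⟩
        exact ⟨a * b, H.mul_mem ha hb, (h4 a (hfin.mem_toFinset.2 ha) b (hfin.mem_toFinset.2 hb)).symm⟩
      one_mem' := ⟨1, H.one_mem, h5⟩
      inv_mem' := by
        rintro _ ⟨a, ha, rfl⟩
        refine ⟨a⁻¹, H.inv_mem ha, ?_⟩
        have h6 := h4 a⁻¹ (hfin.mem_toFinset.2 (H.inv_mem ha)) a (hfin.mem_toFinset.2 ha)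
        rw [inv_mul_cancel, h5] at h6
        exact eq_inv_of_mul_eq_one_left h6 }
  have hK : Subgroup.closure ((fun g => sgm 𝒰 G g i) '' (H : Set (UG 𝒰 G))) = K := by
    apply le_antisymm
    · rw [Subgroup.closure_le]
      exact fun x hx => hx
    · exact fun x hx => Subgroup.subset_closure hx
  rw [hK]
  have hKf : (K : Set (G i)).Finite := hfin.image _
  refine ⟨hKf, ?_⟩
  have h7 : Nat.card K = ((fun g => sgm 𝒰 G g i) '' (H : Set (UG 𝒰 G))).ncard := rfl
  rw [h7]
  exact Set.ncard_image_le hfin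

end rings

end Pool.Agent.K6.H28.GR
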